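import Pool.Agent.W660.FG.Stm

/-!
Part CEN of project FL (problem MP_2da52b_an): there is a strict normalised function without
linear term.
-/

namespace Pool.Agent.W660.FG

open Pool.Agent.W660.FL

open MeasureTheory Complex Filter Topology
open scoped ComplexConjugate InnerProductSpace Manifold ContDiff

noncomputable section

section B

variable (G : Type) [Group G] [TopologicalSpace G] [IsTopologicalGroup G] [T2Space G]
  [LocallyCompactSpace G] [MeasurableSpace G] [BorelSpace G]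
  (μ : Measure G) [μ.IsHaarMeasure] (Q : Type) [Group Q] [TopologicalSpace Q] [IsTopologicalGroup Q] [T2Space Q] (E : Type) [NormedAddCommGroup E] [NormedSpace ℝ E]
  [FiniteDimensional ℝ E]

namespace TCENx

/-- a real number `a` with `n a + b ≥ 0` for all `n` is nonnegative -/
theorem nonneg_of_all {a b : ℝ} (h : ∀ n : ℕ, 0 ≤ (n : ℝ) * a + b) : 0 ≤ a := by
  by_contra hneg
  have ha : a < 0 := not_le.mp hneg
  obtain ⟨n, hn⟩ := exists_nat_gt (b / (-a))
  have h1 : b < n * (-a) := by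
    rwa [div_lt_iff₀ (by linarith)] at hn
  have h2 := h n
  nlinarith

end TCENx

theorem t3x_CEN : S3_P1 G μ Q E → S3_ST1 G μ Q E → S3_ST2 G μ Q E → S_SEP → S3_NOPOS G μ Q E →
    S3_CEN G μ Q E := by
  intro hP1 hST1 hST2 hSEP hNO D C A hA hSp
  obtain ⟨p1, p2, p3, _p4, p5, p6⟩ := hP1 D C A hA
  obtain ⟨s1, s2⟩ := hST1 D C A hA
  obtain ⟨ψ, hψ, hψs⟩ := hST2 D C A hA hSp
  obtain ⟨β, hβ⟩ := p3 ψ hψ
  by_contra hcon
  set S : Set (E →L[ℝ] ℝ) := {α | ∃ φ, InP3 D C A φ ∧ Strict3 D C φ ∧ HasAl3 D C φ α} with hS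
  have hconv : Convex ℝ S := by
    rw [convex_iff_forall_pos]
    rintro α₁ ⟨φ₁, h₁, h₁s, h₁a⟩ α₂ ⟨φ₂, h₂, h₂s, h₂a⟩ a b ha hb hab
    have hb' : b = 1 - a := by linarith
    subst hb'
    exact ⟨_, p2 φ₁ φ₂ a h₁ h₂ ha.le (by linarith), s2 φ₁ φ₂ a h₁ h₂ h₁s h₂s ha.le (by linarith),
      p6 φ₁ φ₂ α₁ α₂ a h₁a h₂a⟩
  have hne : S.Nonempty := ⟨β, ψ, hψ, hψs, hβ⟩
  have h0 : (0 : E →L[ℝ] ℝ) ∉ S := fun h => hcon h
  obtain ⟨X, hX, hpos⟩ := hSEP E S hconv hne h0
  refine hNO D C A hA hSp X hX ?_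
  intro φ α hφ hα
  have key : ∀ n : ℕ, ((n : ℝ) • α + β) ∈ S := by
    intro n
    induction n with
    | zero => exact ⟨ψ, hψ, hψs, by simpa using hβ⟩
    | succ n ih =>
      obtain ⟨θ, hθ, hθs, hθa⟩ := ih
      refine ⟨θ * φ, p1 θ φ hθ hφ, s1 θ φ hθ hφ hθs, ?_⟩
      have h := p5 θ φ _ _ hθ hφ hθa hα
      have he : (((n + 1 : ℕ) : ℝ) • α + β) = ((n : ℝ) • α + β) + α := by
        push_cast
        rw [add_smul, one_smul]
        abel
      rw [he]
      exact h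
  refine TCENx.nonneg_of_all (b := β X) ?_
  intro n
  have h := hpos _ (key n)
  simpa using h

end B

end

end Pool.Agent.W660.FG
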