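import Pool.Agent.W660.FG.Main
import Pool.Agent.W660.FQ.T4_EUL
import Pool.Agent.W660.FQ.T4_LIN
import Pool.Agent.W660.FQ.T4_LOC
import Pool.Agent.W660.FQ.T4_PRJ
import Pool.Agent.W660.FQ.QCx
import Pool.Agent.W660.FQ.T4_SMO

/-!
The theorem for all locally compact groups satisfying the conclusion of the
Gleason-Yamabe theorem.
-/

namespace Pool.Agent.W660.FG

open Pool.Agent.W660.FL Pool.Agent.W660.FQ
open MeasureTheory Complex Filter Topology
open scoped ComplexConjugate InnerProductSpace Manifold ContDiff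

theorem quo : S3_QUO := by
  intro Q _ _ _ _ K _ hK hQ
  obtain ⟨E, _, _, _, _, hLie⟩ := hQ
  obtain ⟨C⟩ := t_LG Q E
  have hOPS : S_OPS Q E := t_OPS Q E t_ODE (t_EXT Q)
  have hEUL : S4_EUL Q E := t4_EUL
  have hLIN : S4_LIN Q E := t4_LIN Q E hOPS hEUL
  have hLOC : S4_LOC Q E := t4_LOC Q E hOPS hEUL
  have hSMO : S4_SMO Q E := t4_SMO Q E
  have hPRJ : S4_PRJ2 Q E := t4_PRJ2 Q E hOPS hSMO hLIN hLOC
  obtain ⟨F, hF⟩ := t4_QC2 Q E hPRJ C K hK
  exact ⟨F, inferInstance, inferInstance, inferInstance, hF⟩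

theorem final (G : Type) [Group G] [TopologicalSpace G] [IsTopologicalGroup G] [T2Space G]
    [LocallyCompactSpace G] [MeasurableSpace G] [BorelSpace G]
    (μ : Measure G) [μ.IsHaarMeasure] [μ.Regular] (hG : GYam G) (A : Set (G → ℂ))
    (hA : IsAlg μ A) : A = FA μ := main_gen G μ quo hG A hA

/-- quotients of topological groups by the trivial subgroup -/
theorem gYam_of_lie (E : Type) [NormedAddCommGroup E] [NormedSpace ℝ E] [FiniteDimensional ℝ E]
    (G : Type) [Group G] [TopologicalSpace G] [IsTopologicalGroup G] [T2Space G]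
    [LocallyCompactSpace G] [MeasurableSpace G] [BorelSpace G]
    (μ : Measure G) [μ.IsHaarMeasure] [μ.Regular] [ChartedSpace E G] [LieGroup 𝓘(ℝ, E) ∞ G]
    (A : Set (G → ℂ)) (hA : IsAlg μ A) : A = FA μ := by
  obtain ⟨C⟩ := t_LG G E
  let D : QD G G :=
    { H := ⊤
      isOpen := by simp
      π := (⊤ : Subgroup G).subtype
      cont := continuous_subtype_val
      opn := IsOpen.isOpenMap_subtype_val (by simp)
      surj := fun x => ⟨⟨x, trivial⟩, rfl⟩
      cpt := by
        have : (⊤ : Subgroup G).subtype.ker = ⊥ := Subgroup.ker_subtype _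
        rw [this, Subgroup.map_bot]
        exact isCompact_singleton }
  have hN : D.N = ⊥ := by
    show (⊤ : Subgroup G).subtype.ker.map _ = ⊥
    rw [Subgroup.ker_subtype, Subgroup.map_bot]
  have hUB : S_UB G μ := r_UB G μ
  have hFAC : S_FAC G μ := r_FAC G μ
  have hSA : S_SA G μ := r_SA G μ hUB hFAC
  refine (hSA A hA).2.2.2.2.2 fun ζ => ?_
  have hinv : ∀ u : G → ℂ, InvL D.N u := by
    intro u l hl x
    rw [hN, Subgroup.mem_bot] at hl
    rw [hl, one_mul]
  refine main_one G μ G E D C A hA ⟨?_, ?_⟩ ζ ?_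
  · intro x hx
    rw [hN, Subgroup.mem_bot] at hx
    obtain ⟨u, hu, hne⟩ := hA.sep x 1 hx
    exact ⟨u, hu, hinv u, 1, by rwa [mul_one]⟩
  · obtain ⟨u, hu, hne⟩ := hA.nz 1
    exact ⟨u, hu, hinv u, fun h => hne (by rw [h]; rfl)⟩
  · intro l hl
    rw [hN, Subgroup.mem_bot] at hl
    rw [hl]
    exact hUB.2.1 ζ

end Pool.Agent.W660.FG
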