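import Pool.Agent.W660.FG.Final
import Pool.Agent.W660.GY.Stm

/-!
The theorem for all locally compact groups, from the three parts of the Gleason-Yamabe theorem.
-/

set_option linter.unusedSectionVars false

namespace Pool.Agent.W660.FG

open Pool.Agent.W660.FL Pool.Agent.W660.FQ Pool.Agent.W660.GY
open MeasureTheory Complex Filter Topology
open scoped ComplexConjugate InnerProductSpace Manifold ContDiff

section

variable (G : Type) [Group G] [TopologicalSpace G] [IsTopologicalGroup G] [T2Space G]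
  [LocallyCompactSpace G] [MeasurableSpace G] [BorelSpace G]
  (μ : Measure G) [μ.IsHaarMeasure]

theorem gen_coreP (P : ∀ (Q : Type) [Group Q] [TopologicalSpace Q], Prop)
    (hSA : S_SA G μ) (hHM : S3_HM G) (hAV : S3_AV G μ) (hAVS : S3_AVS G μ)
    (hSM : S3_SMALL G μ) (hO : S3_ONE G μ)
    (hQ : ∀ (Q : Type) [Group Q] [TopologicalSpace Q] [IsTopologicalGroup Q] [T2Space Q]
      (K : Subgroup Q) [K.Normal], IsClosed (K : Set Q) → P Q →
      ∃ (F : Type) (_ : NormedAddCommGroup F) (_ : NormedSpace ℝ F),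
        FiniteDimensional ℝ F ∧ Nonempty (LieChart (Q ⧸ K) F))
    (hG : ∃ H : Subgroup G, IsOpen (H : Set G) ∧ ∀ V ∈ 𝓝 (1 : H), ∃ (N : Subgroup H)
      (_ : N.Normal), IsCompact (N : Set H) ∧ (N : Set H) ⊆ V ∧ P (H ⧸ N))
    (A : Set (G → ℂ)) (hA : IsAlg μ A) : A = FA μ := by
  obtain ⟨H, hH, hP⟩ := hG
  refine (hSA A hA).2.2.2.2.2 fun ζ => ?_
  refine (hSA A hA).2.2.2.1 ζ fun ε hε => ?_
  obtain ⟨V, hV, hV2⟩ := hAVS.1 ζ ε hε
  obtain ⟨V', hV', hV'2⟩ := hSM A hA (V ∩ H) (inter_mem hV (hH.mem_nhds H.one_mem))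
  have hpre : ((fun h : H => (h : G)) ⁻¹' V') ∈ 𝓝 (1 : H) :=
    continuous_subtype_val.continuousAt.preimage_mem_nhds (by simpa using hV')
  obtain ⟨N, hNn, hNc, hNV, hNL⟩ := hP _ hpre
  have hN1 : IsCompact ((N.map H.subtype : Subgroup G) : Set G) := by
    rw [Subgroup.coe_map]
    exact hNc.image continuous_subtype_val
  have hN2 : ((N.map H.subtype : Subgroup G) : Set G) ⊆ V' := by
    rw [Subgroup.coe_map]
    rintro _ ⟨n, hn, rfl⟩
    exact hNV hn
  obtain ⟨L, hNL', hLc, hLV, hLn, hLs, hLe⟩ := hV'2 _ hN1 hN2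
  have hLH : L ≤ H := fun x hx => (hLV hx).2
  obtain ⟨m, hm⟩ := hHM L hLc
  refine ⟨avH μ m ζ, ?_, ?_⟩
  swap
  · rw [norm_sub_rev]
    exact hV2 L m hLc hm fun x hx => (hLV hx).1
  -- the quotient
  have hnorm : ∀ h : H, ∀ n ∈ N.map H.subtype, (h : G) * n * (h : G)⁻¹ ∈ N.map H.subtype := by
    rintro h _ ⟨n, hn, rfl⟩
    exact ⟨h * n * h⁻¹, hNn.conj_mem n hn h, rfl⟩
  have hnorm2 : ∀ h : H, ∀ n ∈ N.map H.subtype, (h : G)⁻¹ * n * (h : G) ∈ N.map H.subtype := by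
    intro h n hn
    have := hnorm h⁻¹ n hn
    simpa using this
  let L' : Subgroup H := L.subgroupOf H
  haveI hL'n : L'.Normal := ⟨fun n hn h => by
    rw [Subgroup.mem_subgroupOf] at hn ⊢
    exact hLn h (hnorm h) (hnorm2 h) _ hn⟩
  have hNL2 : N ≤ L' := by
    intro n hn
    rw [Subgroup.mem_subgroupOf]
    exact hNL' ⟨n, hn, rfl⟩
  have hNcl : IsClosed (N : Set H) := hNc.isClosed
  haveI : IsClosed (N : Set H) := hNcl
  let K : Subgroup (H ⧸ N) := L'.map (QuotientGroup.mk' N)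
  haveI hKn : K.Normal := Subgroup.Normal.map hL'n _ (QuotientGroup.mk'_surjective N)
  have hL'c : IsCompact (L' : Set H) := by
    have : (L' : Set H) = (fun h : H => (h : G)) ⁻¹' (L : Set G) := rfl
    rw [this]
    exact (Topology.IsClosedEmbedding.isCompact_preimage
      (H.isClosed_of_isOpen hH).isClosedEmbedding_subtypeVal hLc)
  have hKc : IsClosed (K : Set (H ⧸ N)) := by
    have : IsCompact (K : Set (H ⧸ N)) := by
      rw [Subgroup.coe_map]
      exact hL'c.image QuotientGroup.continuous_mk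
    exact this.isClosed
  obtain ⟨F, i1, i2, i3, ⟨C⟩⟩ := hQ (H ⧸ N) K hKc hNL
  let π : H →* (H ⧸ N) ⧸ K := (QuotientGroup.mk' K).comp (QuotientGroup.mk' N)
  have hker : ∀ h : H, π h = 1 ↔ (h : G) ∈ L := by
    intro h
    have e1 : π h = 1 ↔ (QuotientGroup.mk' N h) ∈ K := by
      show QuotientGroup.mk' K (QuotientGroup.mk' N h) = 1 ↔ _
      rw [← MonoidHom.mem_ker, QuotientGroup.ker_mk']
    rw [e1]
    constructor
    · rintro ⟨l, hl, hl2⟩
      have : l⁻¹ * h ∈ N := by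
        rw [← QuotientGroup.eq]
        exact hl2
      have h3 : l * (l⁻¹ * h) ∈ L' := L'.mul_mem hl (hNL2 this)
      rw [mul_inv_cancel_left, Subgroup.mem_subgroupOf] at h3
      exact h3
    · intro hh
      exact ⟨h, by rw [SetLike.mem_coe, Subgroup.mem_subgroupOf]; exact hh, rfl⟩
  have hmap : (π.ker.map H.subtype : Subgroup G) = L := by
    ext x
    constructor
    · rintro ⟨h, hh, rfl⟩
      exact (hker h).1 hh
    · intro hx
      exact ⟨⟨x, hLH hx⟩, (hker _).2 hx, rfl⟩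
  let D : QD G ((H ⧸ N) ⧸ K) :=
    { H := H
      isOpen := hH
      π := π
      cont := QuotientGroup.continuous_mk.comp QuotientGroup.continuous_mk
      opn := QuotientGroup.isOpenMap_coe.comp QuotientGroup.isOpenMap_coe
      surj := (QuotientGroup.mk'_surjective K).comp (QuotientGroup.mk'_surjective N)
      cpt := by rw [hmap]; exact hLc }
  have hDN : D.N = L := hmap
  haveI : IsClosed (K : Set (H ⧸ N)) := hKc
  have hSep : Sep D A := by
    unfold Sep
    rw [hDN]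
    exact ⟨hLs, hLe⟩
  have := hO ((H ⧸ N) ⧸ K) F D C A hA hSep (avH μ m ζ)
  rw [hDN] at this
  exact this ((hAV L hLc m hm).1 ζ).2.1

end

/-- quotients of groups with charts -/
theorem quoC (Q : Type) [Group Q] [TopologicalSpace Q] [IsTopologicalGroup Q] [T2Space Q]
    (K : Subgroup Q) [K.Normal] (hK : IsClosed (K : Set Q)) (hQ : HasChart Q) :
    ∃ (F : Type) (_ : NormedAddCommGroup F) (_ : NormedSpace ℝ F),
      FiniteDimensional ℝ F ∧ Nonempty (LieChart (Q ⧸ K) F) := by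
  obtain ⟨E, _, _, _, ⟨C⟩⟩ := hQ
  have hOPS : S_OPS Q E := t_OPS Q E t_ODE (t_EXT Q)
  have hEUL : S4_EUL Q E := t4_EUL
  have hLIN : S4_LIN Q E := t4_LIN Q E hOPS hEUL
  have hLOC : S4_LOC Q E := t4_LOC Q E hOPS hEUL
  have hSMO : S4_SMO Q E := t4_SMO Q E
  have hPRJ : S4_PRJ2 Q E := t4_PRJ2 Q E hOPS hSMO hLIN hLOC
  obtain ⟨F, hF⟩ := t4_QC2 Q E hPRJ C K hK
  exact ⟨F, inferInstance, inferInstance, inferInstance, hF⟩

/-- the theorem, from the three parts of the Gleason-Yamabe theorem -/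
theorem final2 (h1 : GY1) (h2 : GY2) (h3 : GY3)
    (G : Type) [Group G] [TopologicalSpace G] [IsTopologicalGroup G] [T2Space G]
    [LocallyCompactSpace G] [MeasurableSpace G] [BorelSpace G]
    (μ : Measure G) [μ.IsHaarMeasure] [μ.Regular] (A : Set (G → ℂ))
    (hA : IsAlg μ A) : A = FA μ := by
  have hUB : S_UB G μ := r_UB G μ
  have hCC : S_CC G μ := r_CC G μ
  have hFAC : S_FAC G μ := r_FAC G μ
  have hSA : S_SA G μ := r_SA G μ hUB hFAC
  have hINTA : S_INTA G μ := r_INTA G μ hUB hFAC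
  have hDSA : S_DSA G μ := r_DSA G μ hUB hCC hFAC hSA hINTA
  have hSUPD : S_SUPD G μ := r_SUPD G μ hUB hFAC hDSA
  have hHM : S3_HM G := t3_HM G
  have hAV : S3_AV G μ := t3_AV μ hUB hCC
  have hAVF : S3_AVF G := t3_AVF G
  have hAVA : S3_AVA G μ := t3_AVA G μ hUB hFAC
  have hAVS : S3_AVS G μ := t3_AVS G μ hUB
  have hSM : S3_SMALL G μ := t3_SMALL G μ hDSA hSUPD hHM hAVF hAVA hAVS
  refine gen_coreP G μ (fun Q _ _ => HasChart Q) hSA hHM hAV hAVS hSM (main_one G μ)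
    (fun Q _ _ _ _ K _ hK hQ => quoC Q K hK hQ) ?_ A hA
  obtain ⟨H, hH, hV⟩ := h3 G
  refine ⟨H, hH, fun V hVn => ?_⟩
  obtain ⟨N, hNn, hNc, hNV, hNSS⟩ := hV V hVn
  refine ⟨N, hNn, hNc, hNV, ?_⟩
  haveI : IsClosed (N : Set H) := hNc.isClosed
  haveI : LocallyCompactSpace H := hH.isOpenEmbedding_subtypeVal.locallyCompactSpace
  obtain ⟨ν, hν⟩ := h2 (H ⧸ N) hNSS
  exact h1 (H ⧸ N) ν hν

end Pool.Agent.W660.FG
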