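import Pool.Agent.W660.FL.Stm

namespace Pool.Agent.W660.FG

open Pool.Agent.W660.FL

open MeasureTheory Complex Filter Topology
open scoped ComplexConjugate InnerProductSpace Manifold ContDiff

noncomputable section

variable (G : Type) [Group G] [TopologicalSpace G] [IsTopologicalGroup G] [T2Space G]
  [LocallyCompactSpace G] [MeasurableSpace G] [BorelSpace G]
  (μ : Measure G) [μ.IsHaarMeasure]

namespace RCONVA

theorem integ (hUB : S_UB G μ) (g : G → ℂ) (hg : Cc g) (ξ : HH μ) :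
    Integrable (fun z => g z • U μ z⁻¹ ξ) μ := by
  have h1 : Continuous fun z : G => U μ z⁻¹ ξ := (hUB.2.2.1 ξ).comp continuous_inv
  have h2 : Continuous fun z : G => g z • U μ z⁻¹ ξ := hg.1.smul h1
  exact h2.integrable_of_hasCompactSupport hg.2.smul_right

theorem part1 (hUB : S_UB G μ) (hFAC : S_FAC G μ) (hINTA : S_INTA G μ) (f w : G → ℂ)
    (hf : Cc f) (A : Set (G → ℂ)) (hA : IsAlg μ A) (hwA : w ∈ A) : conv μ f w ∈ A := by
  obtain ⟨c, hc⟩ := hA.sub hwA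
  obtain ⟨ξ, η, -, hw⟩ := hFAC.2 c w hc
  have hint := integ G μ hUB f hf ξ
  have h1 : ∀ z x, mc μ (f z • U μ z⁻¹ ξ) η x = f z * w (z⁻¹ * x) := by
    intro z x
    rw [hw (z⁻¹ * x)]
    unfold mc
    rw [hUB.1 z⁻¹ x ξ, map_smul, inner_smul_right]
  have h2 : ∀ z, mc μ (f z • U μ z⁻¹ ξ) η ∈ A := by
    intro z
    have h3 : mc μ (f z • U μ z⁻¹ ξ) η = f z • (fun x => w (z⁻¹ * x)) := by
      funext x
      rw [h1 z x]
      rfl
    rw [h3]
    exact hA.smul _ _ (hA.left _ _ hwA)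
  have h3 := (hINTA A hA).1 η _ hint h2
  have h4 : mc μ (∫ z, f z • U μ z⁻¹ ξ ∂μ) η = conv μ f w := by
    funext x
    have h5 : ∫ z, f z * w (z⁻¹ * x) ∂μ = ∫ z, ⟪η, U μ x (f z • U μ z⁻¹ ξ)⟫_ℂ ∂μ := by
      refine integral_congr_ae (Eventually.of_forall fun z => ?_)
      exact (h1 z x).symm
    have h6 : Integrable (fun z => U μ x (f z • U μ z⁻¹ ξ)) μ :=
      (U μ x).toContinuousLinearMap.integrable_comp hint
    have h7 : ∫ z, U μ x (f z • U μ z⁻¹ ξ) ∂μ = U μ x (∫ z, f z • U μ z⁻¹ ξ ∂μ) :=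
      (U μ x).toContinuousLinearMap.integral_comp_comm hint
    unfold conv
    rw [h5, integral_inner h6, h7]
    rfl
  rw [h4] at h3
  exact h3

theorem part2 (hUB : S_UB G μ) (hFAC : S_FAC G μ) (hINTA : S_INTA G μ) (f w : G → ℂ)
    (hw : Cc w) (A : Set (G → ℂ)) (hA : IsAlg μ A) (hfA : f ∈ A) : conv μ f w ∈ A := by
  obtain ⟨c, hc⟩ := hA.sub hfA
  obtain ⟨ξ, η, -, hf⟩ := hFAC.2 c f hc
  have hw' : Cc (fun z => conj (w z⁻¹)) := by
    refine ⟨Complex.continuous_conj.comp (hw.1.comp continuous_inv), ?_⟩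
    have h1 : HasCompactSupport (w ∘ (Homeomorph.inv G)) := hw.2.comp_homeomorph _
    exact h1.comp_left (g := fun z : ℂ => conj z) (map_zero _)
  have hint := integ G μ hUB _ hw' η
  have h1 : ∀ z x, mc μ ξ (conj (w z⁻¹) • U μ z⁻¹ η) x = w z⁻¹ * f (x * z) := by
    intro z x
    rw [hf (x * z)]
    unfold mc
    rw [inner_smul_left, hUB.1 x z ξ, hUB.2.2.2 z, Complex.conj_conj]
  have h2 : ∀ z, mc μ ξ (conj (w z⁻¹) • U μ z⁻¹ η) ∈ A := by
    intro z
    have h3 : mc μ ξ (conj (w z⁻¹) • U μ z⁻¹ η) = w z⁻¹ • (fun x => f (x * z)) := by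
      funext x
      rw [h1 z x]
      rfl
    rw [h3]
    exact hA.smul _ _ (hA.right _ _ hfA)
  have h3 := (hINTA A hA).2 ξ _ hint h2
  have h4 : mc μ ξ (∫ z, conj (w z⁻¹) • U μ z⁻¹ η ∂μ) = conv μ f w := by
    funext x
    have h5 : conv μ f w x = ∫ z, w z⁻¹ * f (x * z) ∂μ := by
      unfold conv
      rw [← integral_mul_left_eq_self (fun z => f z * w (z⁻¹ * x)) x]
      refine integral_congr_ae (Eventually.of_forall fun z => ?_)
      dsimp only
      rw [mul_inv_rev, mul_assoc, inv_mul_cancel, mul_one, mul_comm]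
    have h6 : ∫ z, w z⁻¹ * f (x * z) ∂μ =
        ∫ z, conj ⟪U μ x ξ, conj (w z⁻¹) • U μ z⁻¹ η⟫_ℂ ∂μ := by
      refine integral_congr_ae (Eventually.of_forall fun z => ?_)
      dsimp only
      rw [inner_conj_symm]
      exact (h1 z x).symm
    rw [h5, h6, integral_conj, integral_inner hint, inner_conj_symm]
    rfl
  rw [h4] at h3
  exact h3

end RCONVA

theorem r_CONVA : S_UB G μ → S_FAC G μ → S_INTA G μ → S_CONVA G μ := by
  intro hUB hFAC hINTA f w hf hw A hA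
  exact ⟨RCONVA.part1 G μ hUB hFAC hINTA f w hf A hA, RCONVA.part2 G μ hUB hFAC hINTA f w hw A hA⟩

end

end Pool.Agent.W660.FG
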