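import Pool.Agent.W660.FL.Stm

/-!
Project FG, part FAC: coefficient functions in terms of the translations of `L²(G)`.
-/

namespace Pool.Agent.W660.FG

open Pool.Agent.W660.FL
open MeasureTheory Complex Filter Topology
open scoped ComplexConjugate InnerProductSpace Manifold ContDiff

noncomputable section

set_option linter.unusedSectionVars false

variable (G : Type) [Group G] [TopologicalSpace G] [IsTopologicalGroup G] [T2Space G]
  [LocallyCompactSpace G] [MeasurableSpace G] [BorelSpace G]
  (μ : Measure G) [μ.IsHaarMeasure]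

namespace RFAC

variable {G}

theorem memLp_conj (f : G → ℂ) (hf : MemLp f 2 μ) : MemLp (fun y => conj (f y)) 2 μ :=
  hf.star

theorem eLpNorm_conj (f : G → ℂ) : eLpNorm (fun y => conj (f y)) 2 μ = eLpNorm f 2 μ := by
  apply eLpNorm_congr_norm_ae
  filter_upwards with y
  simp

theorem mc_eq (ξ η : HH μ) (x : G) :
    mc μ ξ η x = ∫ y, conj ((η : G → ℂ) y) * (ξ : G → ℂ) (x * y) ∂μ := by
  unfold mc
  rw [MeasureTheory.L2.inner_def]
  apply integral_congr_ae
  have h : (U μ x ξ : G → ℂ) =ᵐ[μ] fun y => (ξ : G → ℂ) (x * y) := by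
    have := Lp.coeFn_compMeasurePreserving (f := fun y => x * y) ξ
      (measurePreserving_mul_left μ x)
    exact this
  filter_upwards [h] with y hy
  rw [hy, RCLike.inner_apply]
  ring

theorem coef_conj (f g : G → ℂ) (x : G) :
    coef μ (fun y => conj (f y)) (fun y => conj (g y)) x =
      ∫ y, conj (f y) * g (x * y) ∂μ := by
  unfold coef
  rw [← integral_mul_left_eq_self (μ := μ)
    (fun y => conj (f (x⁻¹ * y)) * conj (conj (g y))) x]
  apply integral_congr_ae
  filter_upwards with y
  simp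

end RFAC

/-- coefficient functions in terms of `U` -/
theorem r_FAC : S_FAC G μ := by
  refine ⟨?_, ?_⟩
  · intro ξ η
    refine ⟨fun y => conj ((η : G → ℂ) y), fun y => conj ((ξ : G → ℂ) y),
      RFAC.memLp_conj μ _ (Lp.memLp η), RFAC.memLp_conj μ _ (Lp.memLp ξ), ?_, ?_⟩
    · rw [RFAC.eLpNorm_conj, RFAC.eLpNorm_conj, Lp.norm_def, Lp.norm_def, mul_comm]
    · intro x
      rw [RFAC.mc_eq, RFAC.coef_conj]
  · rintro c u ⟨f, g, hf, hg, hc, hu⟩
    have hf' := RFAC.memLp_conj μ _ hf
    have hg' := RFAC.memLp_conj μ _ hg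
    refine ⟨hg'.toLp _, hf'.toLp _, ?_, ?_⟩
    · rw [Lp.norm_toLp, Lp.norm_toLp, RFAC.eLpNorm_conj, RFAC.eLpNorm_conj, mul_comm]
      exact hc
    · intro x
      rw [hu, RFAC.mc_eq]
      have h1 : coef μ f g x = coef μ (fun y => conj (conj (f y))) (fun y => conj (conj (g y))) x := by
        simp
      rw [h1, RFAC.coef_conj μ (fun y => conj (f y)) (fun y => conj (g y)) x]
      apply integral_congr_ae
      have e1 := hf'.coeFn_toLp
      have e2 := hg'.coeFn_toLp
      have e3 : ∀ᵐ y ∂μ, (hg'.toLp (fun y => conj (g y)) : G → ℂ) (x * y) = conj (g (x * y)) :=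
        (measurePreserving_mul_left μ x).quasiMeasurePreserving.ae e2
      filter_upwards [e1, e3] with y h2 h3
      rw [h2, h3]

end

end Pool.Agent.W660.FG
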