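import Pool.Agent.W660.FL.Stm

namespace Pool.Agent.W660.FG

open MeasureTheory Complex Filter Topology Pool.Agent.W660.FL
open scoped ComplexConjugate InnerProductSpace Manifold ContDiff

noncomputable section

variable (G : Type) [Group G] [TopologicalSpace G] [IsTopologicalGroup G] [T2Space G]
  [LocallyCompactSpace G] [MeasurableSpace G] [BorelSpace G]
  (μ : Measure G) [μ.IsHaarMeasure]

theorem r_SA : S_UB G μ → S_FAC G μ → S_SA G μ := by
  intro hUB hFAC A hA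
  obtain ⟨f1, f2⟩ := hFAC
  obtain ⟨b1, b2, b3, b4⟩ := hUB
  have h0A : (0 : G → ℂ) ∈ A := by
    obtain ⟨u, hu, _⟩ := hA.nz 1
    have h := hA.smul 0 u hu
    rwa [zero_smul] at h
  have e0 : ∀ η : HH μ, mc μ (0 : HH μ) η = 0 := by
    intro η
    funext x
    simp [mc]
  have eadd : ∀ ζ ζ' η : HH μ, mc μ (ζ + ζ') η = mc μ ζ η + mc μ ζ' η := by
    intro ζ ζ' η
    funext x
    simp [mc, inner_add_right]
  have esub : ∀ ζ ζ' η : HH μ, mc μ (ζ - ζ') η = mc μ ζ η - mc μ ζ' η := by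
    intro ζ ζ' η
    funext x
    simp [mc, inner_sub_right]
  have esmul : ∀ (c : ℂ) (ζ η : HH μ), mc μ (c • ζ) η = c • mc μ ζ η := by
    intro c ζ η
    funext x
    simp [mc, inner_smul_right]
  refine ⟨?_, ?_, ?_, ?_, ?_, ?_⟩
  · intro η
    rw [e0]
    exact h0A
  · intro ζ hζ ζ' hζ' η
    rw [eadd]
    exact hA.add _ (hζ η) _ (hζ' η)
  · intro c ζ hζ η
    rw [esmul]
    exact hA.smul c _ (hζ η)
  · intro ζ h η
    apply hA.closed
    · exact ⟨_, f1 ζ η⟩
    · intro ε hε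
      have hη : 0 ≤ ‖η‖ := norm_nonneg η
      obtain ⟨ζ', hζ', hd⟩ := h (ε / (‖η‖ + 1)) (by positivity)
      refine ⟨mc μ ζ' η, hζ' η, ?_⟩
      rw [← esub]
      obtain ⟨ξ1, η1, m1, m2, hle, hx⟩ := f1 (ζ - ζ') η
      refine ⟨ξ1, η1, m1, m2, hle.trans ?_, hx⟩
      calc ‖ζ - ζ'‖ * ‖η‖ ≤ ε / (‖η‖ + 1) * (‖η‖ + 1) :=
            mul_le_mul hd (by linarith) hη (by positivity)
        _ = ε := by field_simp
  · intro ζ hζ g η
    have h : mc μ (U μ g ζ) η = fun x => mc μ ζ η (g * x) := by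
      funext x
      simp only [mc]
      rw [b1]
    rw [h]
    exact hA.left g _ (hζ η)
  · intro h
    apply Set.Subset.antisymm hA.sub
    intro u hu
    obtain ⟨c, hc⟩ := hu
    obtain ⟨ξ, η, _, hx⟩ := f2 c u hc
    have hu2 : u = mc μ ξ η := funext hx
    rw [hu2]
    exact h ξ η

end

end Pool.Agent.W660.FG
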