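import Pool.Agent.W660.FL.Stm

/-!
Project FG, part UB: basic facts on the translations (no countability, regular Haar measure).
-/

namespace Pool.Agent.W660.FG

open Pool.Agent.W660.FL

open MeasureTheory Complex Filter Topology
open scoped ComplexConjugate InnerProductSpace Manifold ContDiff

noncomputable section

variable (G : Type) [Group G] [TopologicalSpace G] [IsTopologicalGroup G] [T2Space G]
  [LocallyCompactSpace G] [MeasurableSpace G] [BorelSpace G]
  (μ : Measure G) [μ.IsHaarMeasure] [μ.Regular]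

namespace RUB

variable {G μ}

omit [T2Space G] [LocallyCompactSpace G] [μ.Regular] in
theorem U_coe (x : G) (ξ : HH μ) : (U μ x ξ : G → ℂ) =ᵐ[μ] fun y => ξ (x * y) :=
  Lp.coeFn_compMeasurePreserving ξ (measurePreserving_mul_left μ x)

omit [T2Space G] [LocallyCompactSpace G] [μ.Regular] in
theorem U_mul (x y : G) (ξ : HH μ) : U μ (x * y) ξ = U μ y (U μ x ξ) := by
  apply Lp.ext
  have h1 := U_coe (μ := μ) (x * y) ξ
  have h2 := U_coe (μ := μ) y (U μ x ξ)
  have h3 := (measurePreserving_mul_left μ y).quasiMeasurePreserving.ae_eq_comp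
    (U_coe (μ := μ) x ξ)
  filter_upwards [h1, h2, h3] with z e1 e2 e3
  rw [e1, e2]
  simp only [Function.comp_apply] at e3
  rw [e3, mul_assoc]

omit [T2Space G] [LocallyCompactSpace G] [μ.Regular] in
theorem U_one (ξ : HH μ) : U μ 1 ξ = ξ := by
  apply Lp.ext
  filter_upwards [U_coe (μ := μ) 1 ξ] with z e1
  rw [e1, one_mul]

omit [T2Space G] in
theorem U_cont (ξ : HH μ) : Continuous fun x => U μ x ξ := by
  let g : C(G, C(G, G)) := (ContinuousMap.mk (fun a : G × G => a.1 * a.2) continuous_mul).curry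
  have := (continuous_const (y := ξ)).compMeasurePreservingLp g.continuous
    (fun x => measurePreserving_mul_left μ x) (by norm_num)
  exact this

end RUB

theorem r_UB : S_UB G μ := by
  refine ⟨RUB.U_mul, RUB.U_one, RUB.U_cont, ?_⟩
  intro x ξ η
  have h1 : U μ x (U μ x⁻¹ η) = η := by
    rw [← RUB.U_mul, inv_mul_cancel, RUB.U_one]
  calc ⟪η, U μ x ξ⟫_ℂ = ⟪U μ x (U μ x⁻¹ η), U μ x ξ⟫_ℂ := by rw [h1]
    _ = ⟪U μ x⁻¹ η, ξ⟫_ℂ := (U μ x).inner_map_map _ _

end

end Pool.Agent.W660.FG

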