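import Pool.Agent.W660.FG.Stm

/-!
# Approximate identities
-/

namespace Pool.Agent.W660.FG

open Pool.Agent.W660.FL
open MeasureTheory Complex Filter Topology
open scoped ComplexConjugate InnerProductSpace Manifold ContDiff

noncomputable section

namespace TAPPR

theorem uc (G : Type) [Group G] [TopologicalSpace G] [IsTopologicalGroup G] (w : G → ℂ)
    (hw : Cc w) (ε : ℝ) (hε : 0 < ε) :
    ∃ V ∈ 𝓝 (1 : G), ∀ z ∈ V, ∀ x, ‖w (z⁻¹ * x) - w x‖ ≤ ε := by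
  let _ : UniformSpace G := IsTopologicalGroup.rightUniformSpace G
  have h1 : UniformContinuous w := HasCompactSupport.uniformContinuous_of_continuous hw.2 hw.1
  have h2 := h1 (Metric.dist_mem_uniformity hε)
  have h3 : uniformity G = Filter.comap (fun p : G × G => p.2 * p.1⁻¹) (𝓝 (1 : G)) := rfl
  rw [h3] at h2
  obtain ⟨V, hV, hV2⟩ := Filter.mem_comap.1 h2
  refine ⟨V⁻¹, inv_mem_nhds_one G hV, fun z hz x => ?_⟩
  have h4 : (x, z⁻¹ * x) ∈ (fun p : G × G => p.2 * p.1⁻¹) ⁻¹' V := by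
    show z⁻¹ * x * x⁻¹ ∈ V
    rw [mul_inv_cancel_right]
    exact Set.mem_inv.1 hz
  have h5 : dist (w x) (w (z⁻¹ * x)) < ε := hV2 h4
  rw [dist_comm, dist_eq_norm] at h5
  exact h5.le

theorem avg {X : Type} [MeasurableSpace X] (μ : Measure X) {E : Type} [NormedAddCommGroup E]
    [NormedSpace ℂ E] [CompleteSpace E] (f : X → ℂ) (h : X → E) (h0 : E) (ε : ℝ) (V : Set X)
    (hf : Integrable f μ) (hf1 : ∀ x, (f x).im = 0 ∧ 0 ≤ (f x).re) (hf2 : ∫ x, f x ∂μ = 1)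
    (hfV : ∀ x, x ∉ V → f x = 0) (hfh : Integrable (fun x => f x • h x) μ)
    (hV : ∀ x ∈ V, ‖h x - h0‖ ≤ ε) : ‖(∫ x, f x • h x ∂μ) - h0‖ ≤ ε := by
  have e1 : (∫ x, f x • h x ∂μ) - h0 = ∫ x, f x • (h x - h0) ∂μ := by
    have e2 : ∫ x, f x • h0 ∂μ = h0 := by
      rw [integral_smul_const, hf2, one_smul]
    nth_rewrite 1 [← e2]
    rw [← integral_sub hfh (hf.smul_const h0)]
    refine integral_congr_ae (Filter.Eventually.of_forall fun x => ?_)
    simp only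
    rw [smul_sub]
  have e3 : ∀ x, ‖f x‖ = (f x).re := by
    intro x
    have : f x = ((f x).re : ℂ) := by
      refine Complex.ext ?_ ?_
      · rw [Complex.ofReal_re]
      · rw [Complex.ofReal_im, (hf1 x).1]
    rw [this, Complex.norm_real, Complex.ofReal_re, Real.norm_eq_abs, abs_of_nonneg (hf1 x).2]
  have e4 : ∫ x, ‖f x‖ ∂μ = 1 := by
    have : ∫ x, ‖f x‖ ∂μ = ∫ x, (f x).re ∂μ :=
      integral_congr_ae (Filter.Eventually.of_forall fun x => e3 x)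
    rw [this]
    have h5 : ∫ x, (f x).re ∂μ = (∫ x, f x ∂μ).re := integral_re hf
    rw [h5, hf2, Complex.one_re]
  rw [e1]
  calc ‖∫ x, f x • (h x - h0) ∂μ‖ ≤ ∫ x, ‖f x‖ * ε ∂μ := by
        refine norm_integral_le_of_norm_le (hf.norm.mul_const ε)
          (Filter.Eventually.of_forall fun x => ?_)
        by_cases hx : x ∈ V
        · rw [norm_smul]
          exact mul_le_mul_of_nonneg_left (hV x hx) (norm_nonneg _)
        · rw [hfV x hx, zero_smul, norm_zero, norm_zero, zero_mul]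
    _ = ε := by rw [integral_mul_const, e4, one_mul]

end TAPPR

variable (G : Type) [Group G] [TopologicalSpace G] [IsTopologicalGroup G] [T2Space G]
  [LocallyCompactSpace G] [MeasurableSpace G] [BorelSpace G]
  (μ : Measure G) [μ.IsHaarMeasure]
  (Q : Type) [Group Q] [TopologicalSpace Q] [IsTopologicalGroup Q] [T2Space Q]

theorem t3_APPR : S_UB G μ → S_CC G μ → S_CONVL G μ → S3_HM G → S3_AV G μ → S3_V G μ Q →
    S3_APPR G μ Q := by
  intro hU hC hL _ _ hVQ D w hw hinv ε hε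
  obtain ⟨V1, hV1, hV1'⟩ := TAPPR.uc G w hw ε hε
  have hc : Continuous fun z : G => ‖U μ z⁻¹ (cl μ w) - cl μ w‖ :=
    (((hU.2.2.1 (cl μ w)).comp continuous_inv).sub continuous_const).norm
  have h0 : ‖U μ (1 : G)⁻¹ (cl μ w) - cl μ w‖ < ε := by
    rw [inv_one, hU.2.1, sub_self, norm_zero]
    exact hε
  have hV2 : {z : G | ‖U μ z⁻¹ (cl μ w) - cl μ w‖ < ε} ∈ 𝓝 (1 : G) :=
    (isOpen_Iio.preimage hc).mem_nhds h0
  have hV12 : V1 ∩ {z : G | ‖U μ z⁻¹ (cl μ w) - cl μ w‖ < ε} ∈ 𝓝 (1 : G) :=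
    Filter.inter_mem hV1 hV2
  have hpre : (Subtype.val : D.H → G) ⁻¹'
      (V1 ∩ {z : G | ‖U μ z⁻¹ (cl μ w) - cl μ w‖ < ε}) ∈ 𝓝 (1 : D.H) := by
    refine continuous_subtype_val.continuousAt.preimage_mem_nhds ?_
    exact hV12
  have himg : D.π '' ((Subtype.val : D.H → G) ⁻¹'
      (V1 ∩ {z : G | ‖U μ z⁻¹ (cl μ w) - cl μ w‖ < ε})) ∈ 𝓝 (1 : Q) := by
    have := D.opn.image_mem_nhds hpre
    rwa [map_one] at this
  refine ⟨_, himg, ?_⟩
  intro f hf hf1 hf2 hfV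
  have hfi : Integrable f μ := (hC.1 f hf).2
  -- decomposition
  have hdec : ∀ x, f x ≠ 0 → ∃ v ∈ V1 ∩ {z : G | ‖U μ z⁻¹ (cl μ w) - cl μ w‖ < ε},
      ∃ n ∈ D.N, x⁻¹ = n * v⁻¹ := by
    intro x hx
    obtain ⟨h, hq⟩ := hfV x hx
    obtain ⟨v, hv, hvq⟩ := hq
    have hk : (⟨x, h⟩ : D.H)⁻¹ * v ∈ D.π.ker := by
      rw [MonoidHom.mem_ker, map_mul, map_inv, hvq, inv_mul_cancel]
    refine ⟨v, hv, x⁻¹ * (v : G), ?_, by group⟩
    exact Subgroup.mem_map_of_mem D.H.subtype hk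
  have hWV : ∀ x, x ∉ {x : G | ∃ v ∈ V1 ∩ {z : G | ‖U μ z⁻¹ (cl μ w) - cl μ w‖ < ε},
      ∃ n ∈ D.N, x⁻¹ = n * v⁻¹} → f x = 0 := by
    intro x hx
    by_contra hne
    exact hx (hdec x hne)
  refine ⟨fun x => ?_, ?_⟩
  · have hcc : Cc (fun z : G => f z * w (z⁻¹ * x)) := by
      refine ⟨hf.1.mul (hw.1.comp (continuous_inv.mul continuous_const)), ?_⟩
      exact HasCompactSupport.mul_right hf.2
    have hi := (hC.1 _ hcc).2
    refine TAPPR.avg μ f (fun z => w (z⁻¹ * x)) (w x) ε _ hfi hf1 hf2 hWV hi ?_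
    rintro z ⟨v, hv, n, hn, hz⟩
    have e : w (z⁻¹ * x) = w (v⁻¹ * x) := by
      rw [hz, mul_assoc, hinv n hn]
    rw [e]
    exact hV1' v hv.1 x
  · have h3 := hL f w hf hw
    rw [h3.2.2]
    refine TAPPR.avg μ f (fun z => U μ z⁻¹ (cl μ w)) (cl μ w) ε _ hfi hf1 hf2 hWV h3.2.1 ?_
    rintro z ⟨v, hv, n, hn, hz⟩
    have e : U μ z⁻¹ (cl μ w) = U μ v⁻¹ (cl μ w) := by
      have e1 : U μ n (cl μ w) = cl μ w := by
        rw [(hC.2.2.2.1 w hw n).2.2]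
        congr 1
        funext y
        exact hinv n hn y
      rw [hz, hU.1, e1]
    rw [e]
    exact le_of_lt hv.2

end

end Pool.Agent.W660.FG
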