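import Pool.Agent.W660.FG.Stm

/-!
# FG-AV: averages over compact subgroups
-/

namespace Pool.Agent.W660.FG

open Pool.Agent.W660.FL
open MeasureTheory Complex Filter Topology
open scoped ComplexConjugate InnerProductSpace Manifold ContDiff

noncomputable section

namespace TAV

open scoped Pointwise

set_option linter.unusedSectionVars false
set_option linter.style.haveILetI false

section

variable {G : Type} [Group G] [TopologicalSpace G] [IsTopologicalGroup G] [T2Space G]
  [LocallyCompactSpace G] [MeasurableSpace G] [BorelSpace G]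
  {μ : Measure G} [μ.IsHaarMeasure]

theorem ae_mem {L : Subgroup G} {m : Measure G} (hm : IsAv L m) : ∀ᵐ l ∂m, l ∈ (L : Set G) := by
  have := hm.supp
  rwa [← mem_ae_iff] at this

theorem U_cont (h : S_UB G μ) (ξ : HH μ) : Continuous fun x => U μ x ξ := h.2.2.1 ξ

theorem U_mul (h : S_UB G μ) (x y : G) (ξ : HH μ) : U μ (x * y) ξ = U μ y (U μ x ξ) := h.1 x y ξ

theorem integrable_U (h : S_UB G μ) {L : Subgroup G} (hL : IsCompact (L : Set G)) {m : Measure G}
    (hm : IsAv L m) (ξ : HH μ) : Integrable (fun l => U μ l ξ) m := by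
  haveI := hm.prob
  have h1 : m.restrict (L : Set G) = m := Measure.restrict_eq_self_of_ae_mem (ae_mem hm)
  have h2 : AEStronglyMeasurable (fun l => U μ l ξ) (m.restrict (L : Set G)) :=
    (U_cont h ξ).continuousOn.aestronglyMeasurable_of_isCompact hL hL.isClosed.measurableSet
  rw [h1] at h2
  apply Integrable.of_bound h2 ‖ξ‖
  apply Filter.Eventually.of_forall
  intro l
  exact ((U μ l).norm_map ξ).le

theorem integral_right {L : Subgroup G} {m : Measure G} (hm : IsAv L m) {F : Type}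
    [NormedAddCommGroup F] [NormedSpace ℝ F] (g : G → F) (l0 : G) (hl0 : l0 ∈ L) :
    ∫ l, g (l * l0) ∂m = ∫ l, g l ∂m := by
  have h1 := hm.right l0 hl0
  have h2 := (Homeomorph.mulRight l0).measurableEmbedding.integral_map (μ := m) g
  have h3 : (⇑(Homeomorph.mulRight l0) : G → G) = fun x => x * l0 := rfl
  rw [h3, h1] at h2
  exact h2.symm

theorem avH_HN (h : S_UB G μ) {L : Subgroup G} {m : Measure G}
    (hm : IsAv L m) (ξ : HH μ) : avH μ m ξ ∈ HN μ L := by
  intro l0 hl0
  unfold avH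
  rw [← LinearIsometry.integral_comp_comm (U μ l0) (fun l => U μ l ξ)]
  have h1 : ∀ l : G, U μ l0 (U μ l ξ) = (fun l => U μ l ξ) (l * l0) := fun l => (U_mul h l l0 ξ).symm
  rw [integral_congr_ae (Filter.Eventually.of_forall h1)]
  exact integral_right hm (fun l => U μ l ξ) l0 hl0

theorem avH_norm {L : Subgroup G} {m : Measure G}
    (hm : IsAv L m) (ξ : HH μ) : ‖avH μ m ξ‖ ≤ ‖ξ‖ := by
  haveI := hm.prob
  have h1 : ‖∫ l, U μ l ξ ∂m‖ ≤ ‖ξ‖ * m.real Set.univ := by
    apply norm_integral_le_of_norm_le_const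
    apply Filter.Eventually.of_forall
    intro l
    exact ((U μ l).norm_map ξ).le
  rw [probReal_univ, mul_one] at h1
  exact h1

theorem avH_fix {L : Subgroup G} {m : Measure G}
    (hm : IsAv L m) (ξ : HH μ) (hξ : ξ ∈ HN μ L) : avH μ m ξ = ξ := by
  haveI := hm.prob
  unfold avH
  have h1 : ∀ᵐ l ∂m, U μ l ξ = (fun _ => ξ) l := by
    filter_upwards [ae_mem hm] with l hl
    exact hξ l hl
  rw [integral_congr_ae h1, integral_const, probReal_univ, one_smul]

theorem av_mc (h : S_UB G μ) {L : Subgroup G} (hL : IsCompact (L : Set G)) {m : Measure G}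
    (hm : IsAv L m) (ξ η : HH μ) (x : G) : av m (mc μ ξ η) x = mc μ (avH μ m ξ) η x := by
  unfold av mc avH
  rw [← LinearIsometry.integral_comp_comm (U μ x) (fun l => U μ l ξ)]
  have h1 : Integrable (fun l => U μ x (U μ l ξ)) m :=
    (U μ x).toContinuousLinearMap.integrable_comp (integrable_U h hL hm ξ)
  have h2 := (innerSL ℂ η).integral_comp_comm h1
  simp only [innerSL_apply_apply] at h2
  rw [← h2]
  apply integral_congr_ae
  apply Filter.Eventually.of_forall
  intro l
  show ⟪η, U μ (l * x) ξ⟫_ℂ = ⟪η, U μ x (U μ l ξ)⟫_ℂ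
  rw [U_mul h]

theorem int_u {m : Measure G} [IsProbabilityMeasure m] (u : G → ℂ) (hu : Cc u) (x : G) :
    Integrable (fun l => u (l * x)) m := by
  obtain ⟨C, hC⟩ := hu.1.bounded_above_of_compact_support hu.2
  apply Integrable.of_bound (C := C)
  · exact (hu.1.comp (by fun_prop : Continuous fun l : G => l * x)).aestronglyMeasurable
  · apply Filter.Eventually.of_forall
    intro l; exact hC _

theorem av_cont {L : Subgroup G} (hL : IsCompact (L : Set G)) {m : Measure G}
    (hm : IsAv L m) (u : G → ℂ) (hu : Cc u) : Continuous (av m u) := by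
  haveI := hm.prob
  haveI : CompactSpace (L : Set G) := isCompact_iff_compactSpace.mp hL
  have hc : Continuous (fun p : G × (L : Set G) => u (p.2 * p.1)) :=
    hu.1.comp (by fun_prop)
  let F : C(G, C((L : Set G), ℂ)) := ContinuousMap.curry ⟨_, hc⟩
  rw [continuous_iff_continuousAt]
  intro x0
  rw [ContinuousAt, Metric.tendsto_nhds]
  intro ε hε
  have h1 := (Metric.tendsto_nhds.mp (F.continuous.tendsto x0)) (ε / 2) (by linarith)
  filter_upwards [h1] with x hx
  have h2 : ∀ l ∈ (L : Set G), ‖u (l * x) - u (l * x0)‖ ≤ ε / 2 := by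
    intro l hl
    have h3 := ContinuousMap.dist_apply_le_dist (f := F x) (g := F x0) ⟨l, hl⟩
    rw [dist_eq_norm] at h3
    exact h3.trans hx.le
  rw [dist_eq_norm]
  unfold av
  rw [← integral_sub (int_u u hu x) (int_u u hu x0)]
  have h4 : ‖∫ l, (u (l * x) - u (l * x0)) ∂m‖ ≤ ε / 2 * m.real Set.univ := by
    apply norm_integral_le_of_norm_le_const
    filter_upwards [ae_mem hm] with l hl
    exact h2 l hl
  rw [probReal_univ, mul_one] at h4
  linarith

theorem av_supp {L : Subgroup G} (hL : IsCompact (L : Set G)) {m : Measure G}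
    (hm : IsAv L m) (u : G → ℂ) (hu : Cc u) : HasCompactSupport (av m u) := by
  have hK : IsCompact ((L : Set G) * tsupport u) := hL.mul hu.2
  apply HasCompactSupport.intro hK
  intro x hx
  unfold av
  have h1 : ∀ᵐ l ∂m, u (l * x) = (fun _ => (0 : ℂ)) l := by
    filter_upwards [ae_mem hm] with l hl
    by_contra h
    apply hx
    have h2 : l * x ∈ tsupport u := subset_tsupport _ h
    refine ⟨l⁻¹, L.inv_mem hl, l * x, h2, ?_⟩
    simp
  rw [integral_congr_ae h1]
  simp

theorem av_cl (hCC : S_CC G μ) (hUB : S_UB G μ) {L : Subgroup G} (hL : IsCompact (L : Set G))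
    {m : Measure G} (hm : IsAv L m) (u : G → ℂ) (hu : Cc u) :
    cl μ (av m u) = avH μ m (cl μ u) := by
  haveI := hm.prob
  have hav : Cc (av m u) := ⟨av_cont hL hm u hu, av_supp hL hm u hu⟩
  -- orthogonality
  have key : ∀ v : G → ℂ, Cc v → ⟪cl μ v, cl μ (av m u) - avH μ m (cl μ u)⟫_ℂ = 0 := by
    intro v hv
    rw [inner_sub_right, hCC.2.2.2.2.1 (av m u) v hav hv]
    have h1 : ⟪cl μ v, avH μ m (cl μ u)⟫_ℂ = ∫ l, ∫ y, conj (v y) * u (l * y) ∂μ ∂m := by
      have h2 := (innerSL ℂ (cl μ v)).integral_comp_comm (integrable_U hUB hL hm (cl μ u))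
      simp only [innerSL_apply_apply] at h2
      unfold avH
      rw [← h2]
      apply integral_congr_ae
      apply Filter.Eventually.of_forall
      intro l
      have h3 := hCC.2.2.2.1 u hu l
      show ⟪cl μ v, U μ l (cl μ u)⟫_ℂ = ∫ y, conj (v y) * u (l * y) ∂μ
      rw [h3.2.2, hCC.2.2.2.2.1 _ v h3.1 hv]
    rw [h1]
    have hcont : Continuous (Function.uncurry fun (l y : G) => conj (v y) * u (l * y)) := by
      have hv1 := hv.1
      have hu1 := hu.1
      show Continuous fun p : G × G => conj (v p.2) * u (p.1 * p.2)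
      fun_prop
    have hsupp : HasCompactSupport (Function.uncurry fun (l y : G) => conj (v y) * u (l * y)) := by
      have hK : IsCompact ((tsupport u * (tsupport v)⁻¹) ×ˢ tsupport v) :=
        (hu.2.mul hv.2.inv).prod hv.2
      apply HasCompactSupport.intro hK
      intro p hp
      by_contra hne
      apply hp
      have h4 : conj (v p.2) * u (p.1 * p.2) ≠ 0 := hne
      have h5 : v p.2 ≠ 0 := by
        intro h; apply h4; rw [h]; simp
      have h6 : u (p.1 * p.2) ≠ 0 := by
        intro h; apply h4; rw [h]; simp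
      refine ⟨⟨p.1 * p.2, subset_tsupport _ h6, p.2⁻¹, ?_, by simp⟩, subset_tsupport _ h5⟩
      exact Set.inv_mem_inv.mpr (subset_tsupport _ h5)
    rw [integral_integral_swap_of_hasCompactSupport hcont hsupp]
    rw [sub_eq_zero]
    apply integral_congr_ae
    apply Filter.Eventually.of_forall
    intro y
    show conj (v y) * av m u y = ∫ l, conj (v y) * u (l * y) ∂m
    rw [integral_const_mul]
    rfl
  -- density
  rw [← sub_eq_zero]
  generalize cl μ (av m u) - avH μ m (cl μ u) = w at key ⊢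
  by_contra hne
  have hpos : 0 < ‖w‖ := norm_pos_iff.mpr hne
  obtain ⟨v, hv, hvw⟩ := hCC.2.2.2.2.2.2 w (‖w‖ / 2) (by linarith)
  have h1 : ⟪w, w⟫_ℂ = ⟪w - cl μ v, w⟫_ℂ := by
    rw [inner_sub_left, key v hv, sub_zero]
  have h2 : ‖⟪w, w⟫_ℂ‖ ≤ ‖w‖ / 2 * ‖w‖ := by
    rw [h1]
    exact (norm_inner_le_norm _ _).trans (mul_le_mul_of_nonneg_right hvw (norm_nonneg _))
  rw [inner_self_eq_norm_sq_to_K] at h2
  have h3 : ‖((‖w‖ : ℂ)) ^ 2‖ = ‖w‖ * ‖w‖ := by
    rw [norm_pow, Complex.norm_real, norm_norm, sq]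
  have h4 : ‖w‖ * ‖w‖ ≤ ‖w‖ / 2 * ‖w‖ := by
    rw [← h3]; exact h2
  nlinarith

theorem inv_iff (hCC : S_CC G μ) {L : Subgroup G} (u : G → ℂ) (hu : Cc u) :
    InvL L u ↔ cl μ u ∈ HN μ L := by
  constructor
  · intro h l hl
    have h1 := hCC.2.2.2.1 u hu l
    rw [h1.2.2]
    congr 1
    funext y
    exact h l hl y
  · intro h l hl x
    have h1 := hCC.2.2.2.1 u hu l
    have h2 : U μ l (cl μ u) = cl μ u := h l hl
    rw [h1.2.2] at h2
    have h3 := hCC.2.2.2.2.2.1 _ u h1.1 hu h2
    exact congrFun h3 x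

end

end TAV

open TAV in
theorem t3_AV {G : Type} [Group G] [TopologicalSpace G] [IsTopologicalGroup G] [T2Space G]
    [LocallyCompactSpace G] [MeasurableSpace G] [BorelSpace G]
    (μ : Measure G) [μ.IsHaarMeasure] : S_UB G μ → S_CC G μ → S3_AV G μ := by
  intro hUB hCC L hL m hm
  refine ⟨fun ξ => ⟨integrable_U hUB hL hm ξ, avH_HN hUB hm ξ, avH_norm hm ξ⟩,
    fun ξ hξ => avH_fix hm ξ hξ, fun ξ η x => av_mc hUB hL hm ξ η x, fun u hu =>
    ⟨⟨av_cont hL hm u hu, av_supp hL hm u hu⟩, av_cl hCC hUB hL hm u hu⟩, fun u hu =>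
    inv_iff hCC u hu⟩

end

end Pool.Agent.W660.FG
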