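import Pool.Agent.W660.FG.Stm

/-!
Averages of elements of `A` (project FG, problem MP_2da52b_an), by helper359 after helper660.
-/

namespace Pool.Agent.W660.FG

open Pool.Agent.W660.FL
open MeasureTheory Complex Filter Topology
open scoped ComplexConjugate InnerProductSpace Manifold ContDiff

noncomputable section

section A

variable (G : Type) [Group G] [TopologicalSpace G] [IsTopologicalGroup G] [T2Space G]
  [LocallyCompactSpace G] [MeasurableSpace G] [BorelSpace G]
  (μ : Measure G) [μ.IsHaarMeasure]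

namespace TAVA

variable {G μ}

omit [T2Space G] [LocallyCompactSpace G] in
theorem mc_add_left (ξ ξ' η : HH μ) : mc μ (ξ + ξ') η = mc μ ξ η + mc μ ξ' η := by
  funext x
  simp only [mc, map_add, inner_add_right, Pi.add_apply]

omit [T2Space G] [LocallyCompactSpace G] in
theorem mc_smul_left (c : ℂ) (ξ η : HH μ) : mc μ (c • ξ) η = c • mc μ ξ η := by
  funext x
  simp only [mc, map_smul, inner_smul_right, Pi.smul_apply, smul_eq_mul]

omit [T2Space G] [LocallyCompactSpace G] in
theorem mc_sub_left (ξ ξ' η : HH μ) : mc μ (ξ - ξ') η = mc μ ξ η - mc μ ξ' η := by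
  funext x
  simp only [mc, map_sub, inner_sub_right, Pi.sub_apply]

omit [IsTopologicalGroup G] [T2Space G] [LocallyCompactSpace G] [BorelSpace G]
  [μ.IsHaarMeasure] in
theorem inFA_mono {c c' : ℝ} (h : c ≤ c') {u : G → ℂ} (hu : InFA μ c u) : InFA μ c' u := by
  obtain ⟨ξ, η, h1, h2, h3, h4⟩ := hu
  exact ⟨ξ, η, h1, h2, h3.trans h, h4⟩

omit [IsTopologicalGroup G] [T2Space G] [LocallyCompactSpace G] [BorelSpace G]
  [μ.IsHaarMeasure] in
theorem zero_mem {A : Set (G → ℂ)} (hA : IsAlg μ A) : (0 : G → ℂ) ∈ A := by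
  obtain ⟨u, hu, -⟩ := hA.nz 1
  have := hA.smul 0 u hu
  rwa [zero_smul] at this

/-- integrals of functions with values in a closed subspace -/
theorem integral_mem {X H : Type} [MeasurableSpace X] {ν : Measure X} [NormedAddCommGroup H]
    [InnerProductSpace ℂ H] [CompleteSpace H] (K : Submodule ℂ H) (hK : IsClosed (K : Set H))
    (f : X → H) (hf : Integrable f ν) (h : ∀ x, f x ∈ K) : ∫ x, f x ∂ν ∈ K := by
  have h1 : Kᗮᗮ = K := by
    rw [Submodule.orthogonal_orthogonal_eq_closure, hK.submodule_topologicalClosure_eq]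
  rw [← h1, Submodule.mem_orthogonal]
  intro v hv
  rw [← integral_inner hf v]
  have h2 : ∀ x, ⟪v, f x⟫_ℂ = 0 := fun x => by
    rw [Submodule.mem_orthogonal'] at hv
    exact hv (f x) (h x)
  simp [h2]

/-- a set of vectors is closed if `A` is -/
theorem closed_of {A : Set (G → ℂ)} (hA : IsAlg μ A) (T : HH μ → G → ℂ) (hT : ∀ ξ, T ξ ∈ FA μ)
    (c : ℝ) (hc : 0 ≤ c) (hs : ∀ ξ ξ', InFA μ (‖ξ - ξ'‖ * c) (T ξ - T ξ')) :
    IsClosed {ξ : HH μ | T ξ ∈ A} := by
  rw [← closure_subset_iff_isClosed]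
  intro ξ hξ
  refine hA.closed _ (hT ξ) ?_
  intro ε hε
  rw [Metric.mem_closure_iff] at hξ
  obtain ⟨ξ', h1, h2⟩ := hξ (ε / (c + 1)) (div_pos hε (by linarith))
  refine ⟨T ξ', h1, inFA_mono ?_ (hs ξ ξ')⟩
  rw [dist_eq_norm] at h2
  rw [lt_div_iff₀ (by linarith)] at h2
  nlinarith [norm_nonneg (ξ - ξ')]

end TAVA

open TAVA in
theorem t3_AVA : S_UB G μ → S_FAC G μ → S3_AVA G μ := by
  intro hU hF A hA L hL m hm u hu
  have hprob := hm.prob
  obtain ⟨c, hc⟩ := hA.sub hu
  obtain ⟨ξ, η, -, huv⟩ := hF.2 c u hc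
  have hmem : ∀ ξ η : HH μ, mc μ ξ η ∈ FA μ := fun ξ η => ⟨_, hF.1 ξ η⟩
  -- integrability
  have hres : m.restrict (L : Set G) = m := by
    refine Measure.restrict_eq_self_of_ae_mem ?_
    rw [ae_iff]
    exact hm.supp
  have hint : Integrable (fun l => U μ l ξ) m := by
    have h1 : IntegrableOn (fun l => U μ l ξ) (L : Set G) m :=
      (hU.2.2.1 ξ).continuousOn.integrableOn_compact hL
    rw [IntegrableOn, hres] at h1
    exact h1
  -- the translates
  have htr : ∀ l : G, mc μ (U μ l ξ) η = fun x => u (l * x) := by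
    intro l
    funext x
    rw [huv (l * x)]
    show ⟪η, U μ x (U μ l ξ)⟫_ℂ = ⟪η, U μ (l * x) ξ⟫_ℂ
    rw [hU.1]
  -- the average
  have hav : av m u = mc μ (∫ l, U μ l ξ ∂m) η := by
    funext x
    have e1 : U μ x (∫ l, U μ l ξ ∂m) = ∫ l, U μ x (U μ l ξ) ∂m := by
      have := (U μ x).toContinuousLinearMap.integral_comp_comm hint
      exact this.symm
    show ∫ l, u (l * x) ∂m = ⟪η, U μ x (∫ l, U μ l ξ ∂m)⟫_ℂ
    rw [e1, ← integral_inner]
    · refine integral_congr_ae (Eventually.of_forall fun l => ?_)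
      show u (l * x) = ⟪η, U μ x (U μ l ξ)⟫_ℂ
      rw [huv (l * x), ← hU.1]
      rfl
    · exact (U μ x).toContinuousLinearMap.integrable_comp hint
  rw [hav]
  let K : Submodule ℂ (HH μ) :=
    { carrier := {ξ | mc μ ξ η ∈ A}
      add_mem' := fun {a b} ha hb => by
        show mc μ (a + b) η ∈ A
        rw [mc_add_left]
        exact hA.add _ ha _ hb
      zero_mem' := by
        show mc μ 0 η ∈ A
        have := mc_smul_left (0 : ℂ) (0 : HH μ) η
        rw [zero_smul, zero_smul] at this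
        rw [this]
        exact TAVA.zero_mem hA
      smul_mem' := fun c a ha => by
        show mc μ (c • a) η ∈ A
        rw [mc_smul_left]
        exact hA.smul c _ ha }
  have hK : IsClosed (K : Set (HH μ)) :=
    closed_of hA (fun ξ => mc μ ξ η) (fun ξ => hmem ξ η) ‖η‖ (norm_nonneg _) fun ξ ξ' => by
      show InFA μ (‖ξ - ξ'‖ * ‖η‖) (mc μ ξ η - mc μ ξ' η)
      rw [← mc_sub_left]
      exact hF.1 _ _
  refine TAVA.integral_mem K hK _ hint fun l => ?_
  show mc μ (U μ l ξ) η ∈ A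
  rw [htr l]
  exact hA.left l u hu

end A

end

end Pool.Agent.W660.FG
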