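import Pool.Agent.W660.FG.Stm

/-!
# Averages over small subgroups
-/

namespace Pool.Agent.W660.FG

open Pool.Agent.W660.FL
open MeasureTheory Complex Filter Topology
open scoped ComplexConjugate InnerProductSpace Manifold ContDiff

noncomputable section

namespace TAVS

theorem uc (G : Type) [Group G] [TopologicalSpace G] [IsTopologicalGroup G] (w : G → ℂ)
    (hw : Cc w) (ε : ℝ) (hε : 0 < ε) :
    ∃ V ∈ 𝓝 (1 : G), ∀ z ∈ V, ∀ x, ‖w (z * x) - w x‖ ≤ ε := by
  let _ : UniformSpace G := IsTopologicalGroup.rightUniformSpace G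
  have h1 : UniformContinuous w := HasCompactSupport.uniformContinuous_of_continuous hw.2 hw.1
  have h2 := h1 (Metric.dist_mem_uniformity hε)
  have h3 : uniformity G = Filter.comap (fun p : G × G => p.2 * p.1⁻¹) (𝓝 (1 : G)) := rfl
  rw [h3] at h2
  obtain ⟨V, hV, hV2⟩ := Filter.mem_comap.1 h2
  refine ⟨V, hV, fun z hz x => ?_⟩
  have h4 : (x, z * x) ∈ (fun p : G × G => p.2 * p.1⁻¹) ⁻¹' V := by
    show z * x * x⁻¹ ∈ V
    rw [mul_inv_cancel_right]
    exact hz
  have h5 : dist (w x) (w (z * x)) < ε := hV2 h4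
  rw [dist_comm, dist_eq_norm] at h5
  exact h5.le

theorem bd {G : Type} [Group G] [TopologicalSpace G] [IsTopologicalGroup G] [T2Space G]
    [MeasurableSpace G] [BorelSpace G] {F : Type} [NormedAddCommGroup F] [NormedSpace ℝ F]
    [CompleteSpace F] (L : Subgroup G) (m : Measure G) (hL : IsCompact (L : Set G))
    (hm : IsAv L m) (f : G → F) (hf : Continuous f) (y : F) (ε : ℝ)
    (h : ∀ l ∈ L, ‖f l - y‖ ≤ ε) : ‖(∫ l, f l ∂m) - y‖ ≤ ε := by
  have _ := hm.prob
  have hr : m.restrict (L : Set G) = m :=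
    Measure.restrict_eq_self_of_ae_mem (by
      rw [ae_iff]
      exact hm.supp)
  have hi : Integrable f m := by
    have h1 : IntegrableOn f (L : Set G) m :=
      hf.continuousOn.integrableOn_compact' hL hL.isClosed.measurableSet
    rw [IntegrableOn, hr] at h1
    exact h1
  have h2 : (∫ l, f l ∂m) - y = ∫ l, (f l - y) ∂m := by
    rw [integral_sub hi (integrable_const y), integral_const, probReal_univ, one_smul]
  have h3 : ∀ᵐ l ∂m, ‖f l - y‖ ≤ ε := by
    have h4 : ∀ᵐ l ∂m, l ∈ (L : Set G) := by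
      rw [ae_iff]
      exact hm.supp
    filter_upwards [h4] with l hl
    exact h l hl
  rw [h2]
  have h5 := norm_integral_le_of_norm_le_const h3
  rwa [probReal_univ, mul_one] at h5

end TAVS

variable (G : Type) [Group G] [TopologicalSpace G] [IsTopologicalGroup G] [T2Space G]
  [LocallyCompactSpace G] [MeasurableSpace G] [BorelSpace G]
  (μ : Measure G) [μ.IsHaarMeasure]

theorem t3_AVS : S_UB G μ → S3_AVS G μ := by
  intro hU
  refine ⟨?_, ?_⟩
  · intro ξ ε hε
    have hc : Continuous fun z : G => ‖U μ z ξ - ξ‖ :=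
      ((hU.2.2.1 ξ).sub continuous_const).norm
    have h0 : ‖U μ (1 : G) ξ - ξ‖ < ε := by
      rw [hU.2.1, sub_self, norm_zero]
      exact hε
    refine ⟨{z : G | ‖U μ z ξ - ξ‖ < ε}, (isOpen_Iio.preimage hc).mem_nhds h0, ?_⟩
    intro L m hL hm hLV
    exact TAVS.bd L m hL hm (fun l => U μ l ξ) (hU.2.2.1 ξ) ξ ε (fun l hl => le_of_lt (hLV hl))
  · intro u ε hu hv hε
    obtain ⟨v, hvc, huv⟩ := hv (ε / 3) (by linarith)
    obtain ⟨V, hV, hV2⟩ := TAVS.uc G v hvc (ε / 3) (by linarith)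
    refine ⟨V, hV, ?_⟩
    intro L m hL hm hLV x
    refine TAVS.bd L m hL hm (fun l => u (l * x)) (hu.comp (continuous_mul_const x)) (u x) ε ?_
    intro l hl
    have h1 := huv (l * x)
    have h2 := hV2 l (hLV hl) x
    have h3 := huv x
    have h4 : u (l * x) - u x = (u (l * x) - v (l * x)) + (v (l * x) - v x) - (u x - v x) := by
      ring
    calc ‖u (l * x) - u x‖ = ‖(u (l * x) - v (l * x)) + (v (l * x) - v x) - (u x - v x)‖ := by
          rw [h4]
      _ ≤ ‖(u (l * x) - v (l * x)) + (v (l * x) - v x)‖ + ‖u x - v x‖ := norm_sub_le _ _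
      _ ≤ ‖u (l * x) - v (l * x)‖ + ‖v (l * x) - v x‖ + ‖u x - v x‖ := by
          gcongr
          exact norm_add_le _ _
      _ ≤ ε := by linarith

end

end Pool.Agent.W660.FG
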