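import Pool.Agent.W660.FG.Stm

/-!
Part CHI of project FG: a one-parameter subgroup along which `A` is analytic is trivial.
-/

namespace Pool.Agent.W660.FG

open Pool.Agent.W660.FL
open MeasureTheory Complex Filter Topology
open scoped ComplexConjugate InnerProductSpace Manifold ContDiff

noncomputable section

namespace TCHI

lemma ker_norm (a : ℂ) (ha : a.im < 0) (r : ℝ) :
    ‖((r : ℂ) - a)⁻¹ ^ 2‖ = Real.pi / (-a.im) * Po (-a.im) (r - a.re) := by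
  have h1 : ‖(r : ℂ) - a‖ ^ 2 = (-a.im) ^ 2 + (r - a.re) ^ 2 := by
    rw [Complex.sq_norm, Complex.normSq_apply]
    simp
    ring
  rw [norm_pow, norm_inv, inv_pow, h1]
  unfold Po
  generalize hse : -a.im = s
  have hs : 0 < s := by linarith
  have h2 : s ^ 2 + (r - a.re) ^ 2 ≠ 0 := by positivity
  have hp : Real.pi ≠ 0 := Real.pi_ne_zero
  have hs' : s ≠ 0 := hs.ne'
  field_simp

lemma ker_int (hB : S_BDY) {a : ℂ} (ha : a.im < 0) :
    Integrable (fun r : ℝ => ((r : ℂ) - a)⁻¹ ^ 2) := by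
  have h1 := (hB.1 (-a.im) (by linarith)).2.1
  have h2 : Integrable (fun r : ℝ => Po (-a.im) (r - a.re)) := h1.comp_sub_right a.re
  have h3 := h2.const_mul (Real.pi / (-a.im))
  refine h3.mono' ?_ (Eventually.of_forall fun r => ?_)
  · have : Measurable (fun r : ℝ => ((r : ℂ) - a)⁻¹ ^ 2) := by fun_prop
    exact this.aestronglyMeasurable
  · exact (ker_norm a ha r).le

lemma bdd_int {f g : ℝ → ℂ} (hf : Integrable f) (hg : Continuous g) {c : ℝ} (hc : ∀ t, ‖g t‖ ≤ c) :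
    Integrable (fun t => f t * g t) :=
  hf.mul_bdd hg.aestronglyMeasurable (Eventually.of_forall hc)

lemma po_int (hB : S_BDY) {s : ℝ} (hs : 0 < s) : Integrable (fun t : ℝ => ((Po s t : ℝ) : ℂ)) :=
  (hB.1 s hs).2.1.ofReal

/-- uniform limits of analytic functions -/
lemma ana_lim (hBDY : S_BDY) (u : ℝ → ℂ) (hu : Continuous u) (hub : ∃ c, ∀ r, ‖u r‖ ≤ c)
    (h : ∀ ε > 0, ∃ v : ℝ → ℂ, Continuous v ∧ (∃ c, ∀ r, ‖v r‖ ≤ c) ∧ Ana v ∧
      ∀ r, ‖u r - v r‖ ≤ ε) : Ana u := by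
  intro a ha
  have hk := ker_int hBDY ha
  set K : ℝ := ∫ r : ℝ, ‖((r : ℂ) - a)⁻¹ ^ 2‖ with hK
  have hK0 : 0 ≤ K := integral_nonneg fun r => norm_nonneg _
  by_contra hne
  have hpos : 0 < ‖∫ r : ℝ, u r * ((r : ℂ) - a)⁻¹ ^ 2‖ := norm_pos_iff.2 hne
  set D := ‖∫ r : ℝ, u r * ((r : ℂ) - a)⁻¹ ^ 2‖ with hD
  obtain ⟨v, hvc, ⟨c2, hc2⟩, hva, huv⟩ := h (D / (2 * (K + 1))) (by positivity)
  have hv0 := hva a ha
  obtain ⟨c1, hc1⟩ := hub
  have i1 : Integrable (fun r : ℝ => u r * ((r : ℂ) - a)⁻¹ ^ 2) := by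
    have := bdd_int hk hu hc1
    exact this.congr (Eventually.of_forall fun r => mul_comm _ _)
  have i2 : Integrable (fun r : ℝ => v r * ((r : ℂ) - a)⁻¹ ^ 2) := by
    have := bdd_int hk hvc hc2
    exact this.congr (Eventually.of_forall fun r => mul_comm _ _)
  have h1 : ∫ r : ℝ, u r * ((r : ℂ) - a)⁻¹ ^ 2 =
      ∫ r : ℝ, (u r * ((r : ℂ) - a)⁻¹ ^ 2 - v r * ((r : ℂ) - a)⁻¹ ^ 2) := by
    rw [integral_sub i1 i2, hv0, sub_zero]
  have hDe : D = ‖∫ r : ℝ, (u r * ((r : ℂ) - a)⁻¹ ^ 2 - v r * ((r : ℂ) - a)⁻¹ ^ 2)‖ :=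
    congrArg norm h1
  have h2 : D ≤ ∫ r : ℝ, D / (2 * (K + 1)) * ‖((r : ℂ) - a)⁻¹ ^ 2‖ := by
    calc D = _ := hDe
      _ ≤ ∫ r : ℝ, ‖u r * ((r : ℂ) - a)⁻¹ ^ 2 - v r * ((r : ℂ) - a)⁻¹ ^ 2‖ :=
          norm_integral_le_integral_norm _
      _ ≤ _ := by
          refine integral_mono_of_nonneg (Eventually.of_forall fun r => norm_nonneg _)
            (hk.norm.const_mul _) (Eventually.of_forall fun r => ?_)
          show ‖u r * ((r : ℂ) - a)⁻¹ ^ 2 - v r * ((r : ℂ) - a)⁻¹ ^ 2‖ ≤ _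
          rw [← sub_mul, norm_mul]
          exact mul_le_mul_of_nonneg_right (huv _) (norm_nonneg _)
  rw [integral_const_mul, ← hK] at h2
  have h3 : D / (2 * (K + 1)) * K ≤ D / 2 := by
    rw [div_mul_eq_mul_div, div_le_div_iff₀ (by positivity) (by norm_num)]
    nlinarith
  linarith

/-- the Poisson average is contractive -/
lemma po_bound (hBDY : S_BDY) {s : ℝ} (hs : 0 < s) (u : ℝ → ℂ) (c : ℝ) (hc : ∀ t, ‖u t‖ ≤ c) :
    ‖∫ t : ℝ, ((Po s t : ℝ) : ℂ) * u t‖ ≤ c := by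
  obtain ⟨-, h1, h2, h3⟩ := hBDY.1 s hs
  calc ‖∫ t : ℝ, ((Po s t : ℝ) : ℂ) * u t‖ ≤ ∫ t : ℝ, Po s t * c := by
        refine norm_integral_le_of_norm_le (h1.mul_const c) (Eventually.of_forall fun t => ?_)
        rw [norm_mul, Complex.norm_real, Real.norm_eq_abs, abs_of_pos (h3 t)]
        exact mul_le_mul_of_nonneg_left (hc t) (h3 t).le
    _ = c := by rw [integral_mul_const, h2, one_mul]

end TCHI

section B

variable (G : Type) [Group G] [TopologicalSpace G] [IsTopologicalGroup G] [T2Space G]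
  [LocallyCompactSpace G] [MeasurableSpace G] [BorelSpace G]
  (μ : Measure G) [μ.IsHaarMeasure]
  (Q : Type) [Group Q] [TopologicalSpace Q] [IsTopologicalGroup Q] [T2Space Q]

open TCHI in
theorem t3_CHI : S_CC G μ → S_DSA G μ → S3_HM G → S3_AV G μ → S3_V G μ Q → S3_VF G Q →
    S3_SUPD G μ → S3_SPX G μ → S3_IDENT G μ Q → S_BDY → S_MULT → S_STRC → S3_CHI G μ Q := by
  intro hCC hDSA hHM hAV hV' hVF' hSUPD hSPX hIDENT hBDY hMULT hSTRC D A hA hSep γ hγ hAn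
  have hV := hV' D
  have hVF := hVF' D
  have hN : IsCompact (D.N : Set G) := D.cpt
  have hγ0 : γ 0 = 1 := by
    have h1 := hγ.2 0 0
    rw [add_zero] at h1
    exact (left_eq_mul.1 h1)
  -- continuity and boundedness along the subgroup
  have hcont : ∀ u ∈ A, InvL D.N u → Continuous fun r => u (D.s (γ r)) := fun u hu hi => by
    have h1 := (hVF.1 u (hDSA A hA u hu).1 hi).comp
      (hγ.1.prodMk (continuous_const : Continuous fun _ : ℝ => (1 : G)))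
    have h2 : (fun r => u (D.s (γ r))) =
        (fun p : Q × G => u (D.s p.1 * p.2)) ∘ (fun r : ℝ => (γ r, (1 : G))) := by
      funext r
      show u (D.s (γ r)) = u (D.s (γ r) * 1)
      rw [mul_one]
    rw [h2]
    exact h1
  have hbdd : ∀ u ∈ A, ∃ c, ∀ r, ‖u (D.s (γ r))‖ ≤ c := fun u hu => by
    obtain ⟨c, hc⟩ := (hDSA A hA u hu).2.1
    exact ⟨c, fun r => hc _⟩
  -- analyticity
  have hana : ∀ u ∈ A, InvL D.N u → Ana fun r => u (D.s (γ r)) := by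
    intro u hu hi
    refine ana_lim hBDY _ (hcont u hu hi) (hbdd u hu) fun ε hε => ?_
    obtain ⟨v, hv, hvc, hvi, huv, hva⟩ := hAn u hu hi ε hε
    refine ⟨fun r => v (D.s (γ r)), hcont v hv hvi, hbdd v hv, ?_, fun r => huv _⟩
    have h1 := hva 1
    simp only [mul_one] at h1
    exact h1
  -- the characters
  set χ : ℝ → (G → ℂ) → ℂ := fun s u => ∫ t : ℝ, ((Po s t : ℝ) : ℂ) * u (D.s (γ t)) with hχ
  obtain ⟨u0, hu0, hi0, hu1⟩ : ∃ u ∈ A, InvL D.N u ∧ u (D.s 1) ≠ 0 := by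
    obtain ⟨u, hu, hi, h0⟩ := hSep.2
    obtain ⟨x0, hx0⟩ := Function.ne_iff.1 h0
    have h1 := hVF.2.2.2.2.1 u hi x0
    refine ⟨fun x => u (x * x0), hA.right x0 u hu, h1.1, ?_⟩
    show u (D.s 1 * x0) ≠ 0
    rw [h1.2]
    exact hx0
  have htend := hBDY.2 (fun r => u0 (D.s (γ r))) (hcont u0 hu0 hi0) (hbdd u0 hu0) 0
  simp only [sub_zero, hγ0] at htend
  obtain ⟨s, hs1, hs⟩ := ((htend.eventually_ne hu1).and self_mem_nhdsWithin).exists
  have hs : 0 < s := hs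
  have hpi := po_int hBDY hs
  have hint : ∀ u ∈ A, InvL D.N u → Integrable (fun t : ℝ => ((Po s t : ℝ) : ℂ) * u (D.s (γ t))) :=
    fun u hu hi => by
      obtain ⟨c, hc⟩ := hbdd u hu
      exact bdd_int hpi (hcont u hu hi) hc
  obtain ⟨g, hg⟩ := hSPX A hA D.N hN (χ s)
    (by
      intro u hu hui v hv hvi
      show ∫ t : ℝ, ((Po s t : ℝ) : ℂ) * (u (D.s (γ t)) + v (D.s (γ t))) = _
      rw [hχ]
      simp only [mul_add]
      exact integral_add (hint u hu hui) (hint v hv hvi))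
    (by
      intro c u hu hui
      show ∫ t : ℝ, ((Po s t : ℝ) : ℂ) * (c * u (D.s (γ t))) = _
      rw [hχ]
      rw [← integral_const_mul]
      exact integral_congr_ae (Eventually.of_forall fun t => by
        show ((Po s t : ℝ) : ℂ) * (c * u (D.s (γ t))) = c * (((Po s t : ℝ) : ℂ) * u (D.s (γ t)))
        ring))
    (by
      intro u hu hui v hv hvi
      exact hMULT _ _ (hcont u hu hui) (hcont v hv hvi) (hbdd u hu) (hbdd v hv)
        (hana u hu hui) (hana v hv hvi) s hs)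
    ⟨u0, hu0, hi0, hs1⟩
    (by
      intro u hu hui c hc
      exact po_bound hBDY hs (fun t => u (D.s (γ t))) c (fun t => hc _))
  have hg2 : ∀ u ∈ A, InvL D.N u → ∀ y,
      ∫ t : ℝ, ((Po s t : ℝ) : ℂ) * u (D.s (γ t) * y) = u (g * y) :=
    fun u hu hui y => hg _ (hA.right y u hu) (hVF.2.2.2.2.1 u hui y).1
  -- compactly supported functions
  obtain ⟨m, hm⟩ := hHM D.N hN
  have hcs : ∀ u ∈ A, InvL D.N u → Cc u → ∀ t y, u (D.s (γ t) * y) = u y := by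
    intro u hu hui huc t y
    have hHN : cl μ u ∈ HN μ D.N := ((hAV D.N hN m hm).2.2.2.2 u huc).1 hui
    have h1 := (hIDENT D u huc hui γ hγ (fun t => ((Po s t : ℝ) : ℂ)) hpi).2.2 g (hg2 u hu hui)
    have h2 := hSTRC (HH μ) (fun t => U μ (D.s (γ t)) (cl μ u)) (U μ g (cl μ u)) ‖cl μ u‖ (Po s)
      ((hV.2.2.2.2.2.2.1 (cl μ u) hHN).comp hγ.1) (fun t => LinearIsometry.norm_map _ _)
      (LinearIsometry.norm_map _ _) (hBDY.1 s hs).1 (hBDY.1 s hs).2.2.2 (hBDY.1 s hs).2.1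
      (hBDY.1 s hs).2.2.1 h1
    have h3 : U μ (D.s (γ t)) (cl μ u) = cl μ u := by
      have h4 : U μ (D.s (γ t)) (cl μ u) = U μ g (cl μ u) := h2 t
      have h5 : U μ (D.s (γ 0)) (cl μ u) = U μ g (cl μ u) := h2 0
      rw [h4, ← h5, hγ0]
      exact hV.2.2.2.2.2.2.2.2 _ hHN
    obtain ⟨h6, -, h7⟩ := hCC.2.2.2.1 u huc (D.s (γ t))
    rw [h7] at h3
    have h8 := hCC.2.2.2.2.2.1 _ _ h6 huc h3
    exact congrFun h8 y
  have hall : ∀ u ∈ A, InvL D.N u → ∀ t y, u (D.s (γ t) * y) = u y := by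
    intro u hu hui t y
    by_contra hne
    have hpos : 0 < ‖u (D.s (γ t) * y) - u y‖ := norm_pos_iff.2 (sub_ne_zero.2 hne)
    obtain ⟨v, hv, hvc, hvi, huv⟩ := hSUPD A hA D.N hN u hu hui
      (‖u (D.s (γ t) * y) - u y‖ / 3) (by positivity)
    have h1 := hcs v hv hvi hvc t y
    have h2 : u (D.s (γ t) * y) - u y =
        (u (D.s (γ t) * y) - v (D.s (γ t) * y)) - (u y - v y) := by rw [h1]; ring
    have h3 : ‖u (D.s (γ t) * y) - u y‖ ≤
        ‖u (D.s (γ t) * y) - u y‖ / 3 + ‖u (D.s (γ t) * y) - u y‖ / 3 := by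
      calc ‖u (D.s (γ t) * y) - u y‖ =
            ‖(u (D.s (γ t) * y) - v (D.s (γ t) * y)) - (u y - v y)‖ := by rw [← h2]
        _ ≤ ‖u (D.s (γ t) * y) - v (D.s (γ t) * y)‖ + ‖u y - v y‖ := norm_sub_le _ _
        _ ≤ _ := add_le_add (huv _) (huv _)
    linarith
  intro t
  by_contra hne
  have hx : D.s (γ t) ∉ D.N := by
    intro hx
    obtain ⟨h, h1⟩ := (hV.1 (D.s (γ t))).1 hx
    obtain ⟨h', h2⟩ := hV.2.2.1 (γ t)
    exact hne (h2.symm.trans h1)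
  obtain ⟨u, hu, hui, y, hy⟩ := hSep.1 _ hx
  exact hy (hall u hu hui t y)

end B

end

end Pool.Agent.W660.FG
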