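import Pool.Agent.W660.FG.Stm

/-!
Project FG: doubling property of the Haar measure along the preimages of balls in a chart of the
quotient.
-/

namespace Pool.Agent.W660.FG

open Pool.Agent.W660.FL
open MeasureTheory Complex Filter Topology
open scoped ComplexConjugate InnerProductSpace Manifold ContDiff

noncomputable section

variable (G : Type) [Group G] [TopologicalSpace G] [IsTopologicalGroup G] [T2Space G]
  [LocallyCompactSpace G] [MeasurableSpace G] [BorelSpace G]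
  (μ : Measure G) [μ.IsHaarMeasure]
  (Q : Type) [Group Q] [TopologicalSpace Q] [IsTopologicalGroup Q] [T2Space Q]
  (E : Type) [NormedAddCommGroup E] [NormedSpace ℝ E] [FiniteDimensional ℝ E]

namespace TDBL

variable {Q E}

theorem zero_mem (C : LieChart Q E) : (0 : E) ∈ C.κ.target := by
  rw [← C.map_one]; exact C.κ.map_source C.one_mem

theorem symm_zero (C : LieChart Q E) : C.κ.symm 0 = 1 := by
  rw [← C.map_one]; exact C.κ.left_inv C.one_mem

theorem cont_symm (C : LieChart Q E) : ContinuousAt C.κ.symm (0 : E) :=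
  C.κ.symm.continuousAt (zero_mem C)

/-- the quotient map in the chart -/
def qm (C : LieChart Q E) (p : E × E) : E := C.κ ((C.κ.symm p.1)⁻¹ * C.κ.symm p.2)

theorem qm_smooth (C : LieChart Q E) : ContDiffAt ℝ 1 (qm C) (0, 0) := by
  let i : E → E := fun a => C.κ (C.κ.symm a)⁻¹
  let m : E × E → E := fun p => C.κ (C.κ.symm p.1 * C.κ.symm p.2)
  have hi : ContDiffAt ℝ ∞ i 0 := C.inv
  have hi0 : i 0 = 0 := by
    show C.κ (C.κ.symm 0)⁻¹ = 0
    rw [symm_zero, inv_one, C.map_one]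
  have hm : ContDiffAt ℝ ∞ m (0, 0) := C.mul
  have h1 : ContDiffAt ℝ ∞ (fun p : E × E => (i p.1, p.2)) (0, 0) := by
    refine ContDiffAt.prodMk ?_ contDiffAt_snd
    exact ContDiffAt.comp (g := i) (f := (Prod.fst : E × E → E)) (0, 0) hi contDiffAt_fst
  have h2 : ContDiffAt ℝ ∞ (fun p : E × E => m (i p.1, p.2)) (0, 0) := by
    refine ContDiffAt.comp (g := m) (f := fun p : E × E => (i p.1, p.2)) (0, 0) ?_ h1
    show ContDiffAt ℝ ∞ m (i 0, 0)
    rw [hi0]; exact hm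
  have h3 : qm C =ᶠ[𝓝 (0, 0)] fun p : E × E => m (i p.1, p.2) := by
    have hc : ContinuousAt (fun p : E × E => (C.κ.symm p.1)⁻¹) (0, 0) := by
      have : ContinuousAt (fun p : E × E => C.κ.symm p.1) (0, 0) :=
        ContinuousAt.comp (f := Prod.fst) (cont_symm C) continuousAt_fst
      exact this.inv
    have hs : C.κ.source ∈ 𝓝 ((fun p : E × E => (C.κ.symm p.1)⁻¹) (0, 0)) := by
      show C.κ.source ∈ 𝓝 (C.κ.symm 0)⁻¹
      rw [symm_zero, inv_one]
      exact C.κ.open_source.mem_nhds C.one_mem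
    filter_upwards [hc hs] with p hp
    show C.κ ((C.κ.symm p.1)⁻¹ * C.κ.symm p.2) =
      C.κ (C.κ.symm (C.κ (C.κ.symm p.1)⁻¹) * C.κ.symm p.2)
    rw [C.κ.left_inv hp]
  exact (h2.congr_of_eventuallyEq h3).of_le (by exact_mod_cast le_top)

theorem qm_diag (C : LieChart Q E) (a : E) : qm C (a, a) = 0 := by
  show C.κ ((C.κ.symm a)⁻¹ * C.κ.symm a) = 0
  rw [inv_mul_cancel, C.map_one]

/-- the good radius -/
theorem radius (C : LieChart Q E) : ∃ (Λ ρ : ℝ), 1 ≤ Λ ∧ 0 < ρ ∧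
    (∀ a : E, ‖a‖ < ρ → a ∈ C.κ.target) ∧
    (∀ a b : E, ‖a‖ < ρ → ‖b‖ < ρ → (C.κ.symm a)⁻¹ * C.κ.symm b ∈ C.κ.source ∧
      ‖qm C (a, b)‖ ≤ Λ * ‖b - a‖) := by
  obtain ⟨K, t, ht, hK⟩ := (qm_smooth C).exists_lipschitzOnWith
  have h1 : {p : E × E | (C.κ.symm p.1)⁻¹ * C.κ.symm p.2 ∈ C.κ.source} ∈ 𝓝 ((0 : E), (0 : E)) := by
    have hc : ContinuousAt (fun p : E × E => (C.κ.symm p.1)⁻¹ * C.κ.symm p.2) (0, 0) := by
      have h2 : ContinuousAt (fun p : E × E => C.κ.symm p.1) (0, 0) :=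
        ContinuousAt.comp (f := Prod.fst) (cont_symm C) continuousAt_fst
      have h3 : ContinuousAt (fun p : E × E => C.κ.symm p.2) (0, 0) :=
        ContinuousAt.comp (f := Prod.snd) (cont_symm C) continuousAt_snd
      exact h2.inv.mul h3
    have hs : C.κ.source ∈ 𝓝 ((fun p : E × E => (C.κ.symm p.1)⁻¹ * C.κ.symm p.2) (0, 0)) := by
      show C.κ.source ∈ 𝓝 ((C.κ.symm 0)⁻¹ * C.κ.symm 0)
      rw [inv_mul_cancel]
      exact C.κ.open_source.mem_nhds C.one_mem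
    exact hc hs
  have h4 : C.κ.target ∈ 𝓝 (0 : E) := C.κ.open_target.mem_nhds (zero_mem C)
  obtain ⟨ρ1, hρ1, h5⟩ := Metric.mem_nhds_iff.mp (Filter.inter_mem ht h1)
  obtain ⟨ρ2, hρ2, h6⟩ := Metric.mem_nhds_iff.mp h4
  have hball : ∀ a b : E, ‖a‖ < ρ1 → ‖b‖ < ρ1 → (a, b) ∈ Metric.ball ((0 : E), (0 : E)) ρ1 := by
    intro a b ha hb
    rw [mem_ball_iff_norm, show (((a, b) : E × E) - (0, 0)) = (a, b) from by simp, Prod.norm_def]
    exact max_lt ha hb
  refine ⟨max 1 K, min ρ1 ρ2, le_max_left _ _, lt_min hρ1 hρ2, ?_, ?_⟩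
  · intro a ha
    exact h6 (by rw [mem_ball_zero_iff]; exact lt_of_lt_of_le ha (min_le_right _ _))
  · intro a b ha hb
    have ha1 := lt_of_lt_of_le ha (min_le_left _ _)
    have hb1 := lt_of_lt_of_le hb (min_le_left _ _)
    refine ⟨(h5 (hball a b ha1 hb1)).2, ?_⟩
    have h7 := hK.norm_sub_le (h5 (hball a b ha1 hb1)).1 (h5 (hball a a ha1 ha1)).1
    rw [qm_diag, sub_zero] at h7
    have h8 : ‖((a, b) : E × E) - (a, a)‖ = ‖b - a‖ := by
      rw [Prod.mk_sub_mk, sub_self, Prod.norm_def, norm_zero]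
      exact max_eq_right (norm_nonneg _)
    rw [h8] at h7
    exact h7.trans (mul_le_mul_of_nonneg_right (le_max_right _ _) (norm_nonneg _))

end TDBL

open TDBL in
theorem t3_DBL (hVF : S3_VF G Q) : S3_DBL G μ Q E := by
  intro D C
  classical
  obtain ⟨-, -, -, -, -, hcpt, -⟩ := hVF D
  obtain ⟨Λ, ρ, hΛ, hρ, htar, hq⟩ := radius C
  have hΛ0 : 0 < Λ := by linarith
  have : ProperSpace E := FiniteDimensional.proper_real E
  -- a finite net of the unit ball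
  obtain ⟨t, ht1, ht2, ht3⟩ := (isCompact_closedBall (0 : E) 1).finite_cover_balls
    (show (0 : ℝ) < 1 / (2 * Λ) by positivity)
  let T : Finset E := ht2.toFinset
  have hsub : ∀ r, r ≤ ρ / 2 → Metric.closedBall (0 : E) r ⊆ C.κ.target := by
    intro r hr a ha
    rw [mem_closedBall_zero_iff] at ha
    exact htar a (by linarith)
  have hBk : ∀ r, r ≤ ρ / 2 → Bk C r = C.κ.symm '' Metric.closedBall (0 : E) r := by
    intro r hr
    ext x
    constructor
    · rintro ⟨hx, hx'⟩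
      exact ⟨C.κ x, by rw [mem_closedBall_zero_iff]; exact hx', C.κ.left_inv hx⟩
    · rintro ⟨a, ha, rfl⟩
      have ha' := hsub r hr ha
      refine ⟨C.κ.map_target ha', ?_⟩
      rw [C.κ.right_inv ha']
      rwa [mem_closedBall_zero_iff] at ha
  have hcomp0 : IsCompact (Bk C (ρ / 2)) := by
    rw [hBk _ le_rfl]
    exact (isCompact_closedBall (0 : E) (ρ / 2)).image_of_continuousOn
      (C.κ.continuousOn_symm.mono (hsub _ le_rfl))
  have hcomp : IsCompact (Bk3 D C (ρ / 2)) := hcpt _ hcomp0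
  have hmono : ∀ r, r ≤ ρ / 2 → Bk3 D C r ⊆ Bk3 D C (ρ / 2) :=
    fun r hr x ⟨h, hx⟩ => ⟨h, hx.1, hx.2.trans hr⟩
  have hfin : ∀ r, r ≤ ρ / 2 → μ (Bk3 D C r) ≠ ⊤ := by
    intro r hr
    exact ne_top_of_le_ne_top hcomp.measure_lt_top.ne (measure_mono (hmono r hr))
  refine ⟨T.card, ρ / 2, by positivity, hsub _ le_rfl, hcomp, ?_, ?_⟩
  · intro r hr0 hr
    have hopen0 : IsOpen (C.κ.source ∩ C.κ ⁻¹' Metric.ball (0 : E) r) :=
      C.κ.isOpen_inter_preimage Metric.isOpen_ball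
    have hopen : IsOpen ((Subtype.val : D.H → G) ''
        (D.π ⁻¹' (C.κ.source ∩ C.κ ⁻¹' Metric.ball (0 : E) r))) :=
      D.isOpen.isOpenMap_subtype_val _ (hopen0.preimage D.cont)
    have hne : ((Subtype.val : D.H → G) ''
        (D.π ⁻¹' (C.κ.source ∩ C.κ ⁻¹' Metric.ball (0 : E) r))).Nonempty := by
      refine ⟨1, 1, ?_, rfl⟩
      rw [Set.mem_preimage, map_one]
      refine ⟨C.one_mem, ?_⟩
      rw [Set.mem_preimage, C.map_one]
      exact Metric.mem_ball_self hr0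
    have hpos : 0 < μ (Bk3 D C r) := by
      refine lt_of_lt_of_le (hopen.measure_pos μ hne) (measure_mono ?_)
      rintro x ⟨y, hy, rfl⟩
      rw [Set.mem_preimage] at hy
      refine ⟨y.2, hy.1, ?_⟩
      have h := hy.2
      rw [Set.mem_preimage, mem_ball_zero_iff] at h
      exact h.le
    exact ENNReal.toReal_pos hpos.ne' (hfin r hr)
  · intro r hr0 hr
    have hcov : Bk3 D C (2 * r) ⊆ ⋃ y ∈ T,
        (fun x : G => (D.s (C.κ.symm ((2 * r) • y)))⁻¹ * x) ⁻¹' Bk3 D C r := by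
      rintro x ⟨hxH, hx, hx'⟩
      have hb : (2 * r)⁻¹ • C.κ (D.π ⟨x, hxH⟩) ∈ Metric.closedBall (0 : E) 1 := by
        rw [mem_closedBall_zero_iff, norm_smul, norm_inv, Real.norm_of_nonneg (by positivity)]
        rw [inv_mul_le_iff₀ (by positivity), mul_one]
        exact hx'
      have hcov1 := ht3 hb
      rw [Set.mem_iUnion₂] at hcov1
      obtain ⟨y, hy, hyb⟩ := hcov1
      rw [Set.mem_iUnion₂]
      refine ⟨y, ht2.mem_toFinset.mpr hy, ?_⟩
      have hy1 : ‖y‖ ≤ 1 := by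
        have := ht1 hy
        rwa [mem_closedBall_zero_iff] at this
      have hya : ‖(2 * r) • y‖ < ρ := by
        rw [norm_smul, Real.norm_of_nonneg (by positivity)]
        have : 2 * r * ‖y‖ ≤ 2 * r * 1 := mul_le_mul_of_nonneg_left hy1 (by positivity)
        linarith
      have hxb : ‖C.κ (D.π ⟨x, hxH⟩)‖ < ρ := by linarith
      obtain ⟨h1, h2⟩ := hq _ _ hya hxb
      rw [C.κ.left_inv hx] at h1
      have hsH : D.s (C.κ.symm ((2 * r) • y)) ∈ D.H :=
        (Function.surjInv D.surj (C.κ.symm ((2 * r) • y))).2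
      have hsπ : D.π ⟨D.s (C.κ.symm ((2 * r) • y)), hsH⟩ = C.κ.symm ((2 * r) • y) :=
        Function.surjInv_eq D.surj _
      have hmem : (D.s (C.κ.symm ((2 * r) • y)))⁻¹ * x ∈ D.H :=
        D.H.mul_mem (D.H.inv_mem hsH) hxH
      have hπ : D.π ⟨(D.s (C.κ.symm ((2 * r) • y)))⁻¹ * x, hmem⟩ =
          (C.κ.symm ((2 * r) • y))⁻¹ * D.π ⟨x, hxH⟩ := by
        have e : (⟨(D.s (C.κ.symm ((2 * r) • y)))⁻¹ * x, hmem⟩ : D.H) =
            (⟨D.s (C.κ.symm ((2 * r) • y)), hsH⟩ : D.H)⁻¹ * ⟨x, hxH⟩ := rfl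
        rw [e, map_mul, map_inv, hsπ]
      refine ⟨hmem, ?_⟩
      rw [hπ]
      refine ⟨h1, ?_⟩
      have h3 : qm C ((2 * r) • y, C.κ (D.π ⟨x, hxH⟩)) =
          C.κ ((C.κ.symm ((2 * r) • y))⁻¹ * D.π ⟨x, hxH⟩) := by
        show C.κ ((C.κ.symm ((2 * r) • y))⁻¹ * C.κ.symm (C.κ (D.π ⟨x, hxH⟩))) = _
        rw [C.κ.left_inv hx]
      rw [h3] at h2
      refine h2.trans ?_
      have h4 : C.κ (D.π ⟨x, hxH⟩) - (2 * r) • y =
          (2 * r) • ((2 * r)⁻¹ • C.κ (D.π ⟨x, hxH⟩) - y) := by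
        rw [smul_sub, smul_smul, mul_inv_cancel₀ (by positivity), one_smul]
      rw [h4, norm_smul, Real.norm_of_nonneg (by positivity)]
      have h5 : ‖(2 * r)⁻¹ • C.κ (D.π ⟨x, hxH⟩) - y‖ ≤ 1 / (2 * Λ) := by
        rw [mem_ball_iff_norm] at hyb
        exact hyb.le
      calc Λ * (2 * r * ‖(2 * r)⁻¹ • C.κ (D.π ⟨x, hxH⟩) - y‖)
          ≤ Λ * (2 * r * (1 / (2 * Λ))) := by gcongr
        _ = r := by field_simp
    have hle : μ (Bk3 D C (2 * r)) ≤ (T.card : ENNReal) * μ (Bk3 D C r) := by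
      calc μ (Bk3 D C (2 * r)) ≤ μ (⋃ y ∈ T,
            (fun x : G => (D.s (C.κ.symm ((2 * r) • y)))⁻¹ * x) ⁻¹' Bk3 D C r) :=
              measure_mono hcov
        _ ≤ ∑ y ∈ T, μ ((fun x : G => (D.s (C.κ.symm ((2 * r) • y)))⁻¹ * x) ⁻¹' Bk3 D C r) :=
            measure_biUnion_finset_le T _
        _ = ∑ y ∈ T, μ (Bk3 D C r) := Finset.sum_congr rfl fun y _ => measure_preimage_mul μ _ _
        _ = (T.card : ENNReal) * μ (Bk3 D C r) := by rw [Finset.sum_const, nsmul_eq_mul]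
    have hr2 : r ≤ ρ / 2 := by linarith
    have h6 : (T.card : ENNReal) * μ (Bk3 D C r) ≠ ⊤ :=
      ENNReal.mul_ne_top (ENNReal.natCast_ne_top _) (hfin r hr2)
    have h7 := ENNReal.toReal_mono h6 hle
    rw [ENNReal.toReal_mul, ENNReal.toReal_natCast] at h7
    exact h7

end

end Pool.Agent.W660.FG
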