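import Pool.Agent.W660.FG.Stm

/-! Part DIR of project FG. -/

namespace Pool.Agent.W660.FG

open Pool.Agent.W660.FL
open MeasureTheory Complex Filter Topology
open scoped ComplexConjugate InnerProductSpace Manifold ContDiff

noncomputable section

section B

variable (G : Type) [Group G] [TopologicalSpace G] [IsTopologicalGroup G] [T2Space G]
  [LocallyCompactSpace G] [MeasurableSpace G] [BorelSpace G]
  (μ : Measure G) [μ.IsHaarMeasure]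
  (Q : Type) [Group Q] [TopologicalSpace Q] [IsTopologicalGroup Q] [T2Space Q]
  (E : Type) [NormedAddCommGroup E] [NormedSpace ℝ E] [FiniteDimensional ℝ E]

namespace TDIR

/-- translation as a real linear map -/
def UR (x : G) : HH μ →L[ℝ] HH μ :=
  LinearMap.mkContinuous
    { toFun := fun ξ => U μ x ξ
      map_add' := fun a b => map_add _ a b
      map_smul' := fun c a => by
        show U μ x (c • a) = c • U μ x a
        have h : ∀ b : HH μ, c • b = (c : ℂ) • b := fun b => (Complex.coe_smul c b).symm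
        rw [h, h, map_smul] } 1
    (fun ξ => by
      show ‖U μ x ξ‖ ≤ 1 * ‖ξ‖
      rw [LinearIsometry.norm_map, one_mul])

theorem UR_apply (x : G) (ξ : HH μ) : UR G μ x ξ = U μ x ξ := rfl

/-- a smooth invariant vector which is moved by `x` -/
theorem exists_v (hCC : S_CC G μ) (hSUPD : S3_SUPD G μ) (hSM3 : S3_SM3 G μ Q E)
    (D : QD G Q) (C : LieChart Q E) (A : Set (G → ℂ)) (hA : IsAlg μ A) (hS : Sep D A)
    (x : G) (hx : x ∉ D.N) :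
    ∃ v ∈ A, Cc v ∧ InvL D.N v ∧ Sm3 μ D C (cl μ v) ∧ U μ x (cl μ v) ≠ cl μ v := by
  obtain ⟨u, hu, hinv, y, hne⟩ := hS.1 x hx
  have hδ : 0 < ‖u (x * y) - u y‖ := norm_pos_iff.mpr (sub_ne_zero.mpr hne)
  obtain ⟨v1, hv1, hc1, hi1, hd1⟩ := hSUPD A hA D.N D.cpt u hu hinv (‖u (x * y) - u y‖ / 8)
    (by positivity)
  obtain ⟨v2, hv2, hc2, hi2, hsm, hd2, -⟩ := hSM3 D C A hA v1 hv1 hc1 hi1
    (‖u (x * y) - u y‖ / 8) (by positivity)
  refine ⟨v2, hv2, hc2, hi2, hsm, fun h => ?_⟩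
  obtain ⟨-, -, -, h4, -, h6, -⟩ := hCC
  obtain ⟨hcc, -, hU⟩ := h4 v2 hc2 x
  rw [hU] at h
  have h7 : v2 (x * y) = v2 y := congrFun (h6 _ _ hcc hc2 h) y
  have e : u (x * y) - u y = (u (x * y) - v1 (x * y)) + (v1 (x * y) - v2 (x * y)) -
      ((u y - v1 y) + (v1 y - v2 y)) := by
    rw [h7]; ring
  have h8 : ‖u (x * y) - u y‖ ≤ (‖u (x * y) - v1 (x * y)‖ + ‖v1 (x * y) - v2 (x * y)‖) +
      (‖u y - v1 y‖ + ‖v1 y - v2 y‖) := by
    calc ‖u (x * y) - u y‖ = ‖(u (x * y) - v1 (x * y)) + (v1 (x * y) - v2 (x * y)) -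
          ((u y - v1 y) + (v1 y - v2 y))‖ := by
          rw [← e]
      _ ≤ ‖(u (x * y) - v1 (x * y)) + (v1 (x * y) - v2 (x * y))‖ +
          ‖(u y - v1 y) + (v1 y - v2 y)‖ := norm_sub_le _ _
      _ ≤ _ := add_le_add (norm_add_le _ _) (norm_add_le _ _)
  have := hd1 (x * y)
  have := hd1 y
  have := hd2 (x * y)
  have := hd2 y
  linarith

theorem one_zero (γ : ℝ → Q) (hγ : IsOne γ) : γ 0 = 1 := by
  have h := hγ.2 0 0
  rw [add_zero] at h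
  have h2 := congrArg (fun z => (γ 0)⁻¹ * z) h
  simpa using h2.symm

/-- elementary estimate -/
theorem est (z : ℂ) (hz : ‖z‖ ≤ 1) (c : ℝ) (hc : 4 * c ≤ 1 - z.re) :
    ‖((1 / 2 : ℝ) : ℂ) * z + ((1 - 1 / 2 : ℝ) : ℂ) * (z * z)‖ ≤ 1 - c := by
  have h1 : ((1 / 2 : ℝ) : ℂ) * z + ((1 - 1 / 2 : ℝ) : ℂ) * (z * z) =
      ((1 / 2 : ℝ) : ℂ) * (z * (1 + z)) := by
    have : ((1 - 1 / 2 : ℝ) : ℂ) = ((1 / 2 : ℝ) : ℂ) := by norm_num
    rw [this]; ring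
  have h2 : ‖((1 / 2 : ℝ) : ℂ) * (z * (1 + z))‖ ≤ (1 / 2) * ‖1 + z‖ := by
    rw [norm_mul, norm_mul, Complex.norm_real, Real.norm_of_nonneg (by norm_num)]
    have := mul_le_mul_of_nonneg_right hz (norm_nonneg (1 + z))
    nlinarith
  have h3 : ‖1 + z‖ ^ 2 ≤ 2 + 2 * z.re := by
    have e1 : ‖1 + z‖ ^ 2 = (1 + z.re) ^ 2 + z.im ^ 2 := by
      rw [← Complex.normSq_eq_norm_sq, Complex.normSq_apply]
      simp
      ring
    have e2 : ‖z‖ ^ 2 = z.re ^ 2 + z.im ^ 2 := by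
      rw [← Complex.normSq_eq_norm_sq, Complex.normSq_apply]
      ring
    have e3 : ‖z‖ ^ 2 ≤ 1 := by nlinarith [norm_nonneg z]
    nlinarith
  rw [h1]
  refine h2.trans ?_
  have h4 : 0 ≤ ‖1 + z‖ := norm_nonneg _
  -- ((1/2)‖1+z‖)^2 ≤ (1 + re)/2 ≤ 1 - 2c ≤ (1-c)^2
  have h5 : ((1 / 2) * ‖1 + z‖) ^ 2 ≤ (1 - c) ^ 2 := by nlinarith [sq_nonneg c]
  have h6 : 0 ≤ 1 - c := by nlinarith [sq_nonneg ‖1 + z‖]
  exact le_of_sq_le_sq h5 h6

/-- the derivative of the orbit -/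
theorem orbit (hV : S3_V G μ Q) (D : QD G Q) (C : LieChart Q E) (X : E) (γ : ℝ → Q)
    (hγ : IsOne γ)
    (hd : HasDerivAt (fun t => C.κ (γ t)) X 0) (ξ : HH μ) (hξ : ξ ∈ HN μ D.N)
    (L : E →L[ℝ] HH μ)
    (hL : HasFDerivAt (fun a : E => U μ (D.s (C.κ.symm a)) ξ) L 0) (t : ℝ) :
    HasDerivAt (fun t => U μ (D.s (γ t)) ξ) (UR G μ (D.s (γ t)) (L X)) t := by
  have h0 : γ 0 = 1 := one_zero Q γ hγ
  have hk0 : C.κ (γ 0) = 0 := by rw [h0, C.map_one]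
  have h1 : HasDerivAt (fun t => U μ (D.s (C.κ.symm (C.κ (γ t)))) ξ) (L X) 0 := by
    have hL' : HasFDerivAt (fun a : E => U μ (D.s (C.κ.symm a)) ξ) L (C.κ (γ 0)) := by
      rw [hk0]; exact hL
    exact hL'.comp_hasDerivAt (0 : ℝ) hd
  have h2 : ∀ᶠ t in 𝓝 (0 : ℝ), γ t ∈ C.κ.source := by
    apply hγ.1.continuousAt.eventually_mem
    rw [h0]
    exact C.κ.open_source.mem_nhds C.one_mem
  have h3 : HasDerivAt (fun t => U μ (D.s (γ t)) ξ) (L X) 0 := by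
    refine h1.congr_of_eventuallyEq ?_
    filter_upwards [h2] with s hs
    rw [C.κ.left_inv hs]
  obtain ⟨-, -, -, -, -, -, -, hmul, -⟩ := hV D
  -- translation
  have h4 : (fun s => U μ (D.s (γ s)) ξ) =
      fun s => UR G μ (D.s (γ t)) (U μ (D.s (γ (s - t))) ξ) := by
    funext s
    rw [UR_apply, ← hmul ξ hξ, ← hγ.2, sub_add_cancel]
  rw [h4]
  have h6 : HasDerivAt (fun s => U μ (D.s (γ (s - t))) ξ) (L X) t := by
    have h3' : HasDerivAt (fun t => U μ (D.s (γ t)) ξ) (L X) (t - t) := by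
      rw [sub_self]; exact h3
    exact HasDerivAt.comp_sub_const t t h3'
  exact (UR G μ (D.s (γ t))).hasFDerivAt.comp_hasDerivAt t h6

end TDIR

open TDIR in
theorem t3_DIR : S_CC G μ → S_PE1 → S3_V G μ Q → S3_SUPD G μ → S3_SM3 G μ Q E →
    S3_P1 G μ Q E → S3_P2 G μ Q E → S_OPS Q E → S3_DIR G μ Q E := by
  intro hCC hPE1 hV hSUPD hSM3 hP1 hP2 hOPS D C A hA hS X hX
  obtain ⟨γ, hγ, hd⟩ := hOPS C X
  -- a nontrivial point
  obtain ⟨t0, ht0⟩ : ∃ t0, γ t0 ≠ 1 := by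
    by_contra hcon
    push Not at hcon
    apply hX
    have h1 : (fun t => C.κ (γ t)) = fun _ => (0 : E) := by
      funext t; rw [hcon t, C.map_one]
    rw [h1] at hd
    exact hd.unique (hasDerivAt_const 0 (0 : E))
  have hVD := hV D
  obtain ⟨hV1, -, hV3, -, -, -, -, hV8, hV9⟩ := hVD
  have hx0 : D.s (γ t0) ∉ D.N := by
    intro hmem
    obtain ⟨h, he⟩ := (hV1 _).1 hmem
    obtain ⟨h', he'⟩ := hV3 (γ t0)
    exact ht0 (he'.symm.trans he)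
  obtain ⟨v, hvA, hvc, hvi, hvs, hvne⟩ :=
    exists_v G μ Q E hCC hSUPD hSM3 D C A hA hS (D.s (γ t0)) hx0
  set ξ := cl μ v with hξ
  have hf0 : U μ (D.s (C.κ.symm 0)) ξ = ξ := by
    have : C.κ.symm 0 = 1 := by
      rw [← C.map_one]; exact C.κ.left_inv C.one_mem
    rw [this]; exact hV9 ξ hvs.1
  have hvs' := hvs
  obtain ⟨hvN, L, B, hLB⟩ := hvs
  have hL : HasFDerivAt (fun a : E => U μ (D.s (C.κ.symm a)) ξ) L 0 :=
    hPE1.2.2.2 E (HH μ) _ L B hLB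
  -- the derivative is not zero
  have hLX : L X ≠ 0 := by
    intro hz
    apply hvne
    have hdd := orbit G μ Q E hV D C X γ hγ hd ξ hvN L hL
    have hconst := is_const_of_deriv_eq_zero (𝕜 := ℝ) (f := fun t => U μ (D.s (γ t)) ξ)
      (fun t => (hdd t).differentiableAt) (fun t => by
        rw [(hdd t).deriv, hz, map_zero]) t0 0
    rw [hconst, one_zero Q γ hγ]
    exact hV9 ξ hvN
  have hξ0 : ξ ≠ 0 := by
    intro h0
    apply hvne
    rw [h0, map_zero]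
  have hN : 0 < ‖ξ‖ ^ 2 := by
    have := norm_pos_iff.mpr hξ0
    positivity
  have hφ0 := hP2 D C A hA v hvA hvc hvs' hξ0
  set φ0 : G → ℂ := (((‖ξ‖ ^ 2 : ℝ) : ℂ)⁻¹) • mc μ ξ ξ with hφ0def
  obtain ⟨hmul, hcvx, -⟩ := hP1 D C A hA
  refine ⟨_, hcvx φ0 (φ0 * φ0) (1 / 2) hφ0 (hmul _ _ hφ0 hφ0) (by norm_num) (by norm_num), ?_⟩
  -- the identity for the real part
  have hre : ∀ x : G, 2 * ‖ξ‖ ^ 2 * (1 - (φ0 x).re) = ‖U μ x ξ - ξ‖ ^ 2 := by
    intro x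
    have h1 : (φ0 x).re = (‖ξ‖ ^ 2)⁻¹ * (⟪ξ, U μ x ξ⟫_ℂ).re := by
      rw [hφ0def, Pi.smul_apply, smul_eq_mul, ← Complex.ofReal_inv, Complex.re_ofReal_mul]
      rfl
    have h2 := @norm_sub_sq ℂ (HH μ) _ _ _ (U μ x ξ) ξ
    rw [LinearIsometry.norm_map] at h2
    have h3 : RCLike.re ⟪U μ x ξ, ξ⟫_ℂ = (⟪ξ, U μ x ξ⟫_ℂ).re := by
      exact inner_re_symm (𝕜 := ℂ) _ _
    rw [h2, h3, h1]
    field_simp
    ring
  -- lower bound for the distance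
  have hlow : ∀ᶠ t in 𝓝 (0 : ℝ),
      ‖L X‖ / 2 * |t| ≤ ‖U μ (D.s (C.κ.symm (t • X))) ξ - ξ‖ := by
    have hline : HasDerivAt (fun t : ℝ => U μ (D.s (C.κ.symm (t • X))) ξ) (L X) 0 := by
      have hs : HasDerivAt (fun t : ℝ => t • X) X 0 := by
        simpa using (hasDerivAt_id (0 : ℝ)).smul_const X
      have hL' : HasFDerivAt (fun a : E => U μ (D.s (C.κ.symm a)) ξ) L ((0 : ℝ) • X) := by
        rw [zero_smul]; exact hL
      exact hL'.comp_hasDerivAt (0 : ℝ) hs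
    rw [hasDerivAt_iff_isLittleO] at hline
    have hpos : 0 < ‖L X‖ / 2 := by
      have := norm_pos_iff.mpr hLX
      positivity
    have h1 := hline.def hpos
    filter_upwards [h1] with t ht
    simp only [zero_smul, sub_zero, Real.norm_eq_abs] at ht
    rw [hf0] at ht
    have h2 : ‖t • L X‖ ≤ ‖U μ (D.s (C.κ.symm (t • X))) ξ - ξ‖ +
        ‖U μ (D.s (C.κ.symm (t • X))) ξ - ξ - t • L X‖ := by
      have e : t • L X = (U μ (D.s (C.κ.symm (t • X))) ξ - ξ) -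
          (U μ (D.s (C.κ.symm (t • X))) ξ - ξ - t • L X) := by abel
      calc ‖t • L X‖ = ‖(U μ (D.s (C.κ.symm (t • X))) ξ - ξ) -
          (U μ (D.s (C.κ.symm (t • X))) ξ - ξ - t • L X)‖ := by rw [← e]
        _ ≤ _ := norm_sub_le _ _
    rw [norm_smul, Real.norm_eq_abs] at h2
    nlinarith
  refine ⟨‖L X‖ ^ 2 / (32 * ‖ξ‖ ^ 2), ?_, ?_⟩
  · have := norm_pos_iff.mpr hLX
    positivity
  · filter_upwards [hlow] with t ht
    have h1 := hre (D.s (C.κ.symm (t • X)))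
    have h2 : (‖L X‖ / 2 * |t|) ^ 2 ≤ ‖U μ (D.s (C.κ.symm (t • X))) ξ - ξ‖ ^ 2 := by
      have : 0 ≤ ‖L X‖ / 2 * |t| := by positivity
      exact pow_le_pow_left₀ this ht 2
    have h3 : 4 * (‖L X‖ ^ 2 / (32 * ‖ξ‖ ^ 2) * t ^ 2) ≤
        1 - (φ0 (D.s (C.κ.symm (t • X)))).re := by
      rw [← h1, mul_pow, sq_abs] at h2
      have h4 : 4 * (‖L X‖ ^ 2 / (32 * ‖ξ‖ ^ 2) * t ^ 2) =
          ((‖L X‖ / 2) ^ 2 * t ^ 2) / (2 * ‖ξ‖ ^ 2) := by
        field_simp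
        ring
      rw [h4, div_le_iff₀ (by positivity)]
      linarith
    have h5 := est (φ0 (D.s (C.κ.symm (t • X)))) (hφ0.2.2.2.1 _)
      (‖L X‖ ^ 2 / (32 * ‖ξ‖ ^ 2) * t ^ 2) h3
    exact h5

end B

end

end Pool.Agent.W660.FG
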