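import Pool.Agent.W660.FG.Stm

/-! FG project: existence of the normalised Haar measure of a compact subgroup. -/

set_option autoImplicit false

namespace Pool.Agent.W660.FG

open Pool.Agent.W660.FL
open MeasureTheory Complex Filter Topology
open scoped ComplexConjugate InnerProductSpace Manifold ContDiff

namespace THM

/-- uniqueness of invariant probability measures on compact groups -/
theorem uniq {K : Type} [Group K] [TopologicalSpace K] [IsTopologicalGroup K] [CompactSpace K]
    [MeasurableSpace K] [BorelSpace K] (μ' ν : Measure K) [ν.IsHaarMeasure]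
    [IsProbabilityMeasure ν] [μ'.IsMulLeftInvariant] [IsProbabilityMeasure μ'] : μ' = ν := by
  have h := Measure.isMulInvariant_eq_smul_of_compactSpace μ' ν
  have Z : μ' Set.univ = (Measure.haarScalarFactor μ' ν • ν) Set.univ := by rw [← h]
  rw [measure_univ, Measure.smul_apply, measure_univ] at Z
  simp only [ENNReal.smul_def, smul_eq_mul, mul_one, ENNReal.one_eq_coe] at Z
  rw [h, ← Z, one_smul]

/-- a probability measure on a compact group invariant under all translations and inversion -/
theorem ex (K : Type) [Group K] [TopologicalSpace K] [IsTopologicalGroup K] [CompactSpace K]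
    [MeasurableSpace K] [BorelSpace K] :
    ∃ ν : Measure K, IsProbabilityMeasure ν ∧ (∀ l : K, ν.map (fun x => l * x) = ν) ∧
      (∀ l : K, ν.map (fun x => x * l) = ν) ∧ ν.map (fun x => x⁻¹) = ν := by
  let ν : Measure K := Measure.haarMeasure ⊤
  have hP : IsProbabilityMeasure ν := ⟨by
    have := Measure.haarMeasure_self (K₀ := (⊤ : TopologicalSpace.PositiveCompacts K))
    rw [TopologicalSpace.PositiveCompacts.coe_top] at this
    exact this⟩
  have hl : ∀ l : K, ν.map (fun x => l * x) = ν := fun l => map_mul_left_eq_self ν l
  have hr : ∀ l : K, ν.map (fun x => x * l) = ν := by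
    intro l
    have h1 : IsProbabilityMeasure (ν.map (fun x => x * l)) :=
      Measure.isProbabilityMeasure_map (measurable_mul_const l).aemeasurable
    have h2 : (ν.map (fun x => x * l)).IsHaarMeasure := Measure.isHaarMeasure_map_mul_right ν l
    exact uniq _ ν
  have hR : ν.IsMulRightInvariant := ⟨fun l => hr l⟩
  refine ⟨ν, hP, hl, hr, ?_⟩
  have h1 : IsProbabilityMeasure ν.inv :=
    Measure.isProbabilityMeasure_map measurable_inv.aemeasurable
  exact uniq ν.inv ν

end THM

theorem t3_HM (G : Type) [Group G] [TopologicalSpace G] [IsTopologicalGroup G] [T2Space G]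
    [MeasurableSpace G] [BorelSpace G] : S3_HM G := by
  intro L hL
  have : CompactSpace L := isCompact_iff_compactSpace.mp hL
  obtain ⟨ν, hP, hl, hr, hi⟩ := THM.ex L
  have hv : Measurable (Subtype.val : L → G) := measurable_subtype_coe
  refine ⟨ν.map Subtype.val, ?_, ?_, ?_, ?_, ?_⟩
  · exact Measure.isProbabilityMeasure_map hv.aemeasurable
  · rw [Measure.map_apply hv hL.isClosed.measurableSet.compl]
    have : (Subtype.val : L → G) ⁻¹' (L : Set G)ᶜ = ∅ := by
      ext x
      simp
    rw [this, measure_empty]
  · intro l hl'
    rw [Measure.map_map (measurable_const_mul l) hv]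
    have : (fun x => l * x) ∘ (Subtype.val : L → G) =
        (Subtype.val : L → G) ∘ fun x => (⟨l, hl'⟩ : L) * x := rfl
    rw [this, ← Measure.map_map hv (measurable_const_mul _), hl]
  · intro l hl'
    rw [Measure.map_map (measurable_mul_const l) hv]
    have : (fun x => x * l) ∘ (Subtype.val : L → G) =
        (Subtype.val : L → G) ∘ fun x => x * (⟨l, hl'⟩ : L) := rfl
    rw [this, ← Measure.map_map hv (measurable_mul_const _), hr]
  · rw [Measure.map_map measurable_inv hv]
    have : (fun x => x⁻¹) ∘ (Subtype.val : L → G) =
        (Subtype.val : L → G) ∘ fun x => x⁻¹ := rfl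
    rw [this, ← Measure.map_map hv measurable_inv, hi]

end Pool.Agent.W660.FG
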