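import Pool.Agent.W660.FG.Stm

/-!
Project FG, part IDENT: averages along a one-parameter subgroup of the quotient.
-/

namespace Pool.Agent.W660.FG

open Pool.Agent.W660.FL
open MeasureTheory Complex Filter Topology
open scoped ComplexConjugate InnerProductSpace Manifold ContDiff

noncomputable section

section A

variable (G : Type) [Group G] [TopologicalSpace G] [IsTopologicalGroup G] [T2Space G]
  [LocallyCompactSpace G] [MeasurableSpace G] [BorelSpace G]
  (μ : Measure G) [μ.IsHaarMeasure]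
  (Q : Type) [Group Q] [TopologicalSpace Q] [IsTopologicalGroup Q] [T2Space Q]

namespace TIDENT

variable {G} {μ} {Q}

theorem bound {u : G → ℂ} (hu : Cc u) : ∃ K : ℝ, 0 ≤ K ∧ ∀ x, ‖u x‖ ≤ K := by
  obtain ⟨K, hK⟩ := hu.2.exists_bound_of_continuous hu.1
  exact ⟨max K 0, le_max_right _ _, fun x => (hK x).trans (le_max_left _ _)⟩

/-- uniform continuity -/
theorem unif {u : G → ℂ} (hu : Cc u) (ε : ℝ) (hε : 0 < ε) (y0 : G) :
    ∀ᶠ y in 𝓝 y0, ∀ x, ‖u (x * y) - u (x * y0)‖ ≤ ε := by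
  have h1 : @UniformContinuous G ℂ (IsTopologicalGroup.leftUniformSpace G) _ u :=
    @HasCompactSupport.uniformContinuous_of_continuous G ℂ (IsTopologicalGroup.leftUniformSpace G)
      _ u _ hu.2 hu.1
  have h2 := h1 (Metric.dist_mem_uniformity hε)
  rw [mem_map] at h2
  obtain ⟨V, hV, hVs⟩ := h2
  have h3 : ∀ᶠ y in 𝓝 y0, y0⁻¹ * y ∈ V := by
    have h4 : Tendsto (fun y : G => y0⁻¹ * y) (𝓝 y0) (𝓝 1) := by
      have h5 : Continuous (fun y : G => y0⁻¹ * y) := continuous_const.mul continuous_id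
      have h6 := h5.tendsto y0
      simpa using h6
    exact h4 hV
  filter_upwards [h3] with y hy x
  have h4 : (x * y0)⁻¹ * (x * y) ∈ V := by
    have h5 : (x * y0)⁻¹ * (x * y) = y0⁻¹ * y := by group
    rw [h5]
    exact hy
  have h5 : ((x * y0, x * y) : G × G) ∈ (fun p : G × G => p.1⁻¹ * p.2) ⁻¹' V := h4
  have h6 := hVs h5
  have h7 : dist (u (x * y0)) (u (x * y)) < ε := h6
  rw [dist_comm, dist_eq_norm] at h7
  exact h7.le

/-- integrability -/
theorem int1 {u : G → ℂ} (hu : Cc u) {σ : ℝ → G} (hσ : ∀ y, Continuous fun r => u (σ r * y))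
    {f : ℝ → ℂ} (hf : Integrable f) (y : G) : Integrable fun r : ℝ => f r * u (σ r * y) := by
  obtain ⟨K, hK0, hK⟩ := bound hu
  refine Integrable.mono' (hf.norm.mul_const K) (hf.1.mul (hσ y).aestronglyMeasurable) ?_
  filter_upwards with r
  rw [norm_mul]
  exact mul_le_mul_of_nonneg_left (hK _) (norm_nonneg _)

/-- the function `h y = ∫ f r * u (σ r * y) dr` is continuous -/
theorem hcont {u : G → ℂ} (hu : Cc u) {σ : ℝ → G} (hσ : ∀ y, Continuous fun r => u (σ r * y))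
    {f : ℝ → ℂ} (hf : Integrable f) : Continuous fun y : G => ∫ r : ℝ, f r * u (σ r * y) := by
  rw [continuous_iff_continuousAt]
  intro y0
  have hI : 0 ≤ ∫ r, ‖f r‖ := integral_nonneg (fun r => norm_nonneg _)
  rw [ContinuousAt, Metric.tendsto_nhds]
  intro ε hε
  have hδ : 0 < ε / ((∫ r, ‖f r‖) + 1) := by positivity
  filter_upwards [unif hu _ hδ y0] with y hy
  rw [dist_eq_norm, ← integral_sub (int1 hu hσ hf y) (int1 hu hσ hf y0)]
  have h1 : ‖∫ r : ℝ, (f r * u (σ r * y) - f r * u (σ r * y0))‖ ≤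
      ∫ r : ℝ, ‖f r‖ * (ε / ((∫ r, ‖f r‖) + 1)) := by
    refine norm_integral_le_of_norm_le (hf.norm.mul_const _) ?_
    filter_upwards with r
    rw [← mul_sub, norm_mul]
    exact mul_le_mul_of_nonneg_left (hy _) (norm_nonneg _)
  refine lt_of_le_of_lt h1 ?_
  rw [integral_mul_const, mul_div_assoc', div_lt_iff₀ (by positivity)]
  nlinarith

/-- Fubini -/
theorem fub (hcc : S_CC G μ) {u v : G → ℂ} (hu : Cc u) (hv : Cc v) {σ : ℝ → G}
    (hσ : Continuous fun z : ℝ × G => u (σ z.1 * z.2)) {f : ℝ → ℂ} (hf : Integrable f) :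
    ∫ r : ℝ, f r * ∫ y, conj (v y) * u (σ r * y) ∂μ =
      ∫ y, conj (v y) * (∫ r : ℝ, f r * u (σ r * y)) ∂μ := by
  obtain ⟨K, hK0, hK⟩ := bound hu
  have hT : IsCompact (tsupport v) := hv.2
  have hfin : IsFiniteMeasure (μ.restrict (tsupport v)) :=
    ⟨by rw [Measure.restrict_apply_univ]; exact hT.measure_lt_top⟩
  have hvi : Integrable v (μ.restrict (tsupport v)) := (hcc.1 v hv).2.restrict
  have hr : ∀ F : G → ℂ, ∫ y, conj (v y) * F y ∂μ =
      ∫ y in tsupport v, conj (v y) * F y ∂μ := by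
    intro F
    symm
    apply setIntegral_eq_integral_of_forall_compl_eq_zero
    intro y hy
    rw [image_eq_zero_of_notMem_tsupport hy, map_zero, zero_mul]
  have hint : Integrable (fun z : ℝ × G => f z.1 * (conj (v z.2) * u (σ z.1 * z.2)))
      (volume.prod (μ.restrict (tsupport v))) := by
    have hb : Integrable (fun z : ℝ × G => ‖f z.1‖ * (‖v z.2‖ * K))
        (volume.prod (μ.restrict (tsupport v))) :=
      hf.norm.mul_prod (hvi.norm.mul_const K)
    refine Integrable.mono' hb ?_ ?_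
    · have h1 : Continuous fun z : ℝ × G => conj (v z.2) * u (σ z.1 * z.2) := by
        have h2 : Continuous fun z : ℝ × G => v z.2 := hv.1.comp continuous_snd
        exact (Complex.continuous_conj.comp h2).mul hσ
      exact (hf.1.comp_fst).mul h1.aestronglyMeasurable
    · filter_upwards with z
      rw [norm_mul, norm_mul, RCLike.norm_conj]
      gcongr
      exact hK _
  have h1 : ∫ r : ℝ, f r * ∫ y, conj (v y) * u (σ r * y) ∂μ =
      ∫ r : ℝ, ∫ y in tsupport v, f r * (conj (v y) * u (σ r * y)) ∂μ := by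
    apply integral_congr_ae
    filter_upwards with r
    rw [integral_const_mul, hr]
  have h2 : ∫ y, conj (v y) * (∫ r : ℝ, f r * u (σ r * y)) ∂μ =
      ∫ y in tsupport v, (∫ r : ℝ, f r * (conj (v y) * u (σ r * y))) ∂μ := by
    rw [hr]
    apply integral_congr_ae
    filter_upwards with y
    rw [← integral_const_mul]
    apply integral_congr_ae
    filter_upwards with r
    ring
  rw [h1, h2]
  exact integral_integral_swap hint

theorem integ (ξ : HH μ) {σ : ℝ → G} (hσ : Continuous fun r => U μ (σ r) ξ) {f : ℝ → ℂ}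
    (hf : Integrable f) : Integrable (fun r : ℝ => f r • U μ (σ r) ξ) := by
  refine Integrable.mono' (hf.norm.mul_const ‖ξ‖) (hf.1.smul hσ.aestronglyMeasurable) ?_
  filter_upwards with r
  rw [norm_smul, LinearIsometry.norm_map]

/-- the inner products with the classes of functions in `Cc` -/
theorem inn (hcc : S_CC G μ) {u v : G → ℂ} (hu : Cc u) (hv : Cc v) {σ : ℝ → G}
    (hσ : Continuous fun z : ℝ × G => u (σ z.1 * z.2))
    (hσ' : Continuous fun r => U μ (σ r) (cl μ u)) {f : ℝ → ℂ} (hf : Integrable f) :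
    ⟪cl μ v, ∫ r : ℝ, f r • U μ (σ r) (cl μ u)⟫_ℂ =
      ∫ y, conj (v y) * (∫ r : ℝ, f r * u (σ r * y)) ∂μ := by
  rw [← fub hcc hu hv hσ hf, ← integral_inner (integ (cl μ u) hσ' hf)]
  apply integral_congr_ae
  filter_upwards with r
  have h1 := hcc.2.2.2.1 u hu (σ r)
  rw [inner_smul_right, h1.2.2, hcc.2.2.2.2.1 _ v h1.1 hv]

end TIDENT

open TIDENT in
theorem t3_IDENT : S_CC G μ → S3_HM G → S3_AV G μ → S3_V G μ Q → S3_VF G Q →
    S3_IDENT G μ Q := by
  intro hcc hHM hAV hV hVF D u hu hinv γ hγ f hf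
  obtain ⟨m, hm⟩ := hHM D.N D.cpt
  have hcl : cl μ u ∈ HN μ D.N := ((hAV D.N D.cpt m hm).2.2.2.2 u hu).1 hinv
  have hσ : Continuous fun z : ℝ × G => u (D.s (γ z.1) * z.2) :=
    ((hVF D).1 u hu.1 hinv).comp ((hγ.1.comp continuous_fst).prodMk continuous_snd)
  have hσy : ∀ y, Continuous fun r => u (D.s (γ r) * y) := fun y =>
    hσ.comp (continuous_id.prodMk continuous_const)
  have hσ' : Continuous fun r => U μ (D.s (γ r)) (cl μ u) :=
    ((hV D).2.2.2.2.2.2.1 (cl μ u) hcl).comp hγ.1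
  refine ⟨integ (cl μ u) hσ' hf, ?_, ?_⟩
  · intro h0 y0
    by_contra hne
    have hc := hcont (G := G) hu hσy hf
    obtain ⟨χ, hχ1, hχ2, hχ3⟩ := exists_continuous_nonneg_pos (X := G) y0
    set h : G → ℂ := fun y => ∫ r : ℝ, f r * u (D.s (γ r) * y) with hh
    have hv : Cc (fun y => ((χ y : ℝ) : ℂ) * h y) := by
      refine ⟨(Complex.continuous_ofReal.comp χ.continuous).mul hc, ?_⟩
      have h1 : HasCompactSupport fun y : G => ((χ y : ℝ) : ℂ) :=
        hχ1.comp_left (g := fun t : ℝ => (t : ℂ)) Complex.ofReal_zero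
      exact h1.mul_right
    have h1 := inn hcc hu hv hσ hσ' hf
    rw [h0, inner_zero_right] at h1
    have h2 : ∫ y, conj (((χ y : ℝ) : ℂ) * h y) * (∫ r : ℝ, f r * u (D.s (γ r) * y)) ∂μ =
        ((∫ y, χ y * ‖h y‖ ^ 2 ∂μ : ℝ) : ℂ) := by
      rw [← integral_complex_ofReal]
      apply integral_congr_ae
      filter_upwards with y
      show conj (((χ y : ℝ) : ℂ) * h y) * h y = ((χ y * ‖h y‖ ^ 2 : ℝ) : ℂ)
      rw [map_mul, Complex.conj_ofReal, mul_assoc, Complex.conj_mul']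
      push_cast
      ring
    rw [h2] at h1
    have h3 : ∫ y, χ y * ‖h y‖ ^ 2 ∂μ = 0 := by
      exact_mod_cast h1.symm
    have h4 : Continuous fun y => χ y * ‖h y‖ ^ 2 := χ.continuous.mul (hc.norm.pow 2)
    have h5 : HasCompactSupport fun y => χ y * ‖h y‖ ^ 2 := hχ1.mul_right
    have h6 : 0 < ∫ y, χ y * ‖h y‖ ^ 2 ∂μ := by
      apply h4.integral_pos_of_hasCompactSupport_nonneg_nonzero (x := y0) h5
      · intro y
        exact mul_nonneg (hχ2 y) (by positivity)
      · have h7 : h y0 ≠ 0 := hne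
        have h8 : ‖h y0‖ ≠ 0 := norm_ne_zero_iff.2 h7
        positivity
    linarith
  · intro g hg
    set I : HH μ := ∫ r : ℝ, f r • U μ (D.s (γ r)) (cl μ u) with hI
    have h1 : ∀ v : G → ℂ, Cc v → ⟪cl μ v, I - U μ g (cl μ u)⟫_ℂ = 0 := by
      intro v hv
      have h2 := hcc.2.2.2.1 u hu g
      rw [inner_sub_right, hI, inn hcc hu hv hσ hσ' hf, h2.2.2, hcc.2.2.2.2.1 _ v h2.1 hv,
        sub_eq_zero]
      apply integral_congr_ae
      filter_upwards with y
      rw [hg y]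
    rw [← sub_eq_zero, ← norm_le_zero_iff]
    set ζ : HH μ := I - U μ g (cl μ u) with hζ
    apply le_of_forall_pos_le_add
    intro ε hε
    rw [zero_add]
    obtain ⟨v, hv, hvε⟩ := hcc.2.2.2.2.2.2 ζ ε hε
    by_contra hcon
    push Not at hcon
    have h3 : ⟪ζ, ζ⟫_ℂ = ⟪ζ - cl μ v, ζ⟫_ℂ := by
      rw [show ⟪ζ - cl μ v, ζ⟫_ℂ = ⟪ζ, ζ⟫_ℂ - ⟪cl μ v, ζ⟫_ℂ from inner_sub_left _ _ _, h1 v hv,
        sub_zero]
    have h4 : ‖ζ‖ ^ 2 ≤ ε * ‖ζ‖ := by
      calc ‖ζ‖ ^ 2 = ‖⟪ζ, ζ⟫_ℂ‖ := by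
            rw [inner_self_eq_norm_sq_to_K]
            simp
        _ = ‖⟪ζ - cl μ v, ζ⟫_ℂ‖ := by rw [h3]
        _ ≤ ‖ζ - cl μ v‖ * ‖ζ‖ := norm_inner_le_norm _ _
        _ ≤ ε * ‖ζ‖ := mul_le_mul_of_nonneg_right hvε (norm_nonneg _)
    nlinarith [norm_nonneg ζ]

end A

end

end Pool.Agent.W660.FG
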