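import Pool.Agent.W660.FG.Stm

/-!
Project FG, part NE: existence of normalised functions.
-/

namespace Pool.Agent.W660.FG

open Pool.Agent.W660.FL
open MeasureTheory Complex Filter Topology
open scoped ComplexConjugate InnerProductSpace Manifold ContDiff

noncomputable section

variable (G : Type) [Group G] [TopologicalSpace G] [IsTopologicalGroup G] [T2Space G]
  [LocallyCompactSpace G] [MeasurableSpace G] [BorelSpace G]
  (μ : Measure G) [μ.IsHaarMeasure]
  (Q : Type) [Group Q] [TopologicalSpace Q] [IsTopologicalGroup Q] [T2Space Q]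
  (E : Type) [NormedAddCommGroup E] [NormedSpace ℝ E] [FiniteDimensional ℝ E]

theorem t3_NE (hCC : S_CC G μ) (hS : S3_SUPD G μ) (h3 : S3_SM3 G μ Q E) (hP : S3_P2 G μ Q E) :
    S3_NE G μ Q E := by
  intro D C A hA hSep
  obtain ⟨u, huA, huI, hu0⟩ := hSep.2
  obtain ⟨x0, hx0⟩ : ∃ x, u x ≠ 0 := by
    by_contra h
    push Not at h
    exact hu0 (funext h)
  have hpos : 0 < ‖u x0‖ := norm_pos_iff.2 hx0
  obtain ⟨w, hwA, hwC, hwI, hw⟩ := hS A hA D.N D.cpt u huA huI (‖u x0‖ / 4) (by positivity)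
  obtain ⟨v, hvA, hvC, hvI, hvS, hvw, -⟩ := h3 D C A hA w hwA hwC hwI (‖u x0‖ / 4) (by positivity)
  have hv0 : v x0 ≠ 0 := by
    intro h
    have h1 := hw x0
    have h2 := hvw x0
    rw [h, sub_zero] at h2
    have h4 : ‖u x0‖ ≤ ‖u x0 - w x0‖ + ‖w x0‖ := by
      calc ‖u x0‖ = ‖(u x0 - w x0) + w x0‖ := by rw [sub_add_cancel]
        _ ≤ _ := norm_add_le _ _
    linarith
  have hcl : cl μ v ≠ 0 := by
    intro h
    obtain ⟨-, -, hc3, -, -, hc6, -⟩ := hCC
    obtain ⟨h5, h6⟩ := hc3 0 v hvC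
    have h7 : v = (0 : ℂ) • v := hc6 v ((0 : ℂ) • v) hvC h5 (by rw [h6, h, smul_zero])
    apply hv0
    have h8 := congrFun h7 x0
    simpa using h8
  exact ⟨_, hP D C A hA v hvA hvC hvS hcl⟩

end

end Pool.Agent.W660.FG
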