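import Pool.Agent.W660.FG.Stm

/-!
Project FG, part NOPOS: no direction is positive (general locally compact group).
-/

namespace Pool.Agent.W660.FG

open Pool.Agent.W660.FL
open MeasureTheory Complex Filter Topology
open scoped ComplexConjugate InnerProductSpace Manifold ContDiff

namespace TNOPOS

theorem normSq_eq (r : ℝ) (a : ℂ) : ‖((r : ℂ) - a)⁻¹ ^ 2‖ = ((r - a.re) ^ 2 + a.im ^ 2)⁻¹ := by
  rw [norm_pow, norm_inv, inv_pow, Complex.sq_norm, Complex.normSq_apply]
  congr 1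
  simp only [Complex.sub_re, Complex.ofReal_re, Complex.sub_im, Complex.ofReal_im]
  ring

theorem integrable_kernel (a : ℂ) (ha : a.im < 0) :
    Integrable (fun r : ℝ => ((r : ℂ) - a)⁻¹ ^ 2) := by
  have hne : a.im ≠ 0 := ha.ne
  have h1 : Integrable (fun r : ℝ => (1 + ((r - a.re) / a.im) ^ 2)⁻¹) := by
    have h2 : Integrable (fun r : ℝ => (1 + (r / a.im) ^ 2)⁻¹) :=
      integrable_inv_one_add_sq.comp_div hne
    exact h2.comp_sub_right a.re
  have h3 : Integrable (fun r : ℝ => (a.im ^ 2)⁻¹ * (1 + ((r - a.re) / a.im) ^ 2)⁻¹) :=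
    h1.const_mul _
  refine h3.mono' ?_ (Filter.Eventually.of_forall (fun r => ?_))
  · have hc : Continuous (fun r : ℝ => ((r : ℂ) - a)⁻¹ ^ 2) := by
      refine (Continuous.inv₀ (by fun_prop) ?_).pow 2
      intro r hr
      have h4 := congrArg Complex.im hr
      simp only [Complex.sub_im, Complex.ofReal_im, Complex.zero_im] at h4
      exact hne (by linarith)
    exact hc.aestronglyMeasurable
  · rw [normSq_eq]
    apply le_of_eq
    rw [← mul_inv]
    congr 1
    field_simp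
    ring

/-- `S_MONO` transported along an isometric embedding -/
theorem mono_embed (hMONO : S_MONO) {K H : Type} [NormedAddCommGroup K] [InnerProductSpace ℂ K]
    [CompleteSpace K] [NormedAddCommGroup H] [InnerProductSpace ℂ H] [CompleteSpace H]
    (ι : K →ₗᵢ[ℂ] H) (V : ℝ → K →L[ℂ] K) (W : ℝ → H → H)
    (hW : ∀ t x, ι (V t x) = W t (ι x)) (h1 : ∀ t x, ‖W t (ι x)‖ = ‖ι x‖)
    (h2 : ∀ s t x, W (s + t) (ι x) = W s (W t (ι x))) (h3 : ∀ x, Continuous fun t => W t (ι x))
    (u u' : K) (hd : HasDerivAt (fun t : ℝ => W t (ι u)) (ι u') 0)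
    (hp : ∀ (n : ℕ) (c : Fin n → ℂ) (r : Fin n → ℝ),
      0 ≤ (-Complex.I * ⟪∑ j, c j • W (r j) (ι u), ∑ j, c j • W (r j) (ι u')⟫_ℂ).re)
    (a : ℂ) (ha : a.im < 0) : ∫ r : ℝ, ((r : ℂ) - a)⁻¹ ^ 2 • W r (ι u) = 0 := by
  have h0 := hMONO K V
    (fun t x => by rw [← ι.norm_map, hW, h1, ι.norm_map])
    (fun s t x => by
      apply ι.injective
      rw [hW, hW, hW, h2])
    (fun x => by
      rw [ι.isometry.isEmbedding.continuous_iff]
      have h4 : (ι ∘ fun t => V t x) = fun t => W t (ι x) := by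
        funext t
        exact hW t x
      rw [h4]
      exact h3 x)
    u u'
    (by
      rw [hasDerivAt_iff_isLittleO] at hd ⊢
      rw [← Asymptotics.isLittleO_norm_left] at hd ⊢
      refine hd.congr_left (fun t => ?_)
      rw [← hW, ← hW, ← ι.norm_map]
      congr 1
      simp only [map_sub]
      congr 1
      rw [← Complex.coe_smul, ← Complex.coe_smul, map_smul])
    (fun n c r => by
      have h4 := hp n c r
      rw [← ι.inner_map_map]
      simp only [map_sum, map_smul, hW]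
      exact h4) a ha
  have h5 := LinearIsometry.integral_comp_comm (𝕜 := ℂ) (μ := (volume : Measure ℝ)) ι
    (fun r : ℝ => ((r : ℂ) - a)⁻¹ ^ 2 • V r u)
  rw [h0, map_zero] at h5
  rw [← h5]
  refine integral_congr_ae (Filter.Eventually.of_forall (fun r => ?_))
  simp only [map_smul, hW]

section

variable {G : Type} [Group G] [TopologicalSpace G] [IsTopologicalGroup G]
  [MeasurableSpace G] [BorelSpace G] (μ : Measure G) [μ.IsMulLeftInvariant]

/-- the closed subspace of `L`-invariant vectors -/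
def HNs (L : Subgroup G) : Submodule ℂ (HH μ) where
  carrier := HN μ L
  add_mem' := by
    intro a b ha hb l hl
    rw [map_add, ha l hl, hb l hl]
  zero_mem' := by
    intro l hl
    exact map_zero _
  smul_mem' := by
    intro c a ha l hl
    rw [map_smul, ha l hl]

theorem isClosed_HNs (L : Subgroup G) : IsClosed ((HNs μ L : Submodule ℂ (HH μ)) : Set (HH μ)) := by
  have h : ((HNs μ L : Submodule ℂ (HH μ)) : Set (HH μ)) =
      ⋂ l ∈ (L : Set G), {ξ : HH μ | U μ l ξ = ξ} := by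
    ext ξ
    simp only [Set.mem_iInter, Set.mem_ofPred_eq]
    rfl
  rw [h]
  refine isClosed_biInter fun l _ => ?_
  exact isClosed_eq (U μ l).continuous continuous_id

end

end TNOPOS

variable (G : Type) [Group G] [TopologicalSpace G] [IsTopologicalGroup G] [T2Space G]
  [LocallyCompactSpace G] [MeasurableSpace G] [BorelSpace G]
  (μ : Measure G) [μ.IsHaarMeasure]
  (Q : Type) [Group Q] [TopologicalSpace Q] [IsTopologicalGroup Q] [T2Space Q]
  (E : Type) [NormedAddCommGroup E] [NormedSpace ℝ E] [FiniteDimensional ℝ E]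

theorem t3_NOPOS : S3_V G μ Q → S_MONO → S3_SUPD G μ → S3_SM3 G μ Q E → S3_IDENT G μ Q →
    S3_POS G μ Q E → S3_CHI G μ Q → S_OPS Q E → S3_NOPOS G μ Q E := by
  intro hV hMONO hSUPD hSM3 hIDENT hPOS hCHI hOPS D C A hA hSep X hX hall
  obtain ⟨γ, hγ, hder⟩ := hOPS C X
  obtain ⟨-, -, hV3, -, -, hV6, hV7, hV8, -⟩ := hV D
  have hmem : ∀ (t : ℝ) (x : TNOPOS.HNs μ D.N),
      U μ (D.s (γ t)) (x : HH μ) ∈ TNOPOS.HNs μ D.N := by
    intro t x
    obtain ⟨h, -⟩ := hV3 (γ t)
    exact hV6 x x.2 _ h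
  have : CompleteSpace (TNOPOS.HNs μ D.N) := (TNOPOS.isClosed_HNs μ D.N).completeSpace_coe
  let V : ℝ → (TNOPOS.HNs μ D.N) →L[ℂ] (TNOPOS.HNs μ D.N) := fun t =>
    ((U μ (D.s (γ t))).toContinuousLinearMap.comp (TNOPOS.HNs μ D.N).subtypeL).codRestrict
      (TNOPOS.HNs μ D.N) (hmem t)
  have hcore : ∀ v ∈ A, Cc v → InvL D.N v → Sm3 μ D C (cl μ v) →
      ∀ y, Ana (fun r => v (D.s (γ r) * y)) := by
    intro v hv hcc hinv hsm y a ha
    obtain ⟨u', hu'N, hu', hpos⟩ := hPOS D C A hA X γ hγ hder hall v hv hcc hsm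
    have h1 := TNOPOS.mono_embed hMONO (TNOPOS.HNs μ D.N).subtypeₗᵢ V
      (fun t x => U μ (D.s (γ t)) x) (fun t x => rfl)
      (fun t x => (U μ (D.s (γ t))).norm_map _)
      (fun s t x => by
        show U μ (D.s (γ (s + t))) (x : HH μ) = U μ (D.s (γ s)) (U μ (D.s (γ t)) (x : HH μ))
        rw [add_comm, hγ.2]
        exact hV8 x x.2 _ _)
      (fun x => (hV7 x x.2).comp hγ.1)
      ⟨cl μ v, hsm.1⟩ ⟨u', hu'N⟩ hu' hpos a ha
    have h2 := (hIDENT D v hcc hinv γ hγ (fun r => ((r : ℂ) - a)⁻¹ ^ 2)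
      (TNOPOS.integrable_kernel a ha)).2.1 h1 y
    rw [← h2]
    refine integral_congr_ae (Filter.Eventually.of_forall (fun r => ?_))
    exact mul_comm _ _
  have hone : ∀ t, γ t = 1 := by
    refine hCHI D A hA hSep γ hγ (fun u hu huN ε hε => ?_)
    obtain ⟨w, hw, hwc, hwN, hwe⟩ := hSUPD A hA D.N D.cpt u hu huN (ε / 2) (half_pos hε)
    obtain ⟨v, hv, hvc, hvN, hvs, hve, -⟩ := hSM3 D C A hA w hw hwc hwN (ε / 2) (half_pos hε)
    refine ⟨v, hv, hvc, hvN, fun x => ?_, hcore v hv hvc hvN hvs⟩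
    calc ‖u x - v x‖ = ‖(u x - w x) + (w x - v x)‖ := by congr 1; ring
      _ ≤ ‖u x - w x‖ + ‖w x - v x‖ := norm_add_le _ _
      _ ≤ ε / 2 + ε / 2 := add_le_add (hwe x) (hve x)
      _ = ε := add_halves ε
  have hconst : (fun t => C.κ (γ t)) = fun _ => (0 : E) := by
    funext t
    rw [hone t, C.map_one]
  rw [hconst] at hder
  exact hX (hder.unique (hasDerivAt_const (0 : ℝ) (0 : E)))

end Pool.Agent.W660.FG
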