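import Pool.Agent.W660.FG.Stm

/-! FG-OFF: separation of a point from the kernel. -/

namespace Pool.Agent.W660.FG

open Pool.Agent.W660.FL
open MeasureTheory Complex Filter Topology
open scoped ComplexConjugate InnerProductSpace Manifold ContDiff

namespace TOFF

theorem norm_lt_two {z : ℂ} (h1 : ‖z‖ ≤ 1) (h2 : z.re < 1) : ‖1 + z‖ < 2 := by
  have h3 : ‖1 + z‖ ^ 2 < 2 ^ 2 := by
    rw [Complex.sq_norm, Complex.normSq_apply]
    have h4 : ‖z‖ ^ 2 ≤ 1 := by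
      have := norm_nonneg z
      nlinarith
    rw [Complex.sq_norm, Complex.normSq_apply] at h4
    simp only [Complex.add_re, Complex.one_re, Complex.add_im, Complex.one_im]
    nlinarith
  exact lt_of_pow_lt_pow_left₀ 2 (by norm_num) h3

theorem re_lt {K : Type} [NormedAddCommGroup K] [InnerProductSpace ℂ K] (a b : K)
    (hn : ‖b‖ = ‖a‖) (hne : b ≠ a) : (⟪a, b⟫_ℂ).re < ‖a‖ ^ 2 := by
  have h1 : 0 < ‖b - a‖ ^ 2 := by
    have : 0 < ‖b - a‖ := norm_pos_iff.2 (sub_ne_zero.2 hne)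
    positivity
  have h2 : ‖b - a‖ ^ 2 = ‖b‖ ^ 2 - 2 * (⟪b, a⟫_ℂ).re + ‖a‖ ^ 2 := by
    have := @norm_sub_sq ℂ K _ _ _ b a
    simpa using this
  have h3 : (⟪b, a⟫_ℂ).re = (⟪a, b⟫_ℂ).re := by
    have := @inner_re_symm ℂ K _ _ _ b a
    simpa using this
  rw [h2, h3, hn] at h1
  linarith

end TOFF

variable (G : Type) [Group G] [TopologicalSpace G] [IsTopologicalGroup G] [T2Space G]
  [LocallyCompactSpace G] [MeasurableSpace G] [BorelSpace G]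
  (μ : Measure G) [μ.IsHaarMeasure]
  (Q : Type) [Group Q] [TopologicalSpace Q] [IsTopologicalGroup Q] [T2Space Q]
  (E : Type) [NormedAddCommGroup E] [NormedSpace ℝ E] [FiniteDimensional ℝ E]

theorem t3_OFF : S_CC G μ → S3_SUPD G μ → S3_SM3 G μ Q E →
    S3_P1 G μ Q E → S3_P2 G μ Q E → S3_OFF G μ Q E := by
  intro hCC hSUPD hSM3 hP1 hP2 D C A hA hSep x hx
  obtain ⟨_, _, _, hCC4, _, hCC6, _⟩ := hCC
  obtain ⟨u₀, hu₀A, hu₀I, y, hy⟩ := hSep.1 x hx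
  obtain ⟨u, huA, huI, hu⟩ : ∃ u ∈ A, InvL D.N u ∧ u x ≠ u 1 := by
    refine ⟨fun z => u₀ (z * y), hA.right y u₀ hu₀A, ?_, ?_⟩
    · intro l hl z
      show u₀ (l * z * y) = u₀ (z * y)
      rw [mul_assoc]
      exact hu₀I l hl _
    · show u₀ (x * y) ≠ u₀ (1 * y)
      rw [one_mul]
      exact hy
  have hd : 0 < ‖u x - u 1‖ := norm_pos_iff.2 (sub_ne_zero.2 hu)
  obtain ⟨w, hwA, hwC, hwI, hw⟩ := hSUPD A hA D.N D.cpt u huA huI (‖u x - u 1‖ / 5) (by positivity)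
  obtain ⟨v, hvA, hvC, hvI, hvS, hv, _⟩ :=
    hSM3 D C A hA w hwA hwC hwI (‖u x - u 1‖ / 5) (by positivity)
  have hvne : v x ≠ v 1 := by
    intro he
    have e1 : u x - u 1 = (u x - w x) + (w x - v x) - (u 1 - w 1) - (w 1 - v 1) := by
      rw [he]; ring
    have e2 : ‖u x - u 1‖ ≤ ‖u x - w x‖ + ‖w x - v x‖ + ‖u 1 - w 1‖ + ‖w 1 - v 1‖ := by
      calc ‖u x - u 1‖ = ‖(u x - w x) + (w x - v x) - (u 1 - w 1) - (w 1 - v 1)‖ := by rw [← e1]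
        _ ≤ ‖(u x - w x) + (w x - v x) - (u 1 - w 1)‖ + ‖w 1 - v 1‖ := norm_sub_le _ _
        _ ≤ (‖(u x - w x) + (w x - v x)‖ + ‖u 1 - w 1‖) + ‖w 1 - v 1‖ := by
          gcongr; exact norm_sub_le _ _
        _ ≤ ((‖u x - w x‖ + ‖w x - v x‖) + ‖u 1 - w 1‖) + ‖w 1 - v 1‖ := by
          gcongr; exact norm_add_le _ _
    have := hw x
    have := hw 1
    have := hv x
    have := hv 1
    linarith
  have hUne : U μ x (cl μ v) ≠ cl μ v := by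
    intro he
    obtain ⟨h1, _, h3⟩ := hCC4 v hvC x
    rw [h3] at he
    have h4 := hCC6 _ _ h1 hvC he
    have h5 := congrFun h4 1
    apply hvne
    simpa using h5
  have hne0 : cl μ v ≠ 0 := by
    intro he
    apply hUne
    rw [he]
    exact map_zero _
  have hφ0 := hP2 D C A hA v hvA hvC hvS hne0
  have hφ00 := (hP1 D C A hA).1 _ _ hφ0 hφ0
  have hφ := (hP1 D C A hA).2.1 _ _ (1 / 2) hφ0 hφ00 (by norm_num) (by norm_num)
  refine ⟨_, hφ, ?_⟩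
  have hz1 := hφ0.2.2.2.1 x
  set ζ := cl μ v with hζ
  set φ0 : G → ℂ := (((‖ζ‖ ^ 2 : ℝ) : ℂ)⁻¹) • mc μ ζ ζ with hφ0def
  have hn0 : 0 < ‖ζ‖ ^ 2 := by
    have : 0 < ‖ζ‖ := norm_pos_iff.2 hne0
    positivity
  have hz2 : (φ0 x).re < 1 := by
    have e1 : φ0 x = (((‖ζ‖ ^ 2)⁻¹ : ℝ) : ℂ) * ⟪ζ, U μ x ζ⟫_ℂ := by
      rw [hφ0def]
      simp [mc]
    have e2 := TOFF.re_lt ζ (U μ x ζ) (LinearIsometry.norm_map _ _) hUne
    rw [e1, Complex.re_ofReal_mul, inv_mul_lt_iff₀ hn0]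
    linarith
  have hlt := TOFF.norm_lt_two hz1 hz2
  have e3 : ((((1 / 2 : ℝ) : ℂ) • φ0 + ((1 - 1 / 2 : ℝ) : ℂ) • (φ0 * φ0)) x)
      = φ0 x * ((1 + φ0 x) / 2) := by
    simp only [Pi.add_apply, Pi.smul_apply, Pi.mul_apply, smul_eq_mul]
    push_cast
    ring
  rw [e3, norm_mul, norm_div]
  have h2 : ‖(2 : ℂ)‖ = 2 := by norm_num
  rw [h2]
  have h0 := norm_nonneg (φ0 x)
  have h1 := norm_nonneg (1 + φ0 x)
  nlinarith

end Pool.Agent.W660.FG
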