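import Pool.Agent.W660.FG.Stm

/-!
Project FG, part P1: the class of normalised functions.
-/

set_option autoImplicit false
set_option linter.unusedSectionVars false

namespace Pool.Agent.W660.FG

open Pool.Agent.W660.FL
open MeasureTheory Complex Filter Topology
open scoped ComplexConjugate InnerProductSpace Manifold ContDiff

noncomputable section

namespace TP1

section

variable {G : Type} [Group G] [TopologicalSpace G] [IsTopologicalGroup G]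
  {Q : Type} [Group Q] [TopologicalSpace Q]
  {E : Type} [NormedAddCommGroup E] [NormedSpace ℝ E]

theorem symm_zero (C : LieChart Q E) : C.κ.symm 0 = 1 := by
  rw [← C.map_one]
  exact C.κ.left_inv C.one_mem

theorem s_one (D : QD G Q) : D.s 1 ∈ D.N := by
  refine Subgroup.mem_map.2 ⟨Function.surjInv D.surj 1, ?_, rfl⟩
  exact MonoidHom.mem_ker.2 (Function.surjInv_eq D.surj 1)

theorem val_zero (D : QD G Q) (C : LieChart Q E) {φ : G → ℂ} (h : InvL D.N φ) :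
    φ (D.s (C.κ.symm 0)) = φ 1 := by
  rw [symm_zero, ← mul_one (D.s 1)]
  exact h _ (s_one D) 1

theorem inv_mul {L : Subgroup G} {φ ψ : G → ℂ} (h : InvL L φ) (h' : InvL L ψ) :
    InvL L (φ * ψ) := fun l hl x => by
  rw [Pi.mul_apply, Pi.mul_apply, h l hl, h' l hl]

theorem inv_smul {L : Subgroup G} {φ : G → ℂ} (c : ℂ) (h : InvL L φ) : InvL L (c • φ) :=
  fun l hl x => by
  rw [Pi.smul_apply, Pi.smul_apply, h l hl]

theorem inv_add {L : Subgroup G} {φ ψ : G → ℂ} (h : InvL L φ) (h' : InvL L ψ) :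
    InvL L (φ + ψ) := fun l hl x => by
  rw [Pi.add_apply, Pi.add_apply, h l hl, h' l hl]

theorem cc_mul {φ ψ : G → ℂ} (h : Cc φ) (h' : Cc ψ) : Cc (φ * ψ) :=
  ⟨h.1.mul h'.1, h.2.mul_right⟩

theorem cc_smul {φ : G → ℂ} (c : ℂ) (h : Cc φ) : Cc (c • φ) := by
  refine ⟨h.1.const_smul c, ?_⟩
  have h1 : c • φ = (fun _ : G => c) * φ := by
    funext x
    rfl
  rw [h1]
  exact h.2.mul_left

theorem cc_add {φ ψ : G → ℂ} (h : Cc φ) (h' : Cc ψ) : Cc (φ + ψ) :=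
  ⟨h.1.add h'.1, h.2.add h'.2⟩

theorem pe_smul (hPE : S_PE1) {f : E → ℂ} (c : ℂ) (hf : Pe2 f) : Pe2 fun a => c * f a :=
  hPE.2.1 E ℂ ℂ (ContinuousLinearMap.mul ℝ ℂ c) f hf

end

section

variable {G : Type} [Group G] [TopologicalSpace G] [IsTopologicalGroup G]
  [MeasurableSpace G] [BorelSpace G]
  (μ : Measure G) {Q : Type} [Group Q] [TopologicalSpace Q]
  {E : Type} [NormedAddCommGroup E] [NormedSpace ℝ E]

theorem part1 (hPE : S_PE1) (D : QD G Q) (C : LieChart Q E) (A : Set (G → ℂ)) (hA : IsAlg μ A)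
    (φ ψ : G → ℂ) (h : InP3 D C A φ) (h' : InP3 D C A ψ) : InP3 D C A (φ * ψ) := by
  obtain ⟨a1, a2, a3, a4, a5, a7, a6⟩ := h
  obtain ⟨b1, b2, b3, b4, b5, b7, b6⟩ := h'
  refine ⟨hA.mul _ a1 _ b1, cc_mul a2 b2, ?_, fun x => ?_, fun x => ?_, inv_mul a7 b7, ?_⟩
  · rw [Pi.mul_apply, a3, b3, one_mul]
  · rw [Pi.mul_apply, norm_mul]
    exact mul_le_one₀ (a4 x) (norm_nonneg _) (b4 x)
  · rw [Pi.mul_apply, Pi.mul_apply, a5, b5, map_mul]
  · exact hPE.2.2.1 E _ _ a6 b6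

theorem part2 (hPE : S_PE1) (D : QD G Q) (C : LieChart Q E) (A : Set (G → ℂ)) (hA : IsAlg μ A)
    (φ ψ : G → ℂ) (t : ℝ) (h : InP3 D C A φ) (h' : InP3 D C A ψ) (ht0 : 0 ≤ t) (ht1 : t ≤ 1) :
    InP3 D C A ((t : ℂ) • φ + ((1 - t : ℝ) : ℂ) • ψ) := by
  obtain ⟨a1, a2, a3, a4, a5, a7, a6⟩ := h
  obtain ⟨b1, b2, b3, b4, b5, b7, b6⟩ := h'
  have hval : ∀ x, ((t : ℂ) • φ + ((1 - t : ℝ) : ℂ) • ψ) x =
      (t : ℂ) * φ x + ((1 - t : ℝ) : ℂ) * ψ x := fun x => rfl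
  refine ⟨hA.add _ (hA.smul _ _ a1) _ (hA.smul _ _ b1), cc_add (cc_smul _ a2) (cc_smul _ b2),
    ?_, fun x => ?_, fun x => ?_, inv_add (inv_smul _ a7) (inv_smul _ b7), ?_⟩
  · rw [hval, a3, b3, mul_one, mul_one, ← Complex.ofReal_add]
    norm_num
  · rw [hval]
    refine (norm_add_le _ _).trans ?_
    rw [norm_mul, norm_mul, Complex.norm_real, Complex.norm_real, Real.norm_of_nonneg ht0,
      Real.norm_of_nonneg (by linarith : (0 : ℝ) ≤ 1 - t)]
    have h1 := mul_le_mul_of_nonneg_left (a4 x) ht0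
    have h2 := mul_le_mul_of_nonneg_left (b4 x) (by linarith : (0 : ℝ) ≤ 1 - t)
    linarith
  · rw [hval, hval, a5, b5, map_add, map_mul, map_mul, Complex.conj_ofReal, Complex.conj_ofReal]
  · exact hPE.1 E ℂ _ _ (pe_smul hPE (t : ℂ) a6) (pe_smul hPE ((1 - t : ℝ) : ℂ) b6)

end

section

variable {G : Type} [Group G] [TopologicalSpace G] [IsTopologicalGroup G]
  {Q : Type} [Group Q] [TopologicalSpace Q]
  {E : Type} [NormedAddCommGroup E] [NormedSpace ℝ E]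

theorem part3 (hPE : S_PE1) (D : QD G Q) (C : LieChart Q E) (A : Set (G → ℂ)) (φ : G → ℂ)
    (h : InP3 D C A φ) : ∃ α, HasAl3 D C φ α := by
  obtain ⟨-, -, a3, a4, -, a7, L, B, hLB⟩ := h
  have hL : HasFDerivAt (fun a : E => φ (D.s (C.κ.symm a))) L 0 := hPE.2.2.2 E ℂ _ L B hLB
  have hre : HasFDerivAt (fun a : E => (φ (D.s (C.κ.symm a))).re) (Complex.reCLM.comp L) 0 :=
    Complex.reCLM.hasFDerivAt.comp (0 : E) hL
  have hmax : IsLocalMax (fun a : E => (φ (D.s (C.κ.symm a))).re) 0 := by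
    refine Filter.Eventually.of_forall fun a => ?_
    show (φ (D.s (C.κ.symm a))).re ≤ (φ (D.s (C.κ.symm 0))).re
    rw [val_zero D C a7, a3, Complex.one_re]
    exact (Complex.re_le_norm _).trans (a4 _)
  have h0 : Complex.reCLM.comp L = 0 := hmax.hasFDerivAt_eq_zero hre
  refine ⟨Complex.imCLM.comp L, ?_⟩
  have hLeq : L = (Complex.I : ℂ) • (Complex.ofRealCLM.comp (Complex.imCLM.comp L)) := by
    ext v
    have h1 : (L v).re = 0 := congrArg (fun T : E →L[ℝ] ℝ => T v) h0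
    show L v = Complex.I * (((L v).im : ℝ) : ℂ)
    apply Complex.ext
    · simp [h1]
    · simp
  unfold HasAl3
  rw [← hLeq]
  exact hL

theorem part4 (D : QD G Q) (C : LieChart Q E) (φ : G → ℂ) (α β : E →L[ℝ] ℝ) (h : HasAl3 D C φ α)
    (h' : HasAl3 D C φ β) : α = β := by
  have h1 := HasFDerivAt.unique h h'
  ext v
  have h2 : Complex.I * ((α v : ℝ) : ℂ) = Complex.I * ((β v : ℝ) : ℂ) :=
    congrArg (fun T : E →L[ℝ] ℂ => T v) h1
  exact_mod_cast mul_left_cancel₀ Complex.I_ne_zero h2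

theorem part5 (D : QD G Q) (C : LieChart Q E) (A : Set (G → ℂ)) (φ ψ : G → ℂ) (α β : E →L[ℝ] ℝ)
    (hφ : InP3 D C A φ) (hψ : InP3 D C A ψ) (h : HasAl3 D C φ α) (h' : HasAl3 D C ψ β) :
    HasAl3 D C (φ * ψ) (α + β) := by
  have h1 : HasFDerivAt (fun a : E => φ (D.s (C.κ.symm a)) * ψ (D.s (C.κ.symm a))) _ 0 :=
    HasFDerivAt.mul h h'
  have h2 : (Complex.I : ℂ) • (Complex.ofRealCLM.comp (α + β)) =
      φ (D.s (C.κ.symm 0)) • (Complex.I : ℂ) • (Complex.ofRealCLM.comp β) +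
        ψ (D.s (C.κ.symm 0)) • (Complex.I : ℂ) • (Complex.ofRealCLM.comp α) := by
    rw [val_zero D C hφ.2.2.2.2.2.1, val_zero D C hψ.2.2.2.2.2.1, hφ.2.2.1, hψ.2.2.1]
    ext v
    show Complex.I * (((α v + β v : ℝ)) : ℂ) = (1 : ℂ) * (Complex.I * ((β v : ℝ) : ℂ)) +
      (1 : ℂ) * (Complex.I * ((α v : ℝ) : ℂ))
    push_cast
    ring
  unfold HasAl3
  rw [h2]
  exact h1

theorem part6 (D : QD G Q) (C : LieChart Q E) (φ ψ : G → ℂ) (α β : E →L[ℝ] ℝ) (t : ℝ)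
    (h : HasAl3 D C φ α) (h' : HasAl3 D C ψ β) :
    HasAl3 D C ((t : ℂ) • φ + ((1 - t : ℝ) : ℂ) • ψ) (t • α + (1 - t) • β) := by
  have h1 : HasFDerivAt (fun a : E => (t : ℂ) • φ (D.s (C.κ.symm a)) +
      ((1 - t : ℝ) : ℂ) • ψ (D.s (C.κ.symm a))) _ 0 :=
    (HasFDerivAt.const_smul h (t : ℂ)).add (HasFDerivAt.const_smul h' ((1 - t : ℝ) : ℂ))
  have h2 : (Complex.I : ℂ) • (Complex.ofRealCLM.comp (t • α + (1 - t) • β)) =
      (t : ℂ) • (Complex.I : ℂ) • (Complex.ofRealCLM.comp α) +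
        ((1 - t : ℝ) : ℂ) • (Complex.I : ℂ) • (Complex.ofRealCLM.comp β) := by
    ext v
    show Complex.I * (((t * α v + (1 - t) * β v : ℝ)) : ℂ) =
      (t : ℂ) * (Complex.I * ((α v : ℝ) : ℂ)) +
        ((1 - t : ℝ) : ℂ) * (Complex.I * ((β v : ℝ) : ℂ))
    push_cast
    ring
  unfold HasAl3
  rw [h2]
  exact h1

end

end TP1

variable (G : Type) [Group G] [TopologicalSpace G] [IsTopologicalGroup G] [T2Space G]
  [LocallyCompactSpace G] [MeasurableSpace G] [BorelSpace G]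
  (μ : Measure G) [μ.IsHaarMeasure]
  (Q : Type) [Group Q] [TopologicalSpace Q] [IsTopologicalGroup Q] [T2Space Q]
  (E : Type) [NormedAddCommGroup E] [NormedSpace ℝ E] [FiniteDimensional ℝ E]

theorem t3_P1 : S_PE1 → S3_P1 G μ Q E := by
  intro hPE D C A hA
  exact ⟨TP1.part1 μ hPE D C A hA, fun φ ψ t => TP1.part2 μ hPE D C A hA φ ψ t,
    TP1.part3 hPE D C A, TP1.part4 D C, TP1.part5 D C A, TP1.part6 D C⟩

end

end Pool.Agent.W660.FG
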