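import Pool.Agent.W660.FG.Stm

/-!
Project FG, part P2: normalised positive definite functions.
-/

set_option linter.unusedSectionVars false

namespace Pool.Agent.W660.FG

open Pool.Agent.W660.FL
open MeasureTheory Complex Filter Topology
open scoped ComplexConjugate InnerProductSpace Manifold ContDiff

noncomputable section

variable (G : Type) [Group G] [TopologicalSpace G] [IsTopologicalGroup G] [T2Space G]
  [LocallyCompactSpace G] [MeasurableSpace G] [BorelSpace G]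
  (μ : Measure G) [μ.IsHaarMeasure]
  (Q : Type) [Group Q] [TopologicalSpace Q] [IsTopologicalGroup Q] [T2Space Q]
  (E : Type) [NormedAddCommGroup E] [NormedSpace ℝ E] [FiniteDimensional ℝ E]

theorem t3_P2 : S_UB G μ → S_PHI G μ → S_PE1 → S3_SM1 G μ Q E → S3_P2 G μ Q E := by
  intro hUB hPHI hPE1 hSM1 D C A hA u hu hcc hsm hne
  obtain ⟨m1, m2, m3, m4, m5⟩ := hPHI A hA u hu hcc.2
  have hN : 0 < ‖cl μ u‖ ^ 2 := by
    have := norm_pos_iff.2 hne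
    positivity
  have hNc : ((‖cl μ u‖ ^ 2 : ℝ) : ℂ) ≠ 0 := by
    exact_mod_cast hN.ne'
  refine ⟨hA.smul _ _ m1, ⟨?_, ?_⟩, ?_, ?_, ?_, ?_, ?_⟩
  · exact m2.1.const_smul _
  · have h := m2.2.comp_left (g := fun z : ℂ => ((‖cl μ u‖ ^ 2 : ℝ) : ℂ)⁻¹ • z) (smul_zero _)
    exact h
  · show ((‖cl μ u‖ ^ 2 : ℝ) : ℂ)⁻¹ • mc μ (cl μ u) (cl μ u) 1 = 1
    rw [m3, smul_eq_mul, inv_mul_cancel₀ hNc]
  · intro x
    show ‖((‖cl μ u‖ ^ 2 : ℝ) : ℂ)⁻¹ • mc μ (cl μ u) (cl μ u) x‖ ≤ 1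
    rw [norm_smul, norm_inv, Complex.norm_real, Real.norm_of_nonneg hN.le]
    calc (‖cl μ u‖ ^ 2)⁻¹ * ‖mc μ (cl μ u) (cl μ u) x‖
        ≤ (‖cl μ u‖ ^ 2)⁻¹ * ‖cl μ u‖ ^ 2 :=
          mul_le_mul_of_nonneg_left (m4 x) (inv_nonneg.2 hN.le)
      _ = 1 := inv_mul_cancel₀ hN.ne'
  · intro x
    show ((‖cl μ u‖ ^ 2 : ℝ) : ℂ)⁻¹ • mc μ (cl μ u) (cl μ u) x⁻¹ =
      conj (((‖cl μ u‖ ^ 2 : ℝ) : ℂ)⁻¹ • mc μ (cl μ u) (cl μ u) x)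
    rw [m5 x, smul_eq_mul, smul_eq_mul, map_mul, map_inv₀, Complex.conj_ofReal]
  · intro n hn x
    show ((‖cl μ u‖ ^ 2 : ℝ) : ℂ)⁻¹ • mc μ (cl μ u) (cl μ u) (n * x) =
      ((‖cl μ u‖ ^ 2 : ℝ) : ℂ)⁻¹ • mc μ (cl μ u) (cl μ u) x
    have h : mc μ (cl μ u) (cl μ u) (n * x) = mc μ (cl μ u) (cl μ u) x := by
      unfold mc
      rw [hUB.1 n x, hsm.1 n hn]
    rw [h]
  · have h1 := (hSM1 D C).2.2.2 (cl μ u) (cl μ u) hsm
    have h2 := hPE1.2.1 E ℂ ℂ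
      ((((‖cl μ u‖ ^ 2 : ℝ) : ℂ)⁻¹) • (ContinuousLinearMap.id ℝ ℂ))
      (fun a : E => mc μ (cl μ u) (cl μ u) (D.s (C.κ.symm a))) h1
    exact h2

end

end Pool.Agent.W660.FG
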