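import Pool.Agent.W660.FG.Stm

/-!
Project FG (helper660), part REAL (helper240).
-/

set_option autoImplicit false

namespace Pool.Agent.W660.FG

open Pool.Agent.W660.FL
open MeasureTheory Complex Filter Topology
open scoped ComplexConjugate InnerProductSpace Manifold ContDiff

theorem t3_REAL {G : Type} [Group G] [TopologicalSpace G] [IsTopologicalGroup G]
    {Q : Type} [Group Q] [TopologicalSpace Q] [T2Space Q]
    {E : Type} [NormedAddCommGroup E] [NormedSpace ℝ E]
    (hR : S_REAL Q E) (hVF : S3_VF G Q) : S3_REAL G Q E := by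
  intro D C A φ hφ hα
  obtain ⟨-, ⟨hcont, hcs⟩, h1, hle, hinv, hI, hPe⟩ := hφ
  obtain ⟨v1, -, v3, -, v5, -, -⟩ := hVF D
  have hs : ∀ q, D.s q ∈ D.H := fun q => (Function.surjInv D.surj q).2
  have hπ : ∀ q, D.π ⟨D.s q, hs q⟩ = q := fun q => Function.surjInv_eq D.surj q
  let φQ : Q → ℂ := fun q => φ (D.s q)
  have c1 : Continuous φQ := by
    have h2 : Continuous fun q : Q => ((q, (1 : G)) : Q × G) := by fun_prop
    have h3 := (v1 φ hcont hI).comp h2
    have e : φQ = (fun p : Q × G => φ (D.s p.1 * p.2)) ∘ fun q : Q => ((q, (1 : G)) : Q × G) := by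
      funext q
      show φ (D.s q) = φ (D.s q * 1)
      rw [mul_one]
    rw [e]
    exact h3
  have c2 : HasCompactSupport φQ := by
    have hcl : IsClosed (D.H : Set G) := Subgroup.isClosed_of_isOpen D.H D.isOpen
    have hemb : IsClosedEmbedding (Subtype.val : D.H → G) := hcl.isClosedEmbedding_subtypeVal
    have hK : IsCompact (Subtype.val ⁻¹' (tsupport φ) : Set D.H) := hemb.isCompact_preimage hcs
    refine HasCompactSupport.intro (hK.image D.cont) ?_
    intro q hq
    by_contra h0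
    apply hq
    refine ⟨⟨D.s q, hs q⟩, ?_, hπ q⟩
    exact subset_tsupport φ h0
  have c3 : φQ 1 = 1 := by
    have := (v5 φ hI 1).2
    rw [mul_one] at this
    exact this.trans h1
  have c4 : ∀ q, φQ q⁻¹ = conj (φQ q) := by
    intro q
    have h2 := v3 φ hI (D.s q)⁻¹ (D.H.inv_mem (hs q)) 1
    have h3 : D.π ⟨(D.s q)⁻¹, D.H.inv_mem (hs q)⟩ = q⁻¹ := by
      have : (⟨(D.s q)⁻¹, D.H.inv_mem (hs q)⟩ : D.H) = (⟨D.s q, hs q⟩ : D.H)⁻¹ := rfl
      rw [this, map_inv, hπ]
    rw [h3, mul_one, mul_one] at h2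
    show φ (D.s q⁻¹) = conj (φ (D.s q))
    rw [← h2, hinv]
  exact hR C Set.univ φQ ⟨Set.mem_univ _, ⟨c1, c2⟩, c3, fun q => hle _, c4, hPe⟩ hα

end Pool.Agent.W660.FG
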