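import Pool.Agent.W660.FG.Stm

namespace Pool.Agent.W660.FG

open Pool.Agent.W660.FL
open MeasureTheory Complex Filter Topology
open scoped ComplexConjugate InnerProductSpace Manifold ContDiff

noncomputable section

namespace TSM1

theorem pe2_congr {E F : Type} [NormedAddCommGroup E] [NormedSpace ℝ E] [NormedAddCommGroup F]
    [NormedSpace ℝ F] {f g : E → F} (hf : Pe2 f) (h : f =ᶠ[𝓝 0] g) : Pe2 g := by
  obtain ⟨L, B, hB⟩ := hf
  refine ⟨L, B, hB.congr' ?_ EventuallyEq.rfl⟩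
  filter_upwards [h] with a ha
  rw [ha, h.eq_of_nhds]

end TSM1

variable (G : Type) [Group G] [TopologicalSpace G] [IsTopologicalGroup G] [T2Space G]
  [LocallyCompactSpace G] [MeasurableSpace G] [BorelSpace G]
  (μ : Measure G) [μ.IsHaarMeasure]
  (Q : Type) [Group Q] [TopologicalSpace Q] [IsTopologicalGroup Q] [T2Space Q]
  (E : Type) [NormedAddCommGroup E] [NormedSpace ℝ E] [FiniteDimensional ℝ E]

theorem t3_SM1 : S_UB G μ → S_PE1 → S_PE2 → S3_V G μ Q → S3_SM1 G μ Q E := by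
  intro hUB hPE1 hPE2 hV D C
  have hscal : ∀ (T : HH μ →L[ℂ] HH μ) (f : E → HH μ), Pe2 f → Pe2 (fun a => T (f a)) := by
    intro T f hf
    exact hPE1.2.1 E (HH μ) (HH μ) (T.restrictScalars ℝ) f hf
  obtain ⟨-, -, hs, -, h5, h6, -, -, -⟩ := hV D
  refine ⟨?_, ?_, ?_, ?_⟩
  · intro ξ η hξ hη
    refine ⟨fun l hl => ?_, ?_⟩
    · rw [map_add, hξ.1 l hl, hη.1 l hl]
    · have h := hPE1.1 E (HH μ) _ _ hξ.2 hη.2
      refine TSM1.pe2_congr h (Eventually.of_forall fun a => ?_)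
      simp only [Pi.add_apply, map_add]
  · intro c ξ hξ
    refine ⟨fun l hl => ?_, ?_⟩
    · rw [map_smul, hξ.1 l hl]
    · have h := hscal (c • ContinuousLinearMap.id ℂ (HH μ)) _ hξ.2
      refine TSM1.pe2_congr h (Eventually.of_forall fun a => ?_)
      simp only [_root_.smul_apply, ContinuousLinearMap.id_apply, map_smul]
  · intro g hg ξ hξ
    refine ⟨h6 ξ hξ.1 g hg, ?_⟩
    set p : Q := D.π ⟨g, hg⟩ with hp
    have h0t : (0 : E) ∈ C.κ.target := by
      rw [← C.map_one]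
      exact C.κ.map_source C.one_mem
    have hs0 : C.κ.symm 0 = 1 := by
      rw [← C.map_one]
      exact C.κ.left_inv C.one_mem
    have hc : ContDiffAt ℝ 2 (fun a : E => C.κ (p * C.κ.symm a * p⁻¹)) 0 :=
      (C.cnj p).of_le (WithTop.coe_le_coe.2 (le_top : (2 : ℕ∞) ≤ ⊤))
    have hc0 : C.κ (p * C.κ.symm 0 * p⁻¹) = 0 := by
      rw [hs0, mul_one, mul_inv_cancel, C.map_one]
    have h1 := hPE2.2 E (HH μ) (fun a : E => U μ (D.s (C.κ.symm a)) ξ)
      (fun a : E => C.κ (p * C.κ.symm a * p⁻¹)) hξ.2 hc hc0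
    have h2 := hscal (U μ g).toContinuousLinearMap _ h1
    refine TSM1.pe2_congr h2 ?_
    have hcont : ContinuousAt (fun a : E => p * C.κ.symm a * p⁻¹) 0 := by
      have h3 : ContinuousAt C.κ.symm 0 := C.κ.symm.continuousAt h0t
      exact (continuousAt_const.mul h3).mul continuousAt_const
    have hsrc : ∀ᶠ a in 𝓝 (0 : E), p * C.κ.symm a * p⁻¹ ∈ C.κ.source := by
      refine hcont.eventually_mem (C.κ.open_source.mem_nhds ?_)
      rw [hs0, mul_one, mul_inv_cancel]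
      exact C.one_mem
    have key : ∀ q q' : Q, q' * p = p * q →
        U μ g (U μ (D.s q') ξ) = U μ (D.s q) (U μ g ξ) := by
      intro q q' hqq
      obtain ⟨hq, hqπ⟩ := hs q
      obtain ⟨hq', hqπ'⟩ := hs q'
      rw [← hUB.1, ← hUB.1]
      rw [h5 ξ hξ.1 (D.s q' * g) (D.H.mul_mem hq' hg), h5 ξ hξ.1 (g * D.s q) (D.H.mul_mem hg hq)]
      have e1 : D.π ⟨D.s q' * g, D.H.mul_mem hq' hg⟩ = q' * p := by
        have : (⟨D.s q' * g, D.H.mul_mem hq' hg⟩ : D.H) = ⟨D.s q', hq'⟩ * ⟨g, hg⟩ := rfl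
        rw [this, map_mul, hqπ']
      have e2 : D.π ⟨g * D.s q, D.H.mul_mem hg hq⟩ = p * q := by
        have : (⟨g * D.s q, D.H.mul_mem hg hq⟩ : D.H) = ⟨g, hg⟩ * ⟨D.s q, hq⟩ := rfl
        rw [this, map_mul, hqπ]
      rw [e1, e2, hqq]
    filter_upwards [hsrc] with a ha
    simp only [Function.comp_apply, LinearIsometry.coe_toContinuousLinearMap]
    rw [C.κ.left_inv ha]
    refine key _ _ ?_
    group
  · intro ξ η hξ
    have h := hPE1.2.1 E (HH μ) ℂ ((innerSL ℂ η).restrictScalars ℝ) _ hξ.2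
    exact h

end

end Pool.Agent.W660.FG
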