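import Pool.Agent.W660.FG.Stm

/-!
Part SM2 of project FG: convolutions with smooth functions on the quotient are smooth invariant
vectors.
-/

namespace Pool.Agent.W660.FG

open Pool.Agent.W660.FL
open MeasureTheory Complex Filter Topology
open scoped ComplexConjugate InnerProductSpace Manifold ContDiff

noncomputable section

namespace TSM2

section P

variable {G : Type} [Group G] [TopologicalSpace G] {E : Type} [NormedAddCommGroup E]
  [NormedSpace ℝ E]

/-- a radius in which everything is defined -/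
theorem radius [IsTopologicalGroup G] (C : LieChart G E) :
    ∃ R : ℝ, 0 < R ∧ Metric.ball 0 R ⊆ C.κ.target ∧
    (∀ a b : E, ‖a‖ < R → ‖b‖ < R → C.κ.symm a * C.κ.symm b ∈ C.κ.source) ∧
    ∀ a b : E, ‖a‖ < R → ‖b‖ < R →
      ContDiffAt ℝ 2 (fun p : E × E => C.κ (C.κ.symm p.1 * C.κ.symm p.2)) (a, b) := by
  have h0 : (0 : E) ∈ C.κ.target := by
    rw [← C.map_one]; exact C.κ.map_source C.one_mem
  have hs0 : C.κ.symm 0 = 1 := by
    rw [← C.map_one]; exact C.κ.left_inv C.one_mem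
  have hc : ContinuousAt C.κ.symm (0 : E) := C.κ.continuousAt_symm h0
  have h1 : ∀ᶠ a in 𝓝 (0 : E), a ∈ C.κ.target := C.κ.open_target.mem_nhds h0
  have h2 : ∀ᶠ p in 𝓝 ((0 : E), (0 : E)), C.κ.symm p.1 * C.κ.symm p.2 ∈ C.κ.source := by
    have hc1 : ContinuousAt (fun p : E × E => C.κ.symm p.1 * C.κ.symm p.2) ((0 : E), (0 : E)) := by
      refine ContinuousAt.mul ?_ ?_
      · exact ContinuousAt.comp (f := Prod.fst) (g := C.κ.symm) (x := ((0 : E), (0 : E))) hc
          continuousAt_fst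
      · exact ContinuousAt.comp (f := Prod.snd) (g := C.κ.symm) (x := ((0 : E), (0 : E))) hc
          continuousAt_snd
    refine hc1.eventually (C.κ.open_source.mem_nhds ?_)
    show C.κ.symm 0 * C.κ.symm 0 ∈ C.κ.source
    rw [hs0, one_mul]; exact C.one_mem
  have h3 : ∀ᶠ p in 𝓝 ((0 : E), (0 : E)),
      ContDiffAt ℝ 2 (fun p : E × E => C.κ (C.κ.symm p.1 * C.κ.symm p.2)) p := by
    have h2i : (2 : WithTop ℕ∞) ≤ ∞ := by
      have : ((2 : ℕ∞) : WithTop ℕ∞) ≤ ∞ := WithTop.coe_le_coe.2 le_top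
      exact this
    exact ContDiffAt.eventually (C.mul.of_le h2i) (by simp)
  obtain ⟨r1, hr1, h1'⟩ := Metric.eventually_nhds_iff.1 h1
  obtain ⟨r2, hr2, h2'⟩ := Metric.eventually_nhds_iff.1 (h2.and h3)
  have hd : ∀ a b : E, ‖a‖ < r2 → ‖b‖ < r2 → dist (a, b) ((0 : E), (0 : E)) < r2 := by
    intro a b ha hb
    rw [Prod.dist_eq]
    simpa [dist_zero_right] using ⟨ha, hb⟩
  refine ⟨min r1 r2, lt_min hr1 hr2, ?_, ?_, ?_⟩
  · intro a ha
    refine h1' (lt_of_lt_of_le (Metric.mem_ball.1 ha) (min_le_left _ _))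
  · intro a b ha hb
    exact (h2' (hd a b (lt_of_lt_of_le ha (min_le_right _ _))
      (lt_of_lt_of_le hb (min_le_right _ _)))).1
  · intro a b ha hb
    exact (h2' (hd a b (lt_of_lt_of_le ha (min_le_right _ _))
      (lt_of_lt_of_le hb (min_le_right _ _)))).2

/-- `lift` vanishes off the compact set -/
theorem lift_zero (C : LieChart G E) {r : ℝ} {F : E → ℂ}
    (hs : tsupport F ⊆ Metric.ball 0 r) (z : G)
    (hz : z ∉ C.κ.symm '' Metric.closedBall 0 r) : lift C F z = 0 := by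
  classical
  unfold FL.lift
  split_ifs with h
  · by_contra hne
    have h1 : C.κ z ∈ Metric.ball (0 : E) r := hs (subset_tsupport F hne)
    exact hz ⟨C.κ z, Metric.ball_subset_closedBall h1, C.κ.left_inv h⟩
  · rfl

theorem isCompact_img [FiniteDimensional ℝ E] (C : LieChart G E) {r : ℝ}
    (hr : Metric.closedBall 0 r ⊆ C.κ.target) :
    IsCompact (C.κ.symm '' Metric.closedBall (0 : E) r) := by
  have : ProperSpace E := FiniteDimensional.proper_real E
  exact (isCompact_closedBall (0 : E) r).image_of_continuousOn (C.κ.continuousOn_symm.mono hr)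

theorem lift_Cc [T2Space G] [FiniteDimensional ℝ E] (C : LieChart G E) {r : ℝ} (hr : Metric.closedBall 0 r ⊆ C.κ.target)
    {F : E → ℂ} (hF : Continuous F) (hs : tsupport F ⊆ Metric.ball 0 r) : Cc (lift C F) := by
  classical
  have hK := isCompact_img C hr
  refine ⟨?_, HasCompactSupport.intro hK (lift_zero C hs)⟩
  rw [continuous_iff_continuousAt]
  intro z
  by_cases hz : z ∈ C.κ.source
  · have h1 : ContinuousAt (fun y => F (C.κ y)) z :=
      hF.continuousAt.comp (C.κ.continuousAt hz)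
    refine h1.congr ?_
    filter_upwards [C.κ.open_source.mem_nhds hz] with y hy
    unfold FL.lift
    rw [if_pos hy]
  · have hzK : z ∉ C.κ.symm '' Metric.closedBall (0 : E) r := by
      rintro ⟨b, hb, rfl⟩
      exact hz (C.κ.map_target (hr hb))
    have h1 : ContinuousAt (fun _ : G => (0 : ℂ)) z := continuousAt_const
    refine h1.congr ?_
    filter_upwards [hK.isClosed.isOpen_compl.mem_nhds hzK] with y hy
    exact (lift_zero C hs y hy).symm

/-- the kernel -/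
def ker (C : LieChart G E) (R : ℝ) (F : E → ℂ) (a s : E) : ℂ := by
  classical exact if ‖s‖ < R then F (C.κ (C.κ.symm a * C.κ.symm (-s))) else 0

theorem ker_pos (C : LieChart G E) {R : ℝ} (F : E → ℂ) (a : E) {s : E} (hs : ‖s‖ < R) :
    ker C R F a s = F (C.κ (C.κ.symm a * C.κ.symm (-s))) := by
  unfold ker
  rw [if_pos hs]

theorem ker_neg (C : LieChart G E) {R : ℝ} (F : E → ℂ) (a : E) {s : E} (hs : ¬ ‖s‖ < R) :
    ker C R F a s = 0 := by
  unfold ker
  rw [if_neg hs]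

/-- the small neighbourhood -/
theorem small [IsTopologicalGroup G] [FiniteDimensional ℝ E] (C : LieChart G E) {R : ℝ} (hR : 0 < R) (hT : Metric.ball 0 R ⊆ C.κ.target)
    (hm : ∀ a b : E, ‖a‖ < R → ‖b‖ < R → C.κ.symm a * C.κ.symm b ∈ C.κ.source)
    {F : E → ℂ} (hs : tsupport F ⊆ Metric.ball 0 (R / 3)) :
    ∃ δ : ℝ, 0 < δ ∧ δ ≤ R ∧
      (∀ a : E, ‖a‖ < δ → ∀ z : G, lift C F (C.κ.symm a * z) ≠ 0 →
        z ∈ C.κ.source ∩ C.κ ⁻¹' Metric.ball 0 (2 * (R / 3))) ∧
      (∀ a : E, ‖a‖ < δ → ∀ z ∈ C.κ.source ∩ C.κ ⁻¹' Metric.ball 0 (2 * (R / 3)),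
        lift C F (C.κ.symm a * z) = ker C R F a (0 - C.κ z)) ∧
      (∀ a : E, ‖a‖ < δ → ∀ s : E, 2 * (R / 3) ≤ ‖s‖ → ker C R F a s = 0) := by
  classical
  have h0 : (0 : E) ∈ C.κ.target := by
    rw [← C.map_one]; exact C.κ.map_source C.one_mem
  have hs0 : C.κ.symm 0 = 1 := by
    rw [← C.map_one]; exact C.κ.left_inv C.one_mem
  have hc : ContinuousAt C.κ.symm (0 : E) := C.κ.continuousAt_symm h0
  have hT3 : Metric.closedBall 0 (R / 3) ⊆ C.κ.target := fun a ha => hT (by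
    rw [mem_closedBall_zero_iff] at ha
    rw [mem_ball_zero_iff]
    linarith)
  have hK := isCompact_img C hT3
  have hV : IsOpen (C.κ.source ∩ C.κ ⁻¹' Metric.ball (0 : E) (2 * (R / 3))) :=
    C.κ.isOpen_inter_preimage Metric.isOpen_ball
  have hKV : C.κ.symm '' Metric.closedBall (0 : E) (R / 3) ⊆
      C.κ.source ∩ C.κ ⁻¹' Metric.ball (0 : E) (2 * (R / 3)) := by
    rintro _ ⟨b, hb, rfl⟩
    refine ⟨C.κ.map_target (hT3 hb), ?_⟩
    show C.κ (C.κ.symm b) ∈ Metric.ball (0 : E) (2 * (R / 3))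
    rw [C.κ.right_inv (hT3 hb), mem_ball_zero_iff]
    rw [mem_closedBall_zero_iff] at hb
    linarith
  obtain ⟨W, hW, hWK⟩ := compact_open_separated_mul_left hK hV hKV
  have hinv : ∀ᶠ a in 𝓝 (0 : E), (C.κ.symm a)⁻¹ ∈ W := by
    have h1 : ContinuousAt (fun a : E => (C.κ.symm a)⁻¹) 0 := hc.inv
    have h2 : W ∈ 𝓝 ((C.κ.symm (0 : E))⁻¹) := by
      rw [hs0, inv_one]
      exact hW
    exact h1.eventually h2
  obtain ⟨δ₀, hδ₀, hδ⟩ := Metric.eventually_nhds_iff.1 hinv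
  have hmem : ∀ a : E, ‖a‖ < min δ₀ R → ∀ z : G, lift C F (C.κ.symm a * z) ≠ 0 →
        z ∈ C.κ.source ∩ C.κ ⁻¹' Metric.ball 0 (2 * (R / 3)) := by
    intro a ha z hz
    have h1 : C.κ.symm a * z ∈ C.κ.symm '' Metric.closedBall (0 : E) (R / 3) := by
      by_contra h
      exact hz (lift_zero C hs _ h)
    have h2 : (C.κ.symm a)⁻¹ ∈ W := hδ (by
      rw [dist_zero_right]; exact lt_of_lt_of_le ha (min_le_left _ _))
    have h3 := hWK (Set.mul_mem_mul h2 h1)
    rwa [inv_mul_cancel_left] at h3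
  refine ⟨min δ₀ R, lt_min hδ₀ hR, min_le_right _ _, hmem, ?_, ?_⟩
  · intro a ha z hz
    have hzn : ‖C.κ z‖ < R := by
      have := hz.2
      rw [Set.mem_preimage, mem_ball_zero_iff] at this
      linarith
    rw [ker_pos C F a (by rw [zero_sub, norm_neg]; exact hzn), zero_sub, neg_neg,
      C.κ.left_inv hz.1]
    unfold FL.lift
    rw [if_pos]
    have := hm a (C.κ z) (lt_of_lt_of_le ha (min_le_right _ _)) hzn
    rwa [C.κ.left_inv hz.1] at this
  · intro a ha s hs'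
    by_cases hsR : ‖s‖ < R
    · rw [ker_pos C F a hsR]
      by_contra hne
      have hsT : -s ∈ C.κ.target := hT (by rw [mem_ball_zero_iff, norm_neg]; exact hsR)
      have h1 : lift C F (C.κ.symm a * C.κ.symm (-s)) ≠ 0 := by
        unfold FL.lift
        rw [if_pos (hm a (-s) (lt_of_lt_of_le ha (min_le_right _ _)) (by rwa [norm_neg]))]
        exact hne
      have h2 := (hmem a ha _ h1).2
      rw [Set.mem_preimage, C.κ.right_inv hsT, mem_ball_zero_iff, norm_neg] at h2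
      linarith
    · exact ker_neg C F a hsR

/-- smoothness of the kernel -/
theorem ker_smooth (C : LieChart G E) {R δ : ℝ} (hR : 0 < R) (hδR : δ ≤ R)
    (hm : ∀ a b : E, ‖a‖ < R → ‖b‖ < R →
      ContDiffAt ℝ 2 (fun p : E × E => C.κ (C.κ.symm p.1 * C.κ.symm p.2)) (a, b))
    {F : E → ℂ} (hF : ContDiff ℝ 2 F)
    (hz : ∀ a : E, ‖a‖ < δ → ∀ s : E, 2 * (R / 3) ≤ ‖s‖ → ker C R F a s = 0) :
    ContDiffOn ℝ 2 (fun q : E × E => ker C R F q.1 q.2) (Metric.ball 0 δ ×ˢ Set.univ) := by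
  rintro ⟨a, s⟩ ⟨ha, -⟩
  have ha' : ‖a‖ < δ := by simpa using ha
  refine ContDiffAt.contDiffWithinAt ?_
  by_cases hs : ‖s‖ < R
  · have h1 : ContDiffAt ℝ 2 (fun q : E × E => (q.1, -q.2)) (a, s) :=
      contDiffAt_fst.prodMk contDiffAt_snd.neg
    have h2 := hm a (-s) (lt_of_lt_of_le ha' hδR) (by rwa [norm_neg])
    have h3 : ContDiffAt ℝ 2 (fun q : E × E => C.κ (C.κ.symm q.1 * C.κ.symm (-q.2))) (a, s) :=
      ContDiffAt.comp (a, s) (g := fun p : E × E => C.κ (C.κ.symm p.1 * C.κ.symm p.2)) h2 h1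
    have h4 : ContDiffAt ℝ 2 (fun q : E × E => F (C.κ (C.κ.symm q.1 * C.κ.symm (-q.2)))) (a, s) :=
      hF.contDiffAt.comp (a, s) h3
    refine h4.congr_of_eventuallyEq ?_
    have h5 : ∀ᶠ q : E × E in 𝓝 (a, s), ‖q.2‖ < R :=
      (continuous_snd.norm).continuousAt.eventually (gt_mem_nhds hs)
    filter_upwards [h5] with q hq
    exact ker_pos C F q.1 hq
  · have h4 : ContDiffAt ℝ 2 (fun _ : E × E => (0 : ℂ)) (a, s) := contDiffAt_const
    refine h4.congr_of_eventuallyEq ?_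
    have h5 : ∀ᶠ q : E × E in 𝓝 (a, s), 2 * (R / 3) < ‖q.2‖ :=
      (continuous_snd.norm).continuousAt.eventually (lt_mem_nhds (by
        show 2 * (R / 3) < ‖s‖
        linarith [not_lt.1 hs]))
    have h6 : ∀ᶠ q : E × E in 𝓝 (a, s), ‖q.1‖ < δ :=
      (continuous_fst.norm).continuousAt.eventually (gt_mem_nhds ha')
    filter_upwards [h5, h6] with q hq hq'
    exact hz q.1 hq' q.2 hq.le


end P

section L

variable {G : Type} [Group G] [TopologicalSpace G] {Q : Type} [Group Q] [TopologicalSpace Q]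
  {E : Type} [NormedAddCommGroup E] [NormedSpace ℝ E]

theorem mem_N (D : QD G Q) {l : G} (hl : l ∈ D.N) : ∃ h : l ∈ D.H, D.π ⟨l, h⟩ = 1 := by
  obtain ⟨k, hk, rfl⟩ := hl
  exact ⟨k.2, hk⟩

theorem lift3_mem (D : QD G Q) (C : LieChart Q E) (F : E → ℂ) {z : G} (h : z ∈ D.H) :
    lift3 D C F z = FL.lift C F (D.π ⟨z, h⟩) := by
  unfold lift3
  rw [dif_pos h]

theorem lift3_notMem (D : QD G Q) (C : LieChart Q E) (F : E → ℂ) {z : G} (h : z ∉ D.H) :
    lift3 D C F z = 0 := by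
  unfold lift3
  rw [dif_neg h]

theorem lift3_inv (D : QD G Q) (C : LieChart Q E) (F : E → ℂ) {l : G} (hl : l ∈ D.N) (z : G) :
    lift3 D C F (l * z) = lift3 D C F z := by
  obtain ⟨h, hl1⟩ := mem_N D hl
  by_cases hz : z ∈ D.H
  · rw [lift3_mem D C F hz, lift3_mem D C F (D.H.mul_mem h hz)]
    have : D.π ⟨l * z, D.H.mul_mem h hz⟩ = D.π ⟨l, h⟩ * D.π ⟨z, hz⟩ := by
      rw [← map_mul]
      rfl
    rw [this, hl1, one_mul]
  · have h2 : l * z ∉ D.H := fun h3 => hz ((D.H.mul_mem_cancel_left h).1 h3)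
    rw [lift3_notMem D C F hz, lift3_notMem D C F h2]

theorem lift3_Cc [IsTopologicalGroup G] (D : QD G Q) (C : LieChart Q E) (F : E → ℂ)
    (hK : ∀ K : Set Q, IsCompact K → IsCompact {x : G | ∃ h : x ∈ D.H, D.π ⟨x, h⟩ ∈ K})
    (h : Cc (FL.lift C F)) [R1Space G] : Cc (lift3 D C F) := by
  refine ⟨?_, ?_⟩
  · rw [continuous_iff_continuousAt]
    intro z
    by_cases hz : z ∈ D.H
    · have h1 := D.isOpen.isOpenEmbedding_subtypeVal.continuousAt_iff (f := ((↑) : D.H → G))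
        (g := lift3 D C F) (x := ⟨z, hz⟩)
      refine h1.1 ?_
      have h2 : (lift3 D C F) ∘ ((↑) : D.H → G) = FL.lift C F ∘ D.π := by
        funext y
        exact lift3_mem D C F y.2
      rw [h2]
      exact (h.1.comp D.cont).continuousAt
    · have hcl : IsClosed (D.H : Set G) := D.H.isClosed_of_isOpen D.isOpen
      have h1 : ContinuousAt (fun _ : G => (0 : ℂ)) z := continuousAt_const
      refine h1.congr ?_
      filter_upwards [hcl.isOpen_compl.mem_nhds hz] with y hy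
      exact (lift3_notMem D C F hy).symm
  · refine HasCompactSupport.intro (hK _ h.2) ?_
    intro x hx
    by_cases hxH : x ∈ D.H
    · rw [lift3_mem D C F hxH]
      by_contra hne
      exact hx ⟨hxH, subset_tsupport _ hne⟩
    · exact lift3_notMem D C F hxH

/-- the chart on `H` -/
def kk (D : QD G Q) (C : LieChart Q E) (z : G) : E := by
  classical exact if h : z ∈ D.H then C.κ (D.π ⟨z, h⟩) else 0

theorem kk_mem (D : QD G Q) (C : LieChart Q E) {z : G} (h : z ∈ D.H) :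
    kk D C z = C.κ (D.π ⟨z, h⟩) := by
  unfold kk
  rw [dif_pos h]

end L

section M

variable {G : Type} [Group G] [TopologicalSpace G] [IsTopologicalGroup G] [T2Space G]
  [LocallyCompactSpace G] [MeasurableSpace G] [BorelSpace G]
  (μ : Measure G) [μ.IsHaarMeasure]

/-- the average as a continuous linear map -/
theorem exists_clm (L : Subgroup G) (hL : IsCompact (L : Set G)) (m : Measure G) (hm : IsAv L m)
    (hUB : S_UB G μ) (hAV : S3_AV G μ) :
    ∃ A : HH μ →L[ℂ] HH μ, (∀ ξ, ‖A ξ‖ ≤ ‖ξ‖) ∧ (∀ ξ ∈ HN μ L, A ξ = ξ) ∧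
      ∀ l ∈ L, ∀ ξ, A (U μ l ξ) = A ξ := by
  obtain ⟨h1, h2, -⟩ := hAV L hL m hm
  refine ⟨LinearMap.mkContinuous
    { toFun := fun ξ => avH μ m ξ
      map_add' := ?_
      map_smul' := ?_ } 1 ?_, ?_, ?_, ?_⟩
  · intro ξ η
    unfold avH
    rw [← integral_add (h1 ξ).1 (h1 η).1]
    refine integral_congr_ae (Eventually.of_forall fun l => ?_)
    exact map_add (U μ l) ξ η
  · intro c ξ
    unfold avH
    rw [RingHom.id_apply, ← integral_smul]
    refine integral_congr_ae (Eventually.of_forall fun l => ?_)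
    exact LinearIsometry.map_smul (U μ l) c ξ
  · intro ξ
    rw [one_mul]
    exact (h1 ξ).2.2
  · intro ξ
    exact (h1 ξ).2.2
  · intro ξ hξ
    exact h2 ξ hξ
  · intro l hl ξ
    show avH μ m (U μ l ξ) = avH μ m ξ
    unfold avH
    have e1 : ∫ k, U μ k (U μ l ξ) ∂m = ∫ k, (fun k => U μ k ξ) (l * k) ∂m := by
      refine integral_congr_ae (Eventually.of_forall fun k => ?_)
      show U μ k (U μ l ξ) = U μ (l * k) ξ
      rw [hUB.1]
    have e2 : ∫ k, (fun k => U μ k ξ) (l * k) ∂m =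
        ∫ k, U μ k ξ ∂(m.map (fun x => l * x)) := by
      symm
      exact (Homeomorph.mulLeft l).isClosedEmbedding.measurableEmbedding.integral_map _
    rw [e1, e2, hm.left l hl]

variable {Q : Type} [Group Q] [TopologicalSpace Q] [IsTopologicalGroup Q] [T2Space Q]
  {E : Type} [NormedAddCommGroup E] [NormedSpace ℝ E] [FiniteDimensional ℝ E]

/-- translates of the convolution -/
theorem trans (hUB : S_UB G μ) (hCL : S_CONVL G μ) {f w : G → ℂ} (hf : Cc f) (hw : Cc w)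
    (x : G) : U μ x (cl μ (conv μ f w)) = ∫ z, f (x * z) • U μ z⁻¹ (cl μ w) ∂μ := by
  obtain ⟨hU1, hU2, hU3, hU4⟩ := hUB
  obtain ⟨-, hint, hconv⟩ := hCL f w hf hw
  have e1 : U μ x (∫ z, f z • U μ z⁻¹ (cl μ w) ∂μ) =
      ∫ z, U μ x (f z • U μ z⁻¹ (cl μ w)) ∂μ := ((U μ x).integral_comp_comm _).symm
  have e2 : ∫ z, U μ x (f z • U μ z⁻¹ (cl μ w)) ∂μ =
      ∫ z, (fun z => f z • U μ (z⁻¹ * x) (cl μ w)) z ∂μ := by
    refine integral_congr_ae (Eventually.of_forall fun z => ?_)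
    show U μ x (f z • U μ z⁻¹ (cl μ w)) = f z • U μ (z⁻¹ * x) (cl μ w)
    rw [LinearIsometry.map_smul, hU1]
  have e3 : ∫ z, (fun z => f z • U μ (z⁻¹ * x) (cl μ w)) z ∂μ =
      ∫ z, f (x * z) • U μ z⁻¹ (cl μ w) ∂μ := by
    rw [← integral_mul_left_eq_self _ x]
    refine integral_congr_ae (Eventually.of_forall fun z => ?_)
    show f (x * z) • U μ ((x * z)⁻¹ * x) (cl μ w) = f (x * z) • U μ z⁻¹ (cl μ w)
    rw [mul_inv_rev, mul_assoc, inv_mul_cancel, mul_one]
  rw [hconv, e1, e2, e3]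

/-- the translates of the convolution as a parametric integral over `E` -/
theorem main (D : QD G Q) (C : LieChart Q E) (hUB : S_UB G μ) (hCC : S_CC G μ)
    (hCL : S_CONVL G μ) (hHM : S3_HM G) (hAV : S3_AV G μ) (hV3 : S3_V G μ Q)
    (hK3 : ∀ K : Set Q, IsCompact K → IsCompact {x : G | ∃ h : x ∈ D.H, D.π ⟨x, h⟩ ∈ K})
    [MeasurableSpace E] [BorelSpace E] {R : ℝ} (hR : 0 < R) (hT : Metric.ball 0 R ⊆ C.κ.target)
    (hm : ∀ a b : E, ‖a‖ < R → ‖b‖ < R → C.κ.symm a * C.κ.symm b ∈ C.κ.source)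
    (hsm : ∀ a b : E, ‖a‖ < R → ‖b‖ < R →
      ContDiffAt ℝ 2 (fun p : E × E => C.κ (C.κ.symm p.1 * C.κ.symm p.2)) (a, b))
    {F : E → ℂ} (hF : ContDiff ℝ 2 F) (hs : tsupport F ⊆ Metric.ball 0 (R / 3))
    (w : G → ℂ) (hw : Cc w) :
    cl μ (conv μ (lift3 D C F) w) ∈ HN μ D.N ∧ ∃ Φ : E → HH μ, ContDiffAt ℝ 2 Φ 0 ∧
      ∀ᶠ a in 𝓝 (0 : E),
        U μ (D.s (C.κ.symm a)) (cl μ (conv μ (lift3 D C F) w)) = Φ a := by
  classical
  have hprop : ProperSpace E := FiniteDimensional.proper_real E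
  obtain ⟨δ, hδ, hδR, hd1, hd2, hd3⟩ := small C hR hT hm hs
  have hker := ker_smooth C hR hδR hsm hF hd3
  have hT3 : Metric.closedBall 0 (R / 3) ⊆ C.κ.target := fun a ha => hT (by
    rw [mem_closedBall_zero_iff] at ha
    rw [mem_ball_zero_iff]
    linarith)
  have hT6 : Metric.closedBall 0 (2 * (R / 3)) ⊆ C.κ.target := fun a ha => hT (by
    rw [mem_closedBall_zero_iff] at ha
    rw [mem_ball_zero_iff]
    linarith)
  have hf : Cc (lift3 D C F) := lift3_Cc D C F hK3 (lift_Cc C hT3 hF.continuous hs)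
  obtain ⟨hU1, hU2, hU3, hU4⟩ := id hUB
  obtain ⟨hv1, hv2, hv3, hv4, hv5, hv6, -⟩ := hV3 D
  have htr := trans μ hUB hCL hf hw
  obtain ⟨m, hmA⟩ := hHM D.N D.cpt
  obtain ⟨A, hA1, hA2, hA3⟩ := exists_clm μ D.N D.cpt m hmA hUB hAV
  have hHN : cl μ (conv μ (lift3 D C F) w) ∈ HN μ D.N := by
    intro l hl
    rw [htr l]
    have h1 := htr 1
    rw [hU2] at h1
    rw [h1]
    refine integral_congr_ae (Eventually.of_forall fun z => ?_)
    show lift3 D C F (l * z) • U μ z⁻¹ (cl μ w) = lift3 D C F (1 * z) • U μ z⁻¹ (cl μ w)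
    rw [lift3_inv D C F hl, one_mul]
  refine ⟨hHN, ?_⟩
  -- the averaged vector
  set hq : Q → HH μ := fun q => A (U μ (D.s q)⁻¹ (cl μ w)) with hhq
  have hqz : ∀ (z : G) (h : z ∈ D.H), A (U μ z⁻¹ (cl μ w)) = hq (D.π ⟨z, h⟩) := by
    intro z h
    obtain ⟨n, hn, hz⟩ := hv4 z h
    have h1 : U μ z⁻¹ (cl μ w) = U μ n⁻¹ (U μ (D.s (D.π ⟨z, h⟩))⁻¹ (cl μ w)) := by
      rw [← hU1, ← mul_inv_rev, ← hz]
    rw [h1, hA3 n⁻¹ (D.N.inv_mem hn)]
  have hqc : Continuous hq := by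
    have hquot : IsQuotientMap D.π := D.opn.isQuotientMap D.cont D.surj
    rw [hquot.continuous_iff]
    have h1 : hq ∘ D.π = fun z : D.H => A (U μ ((z : G)⁻¹) (cl μ w)) := by
      funext z
      exact (hqz z z.2).symm
    rw [h1]
    exact A.continuous.comp ((hU3 (cl μ w)).comp (continuous_subtype_val.inv))
  set VQ : Set Q := C.κ.source ∩ C.κ ⁻¹' Metric.ball 0 (2 * (R / 3)) with hVQ
  have hVQo : IsOpen VQ := C.κ.isOpen_inter_preimage Metric.isOpen_ball
  set V : Set G := {z | ∃ h : z ∈ D.H, D.π ⟨z, h⟩ ∈ VQ} with hV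
  have hVim : V = ((↑) : D.H → G) '' (D.π ⁻¹' VQ) := by
    ext z
    constructor
    · rintro ⟨h, hz⟩
      exact ⟨⟨z, h⟩, hz, rfl⟩
    · rintro ⟨y, hy, rfl⟩
      exact ⟨y.2, hy⟩
  have hVo : IsOpen V := by
    rw [hVim]
    exact D.isOpen.isOpenMap_subtype_val _ (hVQo.preimage D.cont)
  have hVm : MeasurableSet V := hVo.measurableSet
  have hVK : V ⊆ {x : G | ∃ h : x ∈ D.H, D.π ⟨x, h⟩ ∈
      C.κ.symm '' Metric.closedBall (0 : E) (2 * (R / 3))} := by
    rintro z ⟨h, hz⟩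
    exact ⟨h, C.κ (D.π ⟨z, h⟩), Metric.ball_subset_closedBall hz.2, C.κ.left_inv hz.1⟩
  have hVfin : μ V < ⊤ :=
    lt_of_le_of_lt (measure_mono hVK) (hK3 _ (isCompact_img C hT6)).measure_lt_top
  have : IsFiniteMeasure (μ.restrict V) := ⟨by rwa [Measure.restrict_apply_univ]⟩
  have hkc0 : ContinuousOn (kk D C) V := by
    rintro z ⟨h, hz⟩
    refine ContinuousAt.continuousWithinAt ?_
    have h1 := D.isOpen.isOpenEmbedding_subtypeVal.continuousAt_iff (f := ((↑) : D.H → G))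
      (g := kk D C) (x := ⟨z, h⟩)
    refine h1.1 ?_
    have h2 : (kk D C) ∘ ((↑) : D.H → G) = C.κ ∘ D.π := by
      funext y
      exact kk_mem D C y.2
    rw [h2]
    exact ContinuousAt.comp (C.κ.continuousAt hz.1) D.cont.continuousAt
  have hκm : AEMeasurable (kk D C) (μ.restrict V) := hkc0.aemeasurable hVm
  set ν : Measure E := Measure.map (kk D C) (μ.restrict V) with hν
  have hνfin : IsFiniteMeasure ν := Measure.isFiniteMeasure_map _ _
  set h : E → HH μ := C.κ.target.indicator (fun t => hq (C.κ.symm t)) with hh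
  have hhm : AEStronglyMeasurable h ν := by
    rw [hh, aestronglyMeasurable_indicator_iff C.κ.open_target.measurableSet]
    refine ContinuousOn.aestronglyMeasurable ?_ C.κ.open_target.measurableSet
    exact hqc.comp_continuousOn C.κ.continuousOn_symm
  have hhint : Integrable h ν := by
    refine Integrable.of_bound hhm ‖cl μ w‖ (Eventually.of_forall fun t => ?_)
    rw [hh]
    by_cases ht : t ∈ C.κ.target
    · rw [Set.indicator_of_mem ht]
      exact (hA1 _).trans (by rw [LinearIsometry.norm_map])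
    · rw [Set.indicator_of_notMem ht, norm_zero]
      exact norm_nonneg _
  set L : HH μ →L[ℝ] ℂ →L[ℝ] HH μ := (ContinuousLinearMap.lsmul ℝ ℂ : ℂ →L[ℝ] HH μ →L[ℝ] HH μ).flip
    with hL
  have hcd := contDiffOn_convolution_right_with_param_comp (μ := ν) (n := 2) L
    (s := Metric.ball (0 : E) δ) (v := fun _ : E => (0 : E)) contDiffOn_const
    (f := h) (g := fun a s => ker C R F a s) (k := Metric.closedBall (0 : E) (2 * (R / 3)))
    Metric.isOpen_ball (isCompact_closedBall _ _) (by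
      intro a s ha hs'
      rw [mem_ball_zero_iff] at ha
      refine hd3 a ha s ?_
      rw [mem_closedBall_zero_iff, not_le] at hs'
      exact hs'.le) hhint.locallyIntegrable hker
  refine ⟨fun a => convolution h (fun s => ker C R F a s) L ν 0, ?_, ?_⟩
  · exact hcd.contDiffAt (Metric.ball_mem_nhds _ hδ)
  · filter_upwards [Metric.ball_mem_nhds (0 : E) hδ] with a ha
    rw [mem_ball_zero_iff] at ha
    have hkc : Continuous fun s : E => ker C R F a s :=
      hker.continuousOn.comp_continuous (f := fun s : E => (a, s)) (by fun_prop) (fun s =>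
        ⟨by rw [mem_ball_zero_iff]; exact ha, Set.mem_univ _⟩)
    obtain ⟨hxH, hxπ⟩ := hv3 (C.κ.symm a)
    set x := D.s (C.κ.symm a) with hx
    have hπx : ∀ (z : G) (hz : z ∈ D.H),
        D.π ⟨x * z, D.H.mul_mem hxH hz⟩ = C.κ.symm a * D.π ⟨z, hz⟩ := by
      intro z hz
      rw [← hxπ, ← map_mul]
      rfl
    have hcomm : ∀ z : G, A (lift3 D C F (x * z) • U μ z⁻¹ (cl μ w)) =
        lift3 D C F (x * z) • A (U μ z⁻¹ (cl μ w)) := fun z => map_smul A _ _
    have hint : Integrable (fun z => lift3 D C F (x * z) • U μ z⁻¹ (cl μ w)) μ :=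
      (hCL (fun y => lift3 D C F (x * y)) w ((hCC.2.2.2.1 _ hf x).1) hw).2.1
    have e0 : U μ x (cl μ (conv μ (lift3 D C F) w)) =
        A (∫ z, lift3 D C F (x * z) • U μ z⁻¹ (cl μ w) ∂μ) := by
      rw [← htr x]
      exact (hA2 _ (hv6 _ hHN x hxH)).symm
    have e3 : A (∫ z, lift3 D C F (x * z) • U μ z⁻¹ (cl μ w) ∂μ) =
        ∫ z, lift3 D C F (x * z) • A (U μ z⁻¹ (cl μ w)) ∂μ := by
      rw [← A.integral_comp_comm hint]
      exact integral_congr_ae (Eventually.of_forall hcomm)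
    have hfx : ∀ z : G, z ∉ V → lift3 D C F (x * z) = 0 := by
      intro z hz
      by_cases hzH : z ∈ D.H
      · rw [lift3_mem D C F (D.H.mul_mem hxH hzH), hπx z hzH]
        by_contra hne
        exact hz ⟨hzH, hd1 a ha _ hne⟩
      · exact lift3_notMem D C F fun h3 => hzH ((D.H.mul_mem_cancel_left hxH).1 h3)
    have e4 : ∫ z, lift3 D C F (x * z) • A (U μ z⁻¹ (cl μ w)) ∂μ =
        ∫ z in V, lift3 D C F (x * z) • A (U μ z⁻¹ (cl μ w)) ∂μ := by
      refine (setIntegral_eq_integral_of_forall_compl_eq_zero fun z hz => ?_).symm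
      rw [hfx z hz, zero_smul]
    have e5 : ∫ z in V, lift3 D C F (x * z) • A (U μ z⁻¹ (cl μ w)) ∂μ =
        ∫ z in V, L (h (kk D C z)) (ker C R F a (0 - kk D C z)) ∂μ := by
      refine setIntegral_congr_fun hVm ?_
      rintro z ⟨hzH, hz⟩
      have h1 : h (kk D C z) = A (U μ z⁻¹ (cl μ w)) := by
        rw [kk_mem D C hzH, hh, Set.indicator_of_mem (C.κ.map_source hz.1),
          C.κ.left_inv hz.1, hqz z hzH]
      show lift3 D C F (x * z) • A (U μ z⁻¹ (cl μ w)) =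
        L (h (kk D C z)) (ker C R F a (0 - kk D C z))
      rw [h1, kk_mem D C hzH, ← hd2 a ha _ hz, hL, lift3_mem D C F (D.H.mul_mem hxH hzH),
        hπx z hzH]
      rfl
    have e6 : ∫ z in V, L (h (kk D C z)) (ker C R F a (0 - kk D C z)) ∂μ =
        ∫ t, L (h t) (ker C R F a (0 - t)) ∂ν := by
      have hk0 : AEStronglyMeasurable (fun t : E => ker C R F a (0 - t)) ν :=
        (hkc.comp (by fun_prop : Continuous fun t : E => 0 - t)).aestronglyMeasurable
      have hme : AEStronglyMeasurable (fun t : E => L (h t) (ker C R F a (0 - t))) ν :=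
        L.aestronglyMeasurable_comp₂ hhm hk0
      exact (integral_map hκm hme).symm
    rw [e0, e3, e4, e5, e6]
    rfl

end M

end TSM2

section B

variable (G : Type) [Group G] [TopologicalSpace G] [IsTopologicalGroup G] [T2Space G]
  [LocallyCompactSpace G] [MeasurableSpace G] [BorelSpace G]
  (μ : Measure G) [μ.IsHaarMeasure]
  (Q : Type) [Group Q] [TopologicalSpace Q] [IsTopologicalGroup Q] [T2Space Q]
  (E : Type) [NormedAddCommGroup E] [NormedSpace ℝ E] [FiniteDimensional ℝ E]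

theorem t3_SM2 : S_UB G μ → S_CC G μ → S_CONVL G μ → S_PE2 → S3_HM G → S3_AV G μ →
    S3_V G μ Q → S3_VF G Q → S3_SM2 G μ Q E := by
  intro hUB hCC hCL hPE hHM hAV hV hVF D C
  borelize E
  obtain ⟨-, -, -, -, -, hK3, -⟩ := hVF D
  obtain ⟨R, hR, hT, hm, hsm⟩ := TSM2.radius C
  refine ⟨R / 3, by positivity, fun F hF hs => ?_⟩
  have hT3 : Metric.closedBall 0 (R / 3) ⊆ C.κ.target := fun a ha => hT (by
    rw [mem_closedBall_zero_iff] at ha
    rw [mem_ball_zero_iff]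
    linarith)
  have h2i : (2 : WithTop ℕ∞) ≤ ∞ := by
    have : ((2 : ℕ∞) : WithTop ℕ∞) ≤ ∞ := WithTop.coe_le_coe.2 le_top
    exact this
  refine ⟨TSM2.lift3_Cc D C F hK3 (TSM2.lift_Cc C hT3 hF.continuous hs), fun w hw => ?_⟩
  obtain ⟨hHN, Φ, hΦ, hΦe⟩ := TSM2.main μ D C hUB hCC hCL hHM hAV hV hK3 hR hT hm hsm
    (hF.of_le h2i) hs w hw
  refine ⟨hHN, ?_⟩
  obtain ⟨L, B, hLB⟩ := hPE.1 E (HH μ) Φ hΦ
  refine ⟨L, B, hLB.congr' ?_ (EventuallyEq.refl _ _)⟩
  filter_upwards [hΦe] with a ha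
  rw [← ha, ← hΦe.self_of_nhds]

end B

end

end Pool.Agent.W660.FG
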