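import Pool.Agent.W660.FG.Stm

/-!
Part SM3 of project FG (problem MP_2da52b_an): density of smooth invariant vectors.
-/

namespace Pool.Agent.W660.FG

open Pool.Agent.W660.FL
open MeasureTheory Complex Filter Topology
open scoped ComplexConjugate InnerProductSpace Manifold ContDiff

noncomputable section

namespace TSM3

variable {G Q : Type} [Group G] [TopologicalSpace G] [Group Q] [TopologicalSpace Q] {E : Type}
  [NormedAddCommGroup E] [NormedSpace ℝ E]

theorem lift_smul (C : LieChart Q E) (F : E → ℂ) (c : ℂ) (z : Q) :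
    lift C (fun a => c * F a) z = c * lift C F z := by
  unfold FL.lift
  split_ifs
  · rfl
  · simp

theorem lift_real (C : LieChart Q E) (b : E → ℝ) (z : Q) :
    lift C (fun a => ((b a : ℝ) : ℂ)) z = (((lift C (fun a => ((b a : ℝ) : ℂ)) z).re : ℝ) : ℂ) := by
  unfold FL.lift
  split_ifs
  · simp
  · simp

theorem lift_nonneg (C : LieChart Q E) (b : E → ℝ) (hb : ∀ a, 0 ≤ b a) (z : Q) :
    0 ≤ (lift C (fun a => ((b a : ℝ) : ℂ)) z).re := by
  unfold FL.lift
  split_ifs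
  · simpa using hb _
  · simp

theorem lift_supp (C : LieChart Q E) (F : E → ℂ) (z : Q) (h : lift C F z ≠ 0) :
    z ∈ C.κ.source ∧ F (C.κ z) ≠ 0 := by
  unfold FL.lift at h
  split_ifs at h with h1
  · exact ⟨h1, h⟩
  · exact absurd rfl h

theorem lift3_smul (D : QD G Q) (C : LieChart Q E) (F : E → ℂ) (c : ℂ) (z : G) :
    lift3 D C (fun a => c * F a) z = c * lift3 D C F z := by
  unfold lift3
  split_ifs
  · exact lift_smul C F c _
  · simp

theorem lift3_real (D : QD G Q) (C : LieChart Q E) (b : E → ℝ) (z : G) :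
    lift3 D C (fun a => ((b a : ℝ) : ℂ)) z =
      (((lift3 D C (fun a => ((b a : ℝ) : ℂ)) z).re : ℝ) : ℂ) := by
  unfold lift3
  split_ifs
  · exact lift_real C b _
  · simp

theorem lift3_nonneg (D : QD G Q) (C : LieChart Q E) (b : E → ℝ) (hb : ∀ a, 0 ≤ b a) (z : G) :
    0 ≤ (lift3 D C (fun a => ((b a : ℝ) : ℂ)) z).re := by
  unfold lift3
  split_ifs
  · exact lift_nonneg C b hb _
  · simp

theorem lift3_supp (D : QD G Q) (C : LieChart Q E) (F : E → ℂ) (z : G)
    (h : lift3 D C F z ≠ 0) :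
    ∃ hz : z ∈ D.H, D.π ⟨z, hz⟩ ∈ C.κ.source ∧ F (C.κ (D.π ⟨z, hz⟩)) ≠ 0 := by
  unfold lift3 at h
  split_ifs at h with h1
  · exact ⟨h1, lift_supp C F _ h⟩
  · exact absurd rfl h

theorem lift3_one (D : QD G Q) (C : LieChart Q E) (F : E → ℂ) :
    lift3 D C F 1 = F 0 := by
  unfold lift3
  rw [dif_pos D.H.one_mem]
  have h1 : D.π ⟨1, D.H.one_mem⟩ = 1 := D.π.map_one
  rw [h1]
  unfold FL.lift
  rw [if_pos C.one_mem, C.map_one]

end TSM3

variable (G : Type) [Group G] [TopologicalSpace G] [IsTopologicalGroup G] [T2Space G]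
  [LocallyCompactSpace G] [MeasurableSpace G] [BorelSpace G]
  (μ : Measure G) [μ.IsHaarMeasure]
  (Q : Type) [Group Q] [TopologicalSpace Q]
  (E : Type) [NormedAddCommGroup E] [NormedSpace ℝ E] [FiniteDimensional ℝ E]

theorem t3_SM3 : S_CONVA G μ → S_CONVL G μ → S3_HM G → S3_AV G μ → S3_APPR G μ Q →
    S3_SM2 G μ Q E → S3_SM3 G μ Q E := by
  intro hCA hCL hHM hAV hAp hS2 D C A hA w hwA hw hwI ε hε
  obtain ⟨V, hV, hVf⟩ := hAp D w hw hwI ε hε
  obtain ⟨r₁, hr₁, hS⟩ := hS2 D C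
  -- a ball in the chart
  have h0t : (0 : E) ∈ C.κ.target := by
    have := C.κ.map_source C.one_mem
    rwa [C.map_one] at this
  have hsymm0 : C.κ.symm (0 : E) = 1 := by
    rw [← C.map_one]
    exact C.κ.left_inv C.one_mem
  have hcont : ContinuousAt C.κ.symm (0 : E) := C.κ.continuousAt_symm h0t
  have hpre : C.κ.symm ⁻¹' V ∈ 𝓝 (0 : E) := by
    apply hcont
    rw [hsymm0]
    exact hV
  obtain ⟨r₂, hr₂, hball⟩ := Metric.mem_nhds_iff.1 hpre
  have hrpos : 0 < min r₁ r₂ := lt_min hr₁ hr₂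
  let b : ContDiffBump (0 : E) := ⟨min r₁ r₂ / 4, min r₁ r₂ / 2, by positivity, by linarith⟩
  have hbOut : b.rOut = min r₁ r₂ / 2 := rfl
  have hts : tsupport (b : E → ℝ) ⊆ Metric.ball 0 (min r₁ r₂) := by
    rw [b.tsupport_eq, hbOut]
    intro a ha
    rw [Metric.mem_closedBall] at ha
    rw [Metric.mem_ball]
    linarith
  have hsup : ∀ a, b a ≠ 0 → a ∈ Metric.ball (0 : E) (min r₁ r₂) := fun a ha =>
    hts (subset_tsupport _ ha)
  have key : ∀ c : ℂ, ContDiff ℝ ∞ (fun a : E => c * ((b a : ℝ) : ℂ)) ∧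
      tsupport (fun a : E => c * ((b a : ℝ) : ℂ)) ⊆ Metric.ball 0 r₁ := by
    intro c
    constructor
    · exact contDiff_const.mul (Complex.ofRealCLM.contDiff.comp b.contDiff)
    · have h1 : tsupport (fun a : E => c * ((b a : ℝ) : ℂ)) ⊆ tsupport (b : E → ℝ) := by
        apply closure_mono
        intro a ha
        rw [Function.mem_support] at ha ⊢
        intro h
        apply ha
        rw [h]
        simp
      exact (h1.trans hts).trans (Metric.ball_subset_ball (min_le_left _ _))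
  -- the unnormalised function
  set f₁ : G → ℂ := lift3 D C (fun a : E => ((b a : ℝ) : ℂ)) with hf₁
  have hf₁eq : ∀ c : ℂ, lift3 D C (fun a : E => c * ((b a : ℝ) : ℂ)) = fun z => c * f₁ z := by
    intro c
    funext z
    exact TSM3.lift3_smul D C _ c z
  have hf₁c : Cc f₁ := by
    have h := (hS _ (key 1).1 (key 1).2).1
    rw [hf₁eq 1] at h
    simpa using h
  set g : G → ℝ := fun z => (f₁ z).re with hg
  have hgf : ∀ z, f₁ z = ((g z : ℝ) : ℂ) := fun z => TSM3.lift3_real D C _ z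
  have hg0 : 0 ≤ g := fun z => TSM3.lift3_nonneg D C _ (fun a => b.nonneg) z
  have hgc : Continuous g := Complex.continuous_re.comp hf₁c.1
  have hgs : HasCompactSupport g := hf₁c.2.comp_left (g := Complex.re) Complex.zero_re
  have hg1 : g 1 ≠ 0 := by
    have : f₁ 1 = 1 := by
      rw [hf₁, TSM3.lift3_one]
      have hb1 : b (0 : E) = 1 := b.one_of_mem_closedBall (Metric.mem_closedBall_self b.rIn_pos.le)
      show ((b (0 : E) : ℝ) : ℂ) = 1
      rw [hb1]
      simp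
    rw [hg]
    simp [this]
  have hJ : 0 < ∫ z, g z ∂μ := hgc.integral_pos_of_hasCompactSupport_nonneg_nonzero hgs hg0 hg1
  set J : ℝ := ∫ z, g z ∂μ with hJdef
  set f : G → ℂ := fun z => ((J⁻¹ : ℝ) : ℂ) * f₁ z with hf
  have hfl : f = lift3 D C (fun a : E => ((J⁻¹ : ℝ) : ℂ) * ((b a : ℝ) : ℂ)) := (hf₁eq _).symm
  have hfS := hS _ (key ((J⁻¹ : ℝ) : ℂ)).1 (key ((J⁻¹ : ℝ) : ℂ)).2
  rw [← hfl] at hfS
  obtain ⟨hfc, hfSm⟩ := hfS
  have hfre : ∀ x, (f x).im = 0 ∧ 0 ≤ (f x).re := by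
    intro x
    have : f x = ((J⁻¹ * g x : ℝ) : ℂ) := by
      rw [hf]
      simp only [hgf x]
      push_cast
      ring
    rw [this]
    refine ⟨Complex.ofReal_im _, ?_⟩
    rw [Complex.ofReal_re]
    exact mul_nonneg (inv_nonneg.2 hJ.le) (hg0 x)
  have hfint : ∫ x, f x ∂μ = 1 := by
    have h1 : (fun x => f x) = fun x => ((J⁻¹ * g x : ℝ) : ℂ) := by
      funext x
      rw [hf]
      simp only [hgf x]
      push_cast
      ring
    rw [h1, integral_complex_ofReal, integral_const_mul, ← hJdef, inv_mul_cancel₀ hJ.ne']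
    simp
  have hfV : ∀ x, f x ≠ 0 → ∃ h : x ∈ D.H, D.π ⟨x, h⟩ ∈ V := by
    intro x hne
    have h1 : f₁ x ≠ 0 := by
      intro h
      apply hne
      rw [hf]
      simp [h]
    obtain ⟨hxH, hs, hF⟩ := TSM3.lift3_supp D C _ x h1
    refine ⟨hxH, ?_⟩
    have h2 : C.κ (D.π ⟨x, hxH⟩) ∈ Metric.ball (0 : E) (min r₁ r₂) := by
      apply hsup
      intro h
      apply hF
      rw [h]
      simp
    have h3 : C.κ (D.π ⟨x, hxH⟩) ∈ C.κ.symm ⁻¹' V :=
      hball (Metric.ball_subset_ball (min_le_right _ _) h2)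
    have h4 : C.κ.symm (C.κ (D.π ⟨x, hxH⟩)) = D.π ⟨x, hxH⟩ := C.κ.left_inv hs
    rw [Set.mem_preimage, h4] at h3
    exact h3
  obtain ⟨hV1, hV2⟩ := hVf f hfc hfre hfint hfV
  have hvc : Cc (conv μ f w) := (hCL f w hfc hw).1
  have hvS : Sm3 μ D C (cl μ (conv μ f w)) := hfSm w hw
  obtain ⟨m, hm⟩ := hHM D.N D.cpt
  have hvI : InvL D.N (conv μ f w) :=
    ((hAV D.N D.cpt m hm).2.2.2.2 (conv μ f w) hvc).2 hvS.1
  refine ⟨conv μ f w, (hCA f w hfc hw A hA).1 hwA, hvc, hvI, hvS, ?_, ?_⟩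
  · intro x
    rw [norm_sub_rev]
    exact hV1 x
  · rw [norm_sub_rev]
    exact hV2

end

end Pool.Agent.W660.FG
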