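import Pool.Agent.W660.FG.Stm

/-! FG-SMALL: small subgroups adapted to the algebra. -/

namespace Pool.Agent.W660.FG

open Pool.Agent.W660.FL
open MeasureTheory Complex Filter Topology
open scoped ComplexConjugate InnerProductSpace Manifold ContDiff

namespace TSMALL

/-- the subgroup of the elements which leave the `N`-invariant elements of `A` fixed -/
def LL {G : Type} [Group G] (A : Set (G → ℂ)) (N : Subgroup G) : Subgroup G where
  carrier := {x | ∀ u ∈ A, InvL N u → ∀ y, u (x * y) = u y}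
  one_mem' := fun u _ _ y => by rw [one_mul]
  mul_mem' := fun {a b} ha hb u hu hN y => by
    rw [mul_assoc, ha u hu hN, hb u hu hN]
  inv_mem' := fun {a} ha u hu hN y => by
    have h := ha u hu hN (a⁻¹ * y)
    rw [mul_inv_cancel_left] at h
    exact h.symm

theorem mem_LL {G : Type} [Group G] {A : Set (G → ℂ)} {N : Subgroup G} {x : G} :
    x ∈ LL A N ↔ ∀ u ∈ A, InvL N u → ∀ y, u (x * y) = u y := Iff.rfl

end TSMALL

open TSMALL

noncomputable section

variable (G : Type) [Group G] [TopologicalSpace G] [IsTopologicalGroup G] [T2Space G]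
  [LocallyCompactSpace G] [MeasurableSpace G] [BorelSpace G]
  (μ : Measure G) [μ.IsHaarMeasure]

theorem t3_SMALL : S_DSA G μ → S_SUPD G μ → S3_HM G → S3_AVF G → S3_AVA G μ → S3_AVS G μ →
    S3_SMALL G μ := by
  intro hD hS hHM hAVF hAVA hAVS A hA V hV
  have hcont : ∀ u ∈ A, Continuous u := fun u hu => (hD A hA u hu).1
  have happ : ∀ u ∈ A, ∀ ε' > 0, ∃ v : G → ℂ, Cc v ∧ ∀ x, ‖u x - v x‖ ≤ ε' := by
    intro u hu ε' hε'
    obtain ⟨v, _, hv, h⟩ := hS A hA u hu ε' hε'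
    exact ⟨v, hv, h⟩
  -- the first function
  obtain ⟨u0, hu0, hne⟩ := hA.nz 1
  have hc : 0 < ‖u0 1‖ := norm_pos_iff.2 hne
  obtain ⟨v0, _, hv0, hv0u⟩ := hS A hA u0 hu0 (‖u0 1‖ / 8) (by positivity)
  obtain ⟨V0, hV0, hV0'⟩ := hAVS.2 u0 (‖u0 1‖ / 8) (hcont u0 hu0) (happ u0 hu0) (by positivity)
  have hSc : IsCompact (tsupport v0) := hv0.2
  -- the local statement
  have hloc : ∀ x : G, x ≠ 1 → ∃ W ∈ 𝓝 x, ∃ Vx ∈ 𝓝 (1 : G), ∀ N : Subgroup G,
      IsCompact (N : Set G) → (N : Set G) ⊆ Vx → ∀ y ∈ W, y ∉ LL A N := by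
    intro x hx
    obtain ⟨u, hu, hux⟩ := hA.sep x 1 hx
    have hd : 0 < ‖u x - u 1‖ := norm_pos_iff.2 (sub_ne_zero.2 hux)
    obtain ⟨Vx, hVx, hVx'⟩ := hAVS.2 u (‖u x - u 1‖ / 4) (hcont u hu) (happ u hu) (by positivity)
    have hW : {y : G | 3 * (‖u x - u 1‖ / 4) < ‖u y - u 1‖} ∈ 𝓝 x := by
      apply IsOpen.mem_nhds
      · exact isOpen_lt continuous_const ((hcont u hu).sub continuous_const).norm
      · show 3 * (‖u x - u 1‖ / 4) < ‖u x - u 1‖
        linarith
    refine ⟨_, hW, Vx, hVx, ?_⟩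
    intro N hN hNV y hy hyL
    obtain ⟨m, hm⟩ := hHM N hN
    have h1 := hVx' N m hN hm hNV
    have h2 : av m u y = av m u 1 := by
      have := hyL (av m u) (hAVA A hA N hN m hm u hu) ((hAVF N hN m hm).1 u (hcont u hu)).2.1 1
      rwa [mul_one] at this
    have h3 : ‖u y - u 1‖ ≤ ‖av m u y - u y‖ + ‖av m u 1 - u 1‖ := by
      have : u y - u 1 = (av m u 1 - u 1) - (av m u y - u y) := by rw [h2]; ring
      rw [this]
      refine (norm_sub_le _ _).trans ?_
      rw [add_comm]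
    have h4 := h1 y
    have h5 := h1 1
    have h6 : 3 * (‖u x - u 1‖ / 4) < ‖u y - u 1‖ := hy
    linarith
  -- the compact set
  have hK : IsCompact (tsupport v0 \ interior V) := hSc.diff isOpen_interior
  obtain ⟨V1, hV1, hV1'⟩ : ∃ V1 ∈ 𝓝 (1 : G), ∀ N : Subgroup G,
      IsCompact (N : Set G) → (N : Set G) ⊆ V1 → ∀ y ∈ tsupport v0 \ interior V, y ∉ LL A N := by
    refine hK.induction_on (p := fun s => ∃ V1 ∈ 𝓝 (1 : G), ∀ N : Subgroup G,
      IsCompact (N : Set G) → (N : Set G) ⊆ V1 → ∀ y ∈ s, y ∉ LL A N) ?_ ?_ ?_ ?_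
    · exact ⟨Set.univ, univ_mem, fun N _ _ y hy => absurd hy (Set.notMem_empty y)⟩
    · rintro s t hst ⟨V1, hV1, h⟩
      exact ⟨V1, hV1, fun N hN hNV y hy => h N hN hNV y (hst hy)⟩
    · rintro s t ⟨V1, hV1, h1⟩ ⟨V2, hV2, h2⟩
      refine ⟨V1 ∩ V2, inter_mem hV1 hV2, fun N hN hNV y hy => ?_⟩
      rcases hy with hy | hy
      · exact h1 N hN (hNV.trans Set.inter_subset_left) y hy
      · exact h2 N hN (hNV.trans Set.inter_subset_right) y hy
    · intro x hx
      have hx1 : x ≠ 1 := by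
        rintro rfl
        exact hx.2 (mem_interior_iff_mem_nhds.2 hV)
      obtain ⟨W, hW, Vx, hVx, h⟩ := hloc x hx1
      exact ⟨W, mem_nhdsWithin_of_mem_nhds hW, Vx, hVx, h⟩
  refine ⟨V0 ∩ V1, inter_mem hV0 hV1, ?_⟩
  intro N hN hNV
  obtain ⟨m, hm⟩ := hHM N hN
  have hN0 : (N : Set G) ⊆ V0 := hNV.trans Set.inter_subset_left
  have hN1 : (N : Set G) ⊆ V1 := hNV.trans Set.inter_subset_right
  have hg := hV0' N m hN hm hN0
  have hgA : av m u0 ∈ A := hAVA A hA N hN m hm u0 hu0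
  have hgI : InvL N (av m u0) := ((hAVF N hN m hm).1 u0 (hcont u0 hu0)).2.1
  have hg1 : 7 / 8 * ‖u0 1‖ ≤ ‖av m u0 1‖ := by
    have h1 := hg 1
    have h2 : ‖u0 1‖ ≤ ‖av m u0 1‖ + ‖av m u0 1 - u0 1‖ := by
      have : u0 1 = av m u0 1 - (av m u0 1 - u0 1) := by ring
      calc ‖u0 1‖ = ‖av m u0 1 - (av m u0 1 - u0 1)‖ := by rw [← this]
        _ ≤ _ := norm_sub_le _ _
    linarith
  have hLS : (LL A N : Set G) ⊆ tsupport v0 := by
    intro x hx
    by_contra hxS
    have h1 : av m u0 x = av m u0 1 := by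
      have := mem_LL.1 hx (av m u0) hgA hgI 1
      rwa [mul_one] at this
    have h2 : v0 x = 0 := image_eq_zero_of_notMem_tsupport hxS
    have h3 := hv0u x
    rw [h2, sub_zero] at h3
    have h4 : ‖av m u0 x‖ ≤ ‖av m u0 x - u0 x‖ + ‖u0 x‖ := by
      calc ‖av m u0 x‖ = ‖(av m u0 x - u0 x) + u0 x‖ := by rw [sub_add_cancel]
        _ ≤ _ := norm_add_le _ _
    have h5 := hg x
    rw [h1] at h4
    rw [h1] at h5
    linarith
  have hLV : (LL A N : Set G) ⊆ interior V := by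
    intro x hx
    by_contra hxV
    exact hV1' N hN hN1 x ⟨hLS hx, hxV⟩ hx
  have hclosed : IsClosed (LL A N : Set G) := by
    have : (LL A N : Set G) = ⋂ (u : G → ℂ) (_ : u ∈ A) (_ : InvL N u) (y : G),
        {x | u (x * y) = u y} := by
      ext x
      simp only [Set.mem_iInter, Set.mem_ofPred_eq]
      exact mem_LL
    rw [this]
    refine isClosed_iInter fun u => isClosed_iInter fun hu => isClosed_iInter fun _ =>
      isClosed_iInter fun y => ?_
    exact isClosed_eq ((hcont u hu).comp (continuous_mul_const y)) continuous_const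
  refine ⟨LL A N, ?_, ?_, hLV.trans interior_subset, ?_, ?_, ?_⟩
  · intro n hn
    exact mem_LL.2 fun u _ hI y => hI n hn y
  · exact hSc.of_isClosed_subset hclosed hLS
  · intro h h1 h2 l hl
    refine mem_LL.2 fun u hu hI y => ?_
    have h3 : InvL N (fun z => u (h * z)) := by
      intro n hn z
      show u (h * (n * z)) = u (h * z)
      have := hI _ (h1 n hn) (h * z)
      rw [← this]
      congr 1
      group
    have h4 := mem_LL.1 hl (fun z => u (h * z)) (hA.left h u hu) h3 (h⁻¹ * y)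
    simp only [mul_inv_cancel_left] at h4
    rw [← h4]
    congr 1
    group
  · intro x hx
    rw [mem_LL] at hx
    push Not at hx
    obtain ⟨u, hu, hI, y, hy⟩ := hx
    exact ⟨u, hu, fun l hl z => mem_LL.1 hl u hu hI z, y, hy⟩
  · refine ⟨av m u0, hgA, fun l hl z => mem_LL.1 hl _ hgA hgI z, ?_⟩
    intro h0
    rw [h0] at hg1
    simp only [Pi.zero_apply, norm_zero] at hg1
    linarith

end

end Pool.Agent.W660.FG
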