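import Pool.Agent.W660.FG.Stm

/-!
Part SPX of project FG (problem MP_2da52b_an): extension of characters of the algebra of the
invariant elements.
-/

namespace Pool.Agent.W660.FG

open Pool.Agent.W660.FL
open MeasureTheory Complex Filter Topology
open scoped ComplexConjugate InnerProductSpace Manifold ContDiff BoundedContinuousFunction

noncomputable section

namespace TSPX

/-- a proper ideal of a commutative complex Banach algebra is in the kernel of a character -/
theorem ext_char (B : Type) [NormedCommRing B] [NormedAlgebra ℂ B] [CompleteSpace B] (J : Ideal B)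
    (h1 : (1 : B) ∉ J) : ∃ ψ : B →ₐ[ℂ] ℂ, ∀ b ∈ J, ψ b = 0 := by
  obtain ⟨M, hM, hJM⟩ := J.exists_le_maximal (J.ne_top_iff_one.2 h1)
  have := hM
  refine ⟨WeakDual.CharacterSpace.toAlgHom M.toCharacterSpace, fun b hb => ?_⟩
  exact Ideal.toCharacterSpace_apply_eq_zero_of_mem M (hJM hb)

variable {G : Type} [Group G] [TopologicalSpace G]

/-- the functions `c + a` with `a` in `A` -/
def S0 (A : Set (G → ℂ)) (hne : (0 : G → ℂ) ∈ A) (hadd : ∀ u ∈ A, ∀ v ∈ A, u + v ∈ A)
    (hsmul : ∀ (c : ℂ), ∀ u ∈ A, c • u ∈ A) (hmul : ∀ u ∈ A, ∀ v ∈ A, u * v ∈ A) :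
    Subalgebra ℂ (G →ᵇ ℂ) where
  carrier := {f | ∃ c : ℂ, ∃ a ∈ A, ∀ x, f x = c + a x}
  mul_mem' := by
    rintro f g ⟨c, a, ha, hf⟩ ⟨d, b, hb, hg⟩
    refine ⟨c * d, c • b + d • a + a * b, hadd _ (hadd _ (hsmul c b hb) _ (hsmul d a ha)) _
      (hmul a ha b hb), fun x => ?_⟩
    rw [BoundedContinuousFunction.mul_apply, hf, hg]
    simp only [Pi.add_apply, Pi.smul_apply, Pi.mul_apply, smul_eq_mul]
    ring
  add_mem' := by
    rintro f g ⟨c, a, ha, hf⟩ ⟨d, b, hb, hg⟩
    refine ⟨c + d, a + b, hadd _ ha _ hb, fun x => ?_⟩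
    rw [BoundedContinuousFunction.add_apply, hf, hg]
    simp only [Pi.add_apply]
    ring
  algebraMap_mem' := by
    intro c
    exact ⟨c, 0, hne, fun x => by simp⟩

end TSPX

variable (G : Type) [Group G] [TopologicalSpace G] [IsTopologicalGroup G] [T2Space G]
  [LocallyCompactSpace G] [MeasurableSpace G] [BorelSpace G]
  (μ : Measure G) [μ.IsHaarMeasure]

theorem t3_SPX : S_DSA G μ → S3_HM G → S3_AVF G → S3_AVA G μ → S3_SPX G μ := by
  intro hDSA hHM hAVF hAVA A hA L hL χ hχadd hχsmul hχmul hχne hχc
  obtain ⟨m, hm⟩ := hHM L hL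
  obtain ⟨hav1, hav2, hav3, hav4, hav5⟩ := hAVF L hL m hm
  obtain ⟨e₀, he₀A, he₀L, he₀⟩ := hχne
  -- the normalised element
  obtain ⟨e, heA, heL, heχ⟩ : ∃ e ∈ A, InvL L e ∧ χ e = 1 := by
    refine ⟨(χ e₀)⁻¹ • e₀, hA.smul _ _ he₀A, ?_, ?_⟩
    · intro l hl x
      simp only [Pi.smul_apply]
      rw [he₀L l hl x]
    · rw [hχsmul _ _ he₀A he₀L, inv_mul_cancel₀ he₀]
  have hzA : (0 : G → ℂ) ∈ A := by
    have := hA.smul 0 e heA
    rwa [zero_smul] at this
  have hzL : InvL L (0 : G → ℂ) := fun l _ x => rfl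
  have hχ0 : χ 0 = 0 := by
    have := hχsmul 0 e heA heL
    rwa [zero_smul, zero_mul] at this
  -- the Banach algebra
  set S : Subalgebra ℂ (G →ᵇ ℂ) := TSPX.S0 A hzA hA.add hA.smul hA.mul with hS
  set B : Subalgebra ℂ (G →ᵇ ℂ) := S.topologicalClosure with hB
  have : CompleteSpace B := by
    rw [hB]
    exact (Subalgebra.isClosed_topologicalClosure S).completeSpace_coe
  have hApp : ∀ b : B, ∀ δ : ℝ, 0 < δ → ∃ c : ℂ, ∃ a ∈ A, ∀ x, ‖b.1 x - (c + a x)‖ ≤ δ := by
    intro b δ hδ
    have hb : b.1 ∈ closure (S : Set (G →ᵇ ℂ)) := b.2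
    obtain ⟨f, hf, hfd⟩ := Metric.mem_closure_iff.1 hb δ hδ
    obtain ⟨c, a, ha, hfa⟩ := hf
    refine ⟨c, a, ha, fun x => ?_⟩
    rw [← hfa x, ← dist_eq_norm]
    exact (BoundedContinuousFunction.dist_coe_le_dist x).trans hfd.le
  have hToB : ∀ u ∈ A, ∃ b : B, ∀ x, b.1 x = u x := by
    intro u hu
    obtain ⟨hc, ⟨c, hcb⟩, _⟩ := hDSA A hA u hu
    refine ⟨⟨BoundedContinuousFunction.ofNormedAddCommGroup u hc c hcb, ?_⟩, fun x => rfl⟩
    apply Subalgebra.le_topologicalClosure S
    exact ⟨0, u, hu, fun x => by simp⟩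
  -- small functions
  let Z : (G → ℂ) → Prop := fun f => ∀ ε > 0, ∃ v ∈ A, InvL L v ∧ (∀ x, ‖f x - v x‖ ≤ ε) ∧ ‖χ v‖ ≤ ε
  have hZadd : ∀ f g : G → ℂ, Z f → Z g → Z (f + g) := by
    intro f g hf hg ε hε
    obtain ⟨v, hvA, hvL, hv1, hv2⟩ := hf (ε / 2) (by positivity)
    obtain ⟨w, hwA, hwL, hw1, hw2⟩ := hg (ε / 2) (by positivity)
    refine ⟨v + w, hA.add _ hvA _ hwA, ?_, ?_, ?_⟩
    · intro l hl x
      simp only [Pi.add_apply]
      rw [hvL l hl x, hwL l hl x]
    · intro x
      have h1 : (f + g) x - (v + w) x = (f x - v x) + (g x - w x) := by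
        simp only [Pi.add_apply]
        ring
      rw [h1]
      refine (norm_add_le _ _).trans ?_
      have := hv1 x
      have := hw1 x
      linarith
    · rw [hχadd v hvA hvL w hwA hwL]
      refine (norm_add_le _ _).trans ?_
      linarith
  have hZ0 : Z 0 := by
    intro ε hε
    refine ⟨0, hzA, hzL, fun x => ?_, ?_⟩
    · simp [hε.le]
    · rw [hχ0]
      simp [hε.le]
  have hcB : ∀ b : B, Continuous (fun x => b.1 x) := fun b => b.1.continuous
  -- the ideal
  let J : Ideal B :=
    { carrier := {b | ∀ a : B, Z (fun x => av m (fun y => a.1 y * b.1 y) x * e x)}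
      add_mem' := by
        intro b b' hb hb' a
        have h1 : (fun x => av m (fun y => a.1 y * (b + b').1 y) x * e x) =
            (fun x => av m (fun y => a.1 y * b.1 y) x * e x) +
              (fun x => av m (fun y => a.1 y * b'.1 y) x * e x) := by
          have h2 : (fun y => a.1 y * (b + b').1 y) = (fun y => a.1 y * b.1 y) +
              (fun y => a.1 y * b'.1 y) := by
            funext y
            have h3 : (b + b').1 y = b.1 y + b'.1 y := rfl
            rw [Pi.add_apply, h3]
            ring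
          have h4 := hav2 (fun y => a.1 y * b.1 y) (fun y => a.1 y * b'.1 y)
            ((hcB a).mul (hcB b)) ((hcB a).mul (hcB b'))
          funext x
          rw [h2, h4, Pi.add_apply, Pi.add_apply]
          ring
        show Z _
        rw [h1]
        exact hZadd _ _ (hb a) (hb' a)
      zero_mem' := by
        intro a
        have h1 : (fun x => av m (fun y => a.1 y * (0 : B).1 y) x * e x) = 0 := by
          funext x
          have h2 : (fun y => a.1 y * (0 : B).1 y) = fun _ => (0 : ℂ) := by
            funext y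
            have h3 : (0 : B).1 y = 0 := rfl
            rw [h3, mul_zero]
          rw [h2]
          simp [av]
        show Z _
        rw [h1]
        exact hZ0
      smul_mem' := by
        intro c b hb a
        have h1 : (fun y => a.1 y * (c • b).1 y) = fun y => (a * c).1 y * b.1 y := by
          funext y
          have h3 : (c • b).1 y = c.1 y * b.1 y := rfl
          have h4 : (a * c).1 y = a.1 y * c.1 y := rfl
          rw [h3, h4]
          ring
        show Z _
        rw [h1]
        exact hb (a * c) }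
  have hJ1 : (1 : B) ∉ J := by
    intro h
    obtain ⟨eB, heB⟩ := hToB e heA
    have h1 : Z (fun x => av m (fun y => eB.1 y * (1 : B).1 y) x * e x) := h eB
    have h2 : (fun x => av m (fun y => eB.1 y * (1 : B).1 y) x * e x) = e * e := by
      have h3 : (fun y => eB.1 y * (1 : B).1 y) = e := by
        funext y
        have h4 : (1 : B).1 y = 1 := rfl
        rw [h4, mul_one, heB]
      funext x
      rw [h3, hav5 e heL, Pi.mul_apply]
    rw [h2] at h1
    obtain ⟨v, hvA, hvL, hv1, hv2⟩ := h1 (1 / 4) (by norm_num)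
    have heeA := hA.mul e heA e heA
    have heeL : InvL L (e * e) := by
      intro l hl x
      simp only [Pi.mul_apply]
      rw [heL l hl x]
    have hnv := hA.smul (-1) v hvA
    have hnvL : InvL L ((-1 : ℂ) • v) := by
      intro l hl x
      simp only [Pi.smul_apply]
      rw [hvL l hl x]
    have h5 := hχc (e * e + (-1 : ℂ) • v) (hA.add _ heeA _ hnv) (by
      intro l hl x
      simp only [Pi.add_apply]
      rw [heeL l hl x, hnvL l hl x]) (1 / 4) (by
      intro x
      have := hv1 x
      have h6 : (e * e + (-1 : ℂ) • v) x = (e * e) x - v x := by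
        simp only [Pi.add_apply, Pi.smul_apply, smul_eq_mul]
        ring
      rw [h6]
      exact this)
    rw [hχadd _ heeA heeL _ hnv hnvL, hχsmul _ _ hvA hvL, hχmul e heA heL e heA heL, heχ] at h5
    have h6 : (1 : ℂ) = (1 * 1 + -1 * χ v) + χ v := by ring
    have h7 : ‖(1 : ℂ)‖ ≤ ‖(1 * 1 + -1 * χ v : ℂ)‖ + ‖χ v‖ := by
      conv_lhs => rw [h6]
      exact norm_add_le _ _
    rw [norm_one] at h7
    have h8 := h7.trans (add_le_add h5 hv2)
    norm_num at h8
  obtain ⟨ψ, hψ⟩ := TSPX.ext_char B J hJ1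
  -- the character on invariant elements
  have hkey : ∀ u ∈ A, InvL L u → ∀ b : B, (∀ x, b.1 x = u x) → ψ b = χ u := by
    intro u hu huL b hb
    have hmem : b - algebraMap ℂ B (χ u) ∈ J := by
      intro a
      show Z _
      intro ε hε
      obtain ⟨_, ⟨Mu, hMu⟩, _⟩ := hDSA A hA u hu
      obtain ⟨_, ⟨Me, hMe⟩, _⟩ := hDSA A hA e heA
      have hMu0 : 0 ≤ Mu := (norm_nonneg _).trans (hMu 1)
      have hMe0 : 0 ≤ Me := (norm_nonneg _).trans (hMe 1)
      set δ : ℝ := ε / ((Mu + ‖χ u‖ + 1) * (Me + 1)) with hδ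
      have hden : 0 < (Mu + ‖χ u‖ + 1) * (Me + 1) := by
        have := norm_nonneg (χ u)
        positivity
      have hδ0 : 0 < δ := by rw [hδ]; positivity
      obtain ⟨c, a', ha'A, ha'⟩ := hApp a δ hδ0
      obtain ⟨hca', _, _⟩ := hDSA A hA a' ha'A
      -- decomposition of the average
      have hg : Continuous (fun y => a.1 y - (c + a' y)) := (hcB a).sub (continuous_const.add hca')
      have hdec : ∀ x, av m (fun y => a.1 y) x =
          av m (fun y => a.1 y - (c + a' y)) x + (c + av m a' x) := by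
        intro x
        have h1 : (fun y => a.1 y) = (fun y => a.1 y - (c + a' y)) + ((fun _ => c) + a') := by
          funext y
          simp only [Pi.add_apply]
          ring
        have h2 : av m ((fun _ => c) + a') = av m (fun _ => c) + av m a' :=
          hav2 _ _ continuous_const hca'
        have h3 : av m (fun _ : G => c) = fun _ => c := hav5 _ (fun l _ x => rfl)
        have h4 := hav2 (fun y => a.1 y - (c + a' y)) ((fun _ => c) + a') hg
          (continuous_const.add hca')
        rw [h2, h3] at h4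
        conv_lhs => rw [h1, h4]
        simp only [Pi.add_apply]
      have hgb : ∀ x, ‖av m (fun y => a.1 y - (c + a' y)) x‖ ≤ δ :=
        (hav1 _ hg).2.2 δ ha'
      -- the invariant element
      have haA : av m a' ∈ A := hAVA A hA L hL m hm a' ha'A
      have haL : InvL L (av m a') := (hav1 a' hca').2.1
      set w : G → ℂ := c • e + av m a' * e with hw
      have hwA : w ∈ A := hA.add _ (hA.smul c e heA) _ (hA.mul _ haA _ heA)
      have hwL : InvL L w := by
        intro l hl x
        rw [hw]
        simp only [Pi.add_apply, Pi.smul_apply, Pi.mul_apply]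
        rw [heL l hl x, haL l hl x]
      have hwuA := hA.mul w hwA u hu
      have hwuL : InvL L (w * u) := by
        intro l hl x
        simp only [Pi.mul_apply]
        rw [hwL l hl x, huL l hl x]
      have hcwA := hA.smul (-χ u) w hwA
      have hcwL : InvL L ((-χ u) • w) := by
        intro l hl x
        simp only [Pi.smul_apply]
        rw [hwL l hl x]
      refine ⟨w * u + (-χ u) • w, hA.add _ hwuA _ hcwA, ?_, ?_, ?_⟩
      · intro l hl x
        simp only [Pi.add_apply]
        rw [hwuL l hl x, hcwL l hl x]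
      · intro x
        have hval : ∀ y, (b - algebraMap ℂ B (χ u)).1 y = u y - χ u := by
          intro y
          have h1 : (b - algebraMap ℂ B (χ u)).1 y = b.1 y - χ u := by
            have h2 : (b - algebraMap ℂ B (χ u)).1 y = b.1 y - (algebraMap ℂ B (χ u)).1 y := rfl
            have h3 : (algebraMap ℂ B (χ u)).1 y = χ u := rfl
            rw [h2, h3]
          rw [h1, hb]
        have h1 : (fun y => a.1 y * (b - algebraMap ℂ B (χ u)).1 y) =
            (fun y => a.1 y) * (fun y => u y - χ u) := by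
          funext y
          rw [hval y, Pi.mul_apply]
        have h2 : av m ((fun y => a.1 y) * (fun y => u y - χ u)) =
            av m (fun y => a.1 y) * (fun y => u y - χ u) := by
          apply hav4 _ _ (hcB a)
          intro l hl x
          simp only
          rw [huL l hl x]
        have hE : av m (fun y => a.1 y * (b - algebraMap ℂ B (χ u)).1 y) x =
            (av m (fun y => a.1 y - (c + a' y)) x + (c + av m a' x)) * (u x - χ u) := by
          rw [h1, h2, Pi.mul_apply, hdec x]
        show ‖av m (fun y => a.1 y * (b - algebraMap ℂ B (χ u)).1 y) x * e x -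
          (w * u + (-χ u) • w) x‖ ≤ ε
        rw [hE]
        have h3 : (av m (fun y => a.1 y - (c + a' y)) x + (c + av m a' x)) * (u x - χ u) * e x -
            (w * u + (-χ u) • w) x = av m (fun y => a.1 y - (c + a' y)) x * e x * (u x - χ u) := by
          rw [hw]
          simp only [Pi.add_apply, Pi.smul_apply, Pi.mul_apply, smul_eq_mul]
          ring
        rw [h3, norm_mul, norm_mul]
        have h4 : ‖u x - χ u‖ ≤ Mu + ‖χ u‖ := (norm_sub_le _ _).trans (by
          have := hMu x
          linarith)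
        calc ‖av m (fun y => a.1 y - (c + a' y)) x‖ * ‖e x‖ * ‖u x - χ u‖
            ≤ δ * Me * (Mu + ‖χ u‖) := by
              have := hgb x
              have := hMe x
              gcongr
          _ ≤ δ * (Me + 1) * (Mu + ‖χ u‖ + 1) := by
              have h7 := norm_nonneg (χ u)
              have h5 : δ * Me ≤ δ * (Me + 1) :=
                mul_le_mul_of_nonneg_left (by linarith only []) hδ0.le
              exact mul_le_mul h5 (by linarith only []) (by positivity) (by positivity)
          _ = ε := by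
              rw [hδ]
              field_simp
      · rw [hχadd _ hwuA hwuL _ hcwA hcwL, hχsmul _ _ hwA hwL, hχmul w hwA hwL u hu huL]
        have : χ w * χ u + -χ u * χ w = 0 := by ring
        rw [this, norm_zero]
        exact hε.le
    have h1 := hψ _ hmem
    rw [map_sub, AlgHom.commutes] at h1
    have h2 : ψ b = algebraMap ℂ ℂ (χ u) := sub_eq_zero.1 h1
    rw [h2]
    rfl
  -- the character of `A`
  classical
  let χ' : (G → ℂ) → ℂ := fun f => if h : ∃ b : B, ∀ x, b.1 x = f x then ψ h.choose else 0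
  have hχ' : ∀ (f : G → ℂ) (b : B), (∀ x, b.1 x = f x) → χ' f = ψ b := by
    intro f b hb
    have hex : ∃ b : B, ∀ x, b.1 x = f x := ⟨b, hb⟩
    show (if h : ∃ b : B, ∀ x, b.1 x = f x then ψ h.choose else 0) = ψ b
    rw [dif_pos hex]
    congr 1
    apply Subtype.ext
    ext x
    rw [hex.choose_spec x, hb x]
  obtain ⟨g, hg⟩ := hA.spec χ' (by
    intro u hu v hv
    obtain ⟨a, ha⟩ := hToB u hu
    obtain ⟨b, hb⟩ := hToB v hv
    rw [hχ' u a ha, hχ' v b hb, hχ' (u + v) (a + b) (fun x => by
      have h3 : (a + b).1 x = a.1 x + b.1 x := rfl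
      rw [h3, ha, hb, Pi.add_apply]), map_add]) (by
    intro c u hu
    obtain ⟨a, ha⟩ := hToB u hu
    rw [hχ' u a ha, hχ' (c • u) (c • a) (fun x => by
      have h3 : (c • a).1 x = c * a.1 x := rfl
      rw [h3, ha, Pi.smul_apply, smul_eq_mul]), map_smul, smul_eq_mul]) (by
    intro u hu v hv
    obtain ⟨a, ha⟩ := hToB u hu
    obtain ⟨b, hb⟩ := hToB v hv
    rw [hχ' u a ha, hχ' v b hb, hχ' (u * v) (a * b) (fun x => by
      have h3 : (a * b).1 x = a.1 x * b.1 x := rfl
      rw [h3, ha, hb, Pi.mul_apply]), map_mul]) (by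
    obtain ⟨b, hb⟩ := hToB e heA
    refine ⟨e, heA, ?_⟩
    rw [hχ' e b hb, hkey e heA heL b hb, heχ]
    exact one_ne_zero)
  refine ⟨g, fun u hu huL => ?_⟩
  obtain ⟨b, hb⟩ := hToB u hu
  rw [← hg u hu, hχ' u b hb, hkey u hu huL b hb]

end

end Pool.Agent.W660.FG

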