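import Pool.Agent.W660.FG.Stm

/-!
Project FG, part ST1: strictness.
-/

namespace Pool.Agent.W660.FG

open Pool.Agent.W660.FL
open MeasureTheory Complex Filter Topology
open scoped ComplexConjugate InnerProductSpace Manifold ContDiff

noncomputable section

variable (G : Type) [Group G] [TopologicalSpace G] [IsTopologicalGroup G] [T2Space G]
  [LocallyCompactSpace G] [MeasurableSpace G] [BorelSpace G]
  (μ : Measure G) [μ.IsHaarMeasure] [μ.Regular] (Q : Type) [Group Q] [TopologicalSpace Q]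
  [IsTopologicalGroup Q] [T2Space Q] (E : Type) [NormedAddCommGroup E] [NormedSpace ℝ E]
  [FiniteDimensional ℝ E]

theorem t3_ST1 : S3_ST1 G μ Q E := by
  intro D C A _
  refine ⟨?_, ?_⟩
  · intro φ ψ _ hψ hs
    have hle : ∀ x, ‖(φ * ψ) x‖ ≤ ‖φ x‖ := by
      intro x
      rw [Pi.mul_apply, norm_mul]
      exact mul_le_of_le_one_right (norm_nonneg _) (hψ.2.2.2.1 x)
    refine ⟨fun x hx => (hle x).trans_lt (hs.1 x hx), ?_⟩
    obtain ⟨c, hc, hev⟩ := hs.2
    exact ⟨c, hc, hev.mono fun a ha => (hle _).trans ha⟩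
  · intro φ ψ t _ _ hs1 hs2 ht0 ht1
    have hle : ∀ x, ‖((t : ℂ) • φ + ((1 - t : ℝ) : ℂ) • ψ) x‖ ≤
        t * ‖φ x‖ + (1 - t) * ‖ψ x‖ := by
      intro x
      rw [Pi.add_apply, Pi.smul_apply, Pi.smul_apply]
      refine (norm_add_le _ _).trans ?_
      rw [norm_smul, norm_smul, Complex.norm_real, Complex.norm_real, Real.norm_of_nonneg ht0,
        Real.norm_of_nonneg (sub_nonneg.2 ht1)]
    refine ⟨fun x hx => ?_, ?_⟩
    · refine (hle x).trans_lt ?_
      have h1 := hs1.1 x hx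
      have h2 := hs2.1 x hx
      have h1t : 0 ≤ 1 - t := sub_nonneg.2 ht1
      rcases ht0.lt_or_eq with h | h
      · have h3 : t * ‖φ x‖ < t * 1 := mul_lt_mul_of_pos_left h1 h
        have h4 : (1 - t) * ‖ψ x‖ ≤ (1 - t) * 1 := mul_le_mul_of_nonneg_left h2.le h1t
        linarith
      · rw [← h]
        linarith
    · obtain ⟨c, hc, hev⟩ := hs1.2
      obtain ⟨d, hd, hev'⟩ := hs2.2
      refine ⟨min c d, lt_min hc hd, ?_⟩
      filter_upwards [hev, hev'] with a h1 h2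
      refine (hle _).trans ?_
      have h1t : 0 ≤ 1 - t := sub_nonneg.2 ht1
      have h3 : min c d * ‖a‖ ^ 2 ≤ c * ‖a‖ ^ 2 :=
        mul_le_mul_of_nonneg_right (min_le_left _ _) (sq_nonneg _)
      have h4 : min c d * ‖a‖ ^ 2 ≤ d * ‖a‖ ^ 2 :=
        mul_le_mul_of_nonneg_right (min_le_right _ _) (sq_nonneg _)
      have h5 : t * ‖φ (D.s (C.κ.symm a))‖ ≤ t * (1 - min c d * ‖a‖ ^ 2) :=
        mul_le_mul_of_nonneg_left (by linarith) ht0
      have h6 : (1 - t) * ‖ψ (D.s (C.κ.symm a))‖ ≤ (1 - t) * (1 - min c d * ‖a‖ ^ 2) :=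
        mul_le_mul_of_nonneg_left (by linarith) h1t
      calc _ ≤ t * (1 - min c d * ‖a‖ ^ 2) + (1 - t) * (1 - min c d * ‖a‖ ^ 2) :=
            add_le_add h5 h6
        _ = 1 - min c d * ‖a‖ ^ 2 := by ring

end

end Pool.Agent.W660.FG
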