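import Pool.Agent.W660.FG.Stm

/-!
Existence of a strict function (part ST2 of project FG).
-/

set_option linter.unusedSectionVars false

namespace Pool.Agent.W660.FG

open Pool.Agent.W660.FL
open MeasureTheory Complex Filter Topology
open scoped ComplexConjugate InnerProductSpace Manifold ContDiff

noncomputable section

namespace TST2

section gen

variable {G : Type} [Group G] [TopologicalSpace G] {Q : Type} [Group Q] [TopologicalSpace Q]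
  {E : Type} [NormedAddCommGroup E] [NormedSpace ℝ E]

theorem symm_zero (C : LieChart Q E) : C.κ.symm 0 = 1 := by
  rw [← C.map_one, C.κ.left_inv C.one_mem]

theorem mem_N (D : QD G Q) (x : G) : x ∈ D.N ↔ ∃ h : x ∈ D.H, D.π ⟨x, h⟩ = 1 := by
  constructor
  · intro hx
    obtain ⟨y, hy, rfl⟩ := Subgroup.mem_map.1 hx
    exact ⟨y.2, MonoidHom.mem_ker.1 hy⟩
  · rintro ⟨h, hx⟩
    exact Subgroup.mem_map.2 ⟨⟨x, h⟩, MonoidHom.mem_ker.2 hx, rfl⟩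

theorem pe2_norm (hPE : S_PE1) (f : E → ℂ) (hf : Pe2 f) : Pe2 (fun a => ‖f a‖ ^ 2) := by
  have h1 : Pe2 (fun a => (Complex.conjCLE : ℂ →L[ℝ] ℂ) (f a)) := hPE.2.1 E ℂ ℂ _ f hf
  have h2 := hPE.2.2.1 E f _ hf h1
  have h3 := hPE.2.1 E ℂ ℝ Complex.reCLM _ h2
  have e : (fun a => ‖f a‖ ^ 2) =
      fun a => Complex.reCLM ((f * fun a => (Complex.conjCLE : ℂ →L[ℝ] ℂ) (f a)) a) := by
    funext a
    rw [← Complex.normSq_eq_norm_sq, Complex.normSq_apply]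
    simp
  rw [e]
  exact h3

theorem cone (hPE : S_PE1) (f : E → ℂ) (hf : Pe2 f) (hf0 : f 0 = 1) (hf1 : ∀ a, ‖f a‖ ≤ 1)
    {X : E} (hX : ‖X‖ = 1) {c : ℝ} (hc : 0 < c)
    (hd : ∀ᶠ t in 𝓝 (0 : ℝ), ‖f (t • X)‖ ≤ 1 - c * t ^ 2) :
    ∃ N : Set E, IsOpen N ∧ X ∈ N ∧ ∃ c' > 0, ∃ r > 0, ∀ a : E, 0 < ‖a‖ → ‖a‖ < r →
      ‖a‖⁻¹ • a ∈ N → ‖f a‖ ≤ 1 - c' * ‖a‖ ^ 2 := by
  obtain ⟨L, B, hB⟩ := pe2_norm hPE f hf
  have hL : L = 0 := by
    have h1 := hPE.2.2.2 E ℝ _ L B hB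
    refine IsLocalMax.hasFDerivAt_eq_zero ?_ h1
    refine Filter.Eventually.of_forall fun a => ?_
    simp only [hf0, norm_one]
    have := norm_nonneg (f a)
    nlinarith [hf1 a]
  subst hL
  have hB' : ∀ ε > 0, ∀ᶠ a in 𝓝 (0 : E), |‖f a‖ ^ 2 - 1 - B a a| ≤ ε * ‖a‖ ^ 2 := by
    intro ε hε
    filter_upwards [hB.def hε] with a ha
    simpa [hf0] using ha
  have hBX : B X X ≤ -(c / 2) := by
    have ht : Tendsto (fun t : ℝ => t • X) (𝓝 0) (𝓝 0) := by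
      have : Tendsto (fun t : ℝ => t • X) (𝓝 0) (𝓝 ((0 : ℝ) • X)) :=
        (continuous_id.smul continuous_const).tendsto 0
      rwa [zero_smul] at this
    have h1 := ht.eventually (hB' (c / 2) (by positivity))
    have h2 : ∀ᶠ t in 𝓝[>] (0 : ℝ), |‖f (t • X)‖ ^ 2 - 1 - B (t • X) (t • X)| ≤
        c / 2 * ‖t • X‖ ^ 2 ∧ ‖f (t • X)‖ ≤ 1 - c * t ^ 2 ∧ 0 < t :=
      (h1.filter_mono nhdsWithin_le_nhds).and ((hd.filter_mono nhdsWithin_le_nhds).and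
        self_mem_nhdsWithin)
    obtain ⟨t, h3, h4, h5⟩ := h2.exists
    rw [norm_smul, hX, mul_one, Real.norm_eq_abs, sq_abs, abs_le] at h3
    have h6 : B (t • X) (t • X) = t ^ 2 * B X X := by
      simp only [map_smul, FunLike.coe_smul, Pi.smul_apply, smul_eq_mul]
      ring
    rw [h6] at h3
    have h7 := norm_nonneg (f (t • X))
    have h8 : ‖f (t • X)‖ ^ 2 ≤ ‖f (t • X)‖ := by nlinarith [hf1 (t • X)]
    have h9 : 0 < t ^ 2 := by positivity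
    by_contra hcon
    push Not at hcon
    nlinarith
  refine ⟨{Y | B Y Y < -(c / 4)}, ?_, ?_, c / 16, by positivity, ?_⟩
  · exact isOpen_lt (by fun_prop) continuous_const
  · change B X X < -(c / 4)
    linarith
  obtain ⟨r, hr, h1⟩ := Metric.eventually_nhds_iff.1 (hB' (c / 8) (by positivity))
  refine ⟨r, hr, fun a ha0 har haN => ?_⟩
  have h2 := h1 (by simpa using har : dist a 0 < r)
  rw [abs_le] at h2
  have h3 : B (‖a‖⁻¹ • a) (‖a‖⁻¹ • a) < -(c / 4) := haN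
  have h4 : B (‖a‖⁻¹ • a) (‖a‖⁻¹ • a) = (‖a‖⁻¹) ^ 2 * B a a := by
    simp only [map_smul, FunLike.coe_smul, Pi.smul_apply, smul_eq_mul]
    ring
  rw [h4] at h3
  have h5 : B a a < -(c / 4) * ‖a‖ ^ 2 := by
    have h6 : 0 < ‖a‖ ^ 2 := by positivity
    have h7 := mul_lt_mul_of_pos_right h3 h6
    have h8 : ‖a‖⁻¹ ^ 2 * B a a * ‖a‖ ^ 2 = B a a := by
      field_simp
    linarith
  have h6 := norm_nonneg (f a)
  nlinarith [sq_nonneg (‖f a‖ - 1)]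

end gen

end TST2

section B

variable (G : Type) [Group G] [TopologicalSpace G] [IsTopologicalGroup G] [T2Space G]
  [LocallyCompactSpace G] [MeasurableSpace G] [BorelSpace G]
  (μ : Measure G) [μ.IsHaarMeasure]
  (Q : Type) [Group Q] [TopologicalSpace Q] [IsTopologicalGroup Q] [T2Space Q]
  (E : Type) [NormedAddCommGroup E] [NormedSpace ℝ E] [FiniteDimensional ℝ E]

namespace TST2

variable {G μ Q E}

theorem inv1 (hVF : S3_VF G Q) (D : QD G Q) {u : G → ℂ} (hu : InvL D.N u) (x : G)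
    (h : x ∈ D.H) : u x = u (D.s (D.π ⟨x, h⟩)) := by
  have h1 := (hVF D).2.2.1 u hu x h 1
  simpa using h1

theorem s_one (hVF : S3_VF G Q) (D : QD G Q) {u : G → ℂ} (hu : InvL D.N u) :
    u (D.s 1) = u 1 := by
  have h1 := ((hVF D).2.2.2.2.1 u hu 1).2
  simpa using h1

theorem near (hPE : S_PE1) (hVF : S3_VF G Q) (hP1 : S3_P1 G μ Q E) (hDIR : S3_DIR G μ Q E)
    (D : QD G Q) (C : LieChart Q E)
    (A : Set (G → ℂ)) (hA : IsAlg μ A) (hS : Sep D A) (h0 : ∃ φ, InP3 D C A φ) :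
    ∃ φ, InP3 D C A φ ∧ ∃ c > 0, ∃ r > 0, ∀ a : E, ‖a‖ < r →
      ‖φ (D.s (C.κ.symm a))‖ ≤ 1 - c * ‖a‖ ^ 2 := by
  have key : ∃ φ, InP3 D C A φ ∧ ∃ c > 0, ∃ r > 0, ∀ a : E, 0 < ‖a‖ → ‖a‖ < r →
      ‖a‖⁻¹ • a ∈ Metric.sphere (0 : E) 1 → ‖φ (D.s (C.κ.symm a))‖ ≤ 1 - c * ‖a‖ ^ 2 := by
    have hcomp : IsCompact (Metric.sphere (0 : E) 1) := isCompact_sphere 0 1
    refine hcomp.induction_on (p := fun s : Set E => ∃ φ, InP3 D C A φ ∧ ∃ c > 0, ∃ r > 0,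
      ∀ a : E, 0 < ‖a‖ → ‖a‖ < r → ‖a‖⁻¹ • a ∈ s → ‖φ (D.s (C.κ.symm a))‖ ≤ 1 - c * ‖a‖ ^ 2)
      ?_ ?_ ?_ ?_
    · obtain ⟨φ, hφ⟩ := h0
      exact ⟨φ, hφ, 1, one_pos, 1, one_pos, fun a _ _ h => absurd h (Set.notMem_empty _)⟩
    · rintro s t hst ⟨φ, hφ, c, hc, r, hr, h⟩
      exact ⟨φ, hφ, c, hc, r, hr, fun a h1 h2 h3 => h a h1 h2 (hst h3)⟩
    · rintro s t ⟨φ, hφ, c, hc, r, hr, h⟩ ⟨φ', hφ', c', hc', r', hr', h'⟩
      refine ⟨φ * φ', (hP1 D C A hA).1 φ φ' hφ hφ', min c c', lt_min hc hc', min r r',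
        lt_min hr hr', fun a h1 h2 h3 => ?_⟩
      have h4 := hφ.2.2.2.1 (D.s (C.κ.symm a))
      have h5 := hφ'.2.2.2.1 (D.s (C.κ.symm a))
      have h6 := norm_nonneg (φ (D.s (C.κ.symm a)))
      have h7 := norm_nonneg (φ' (D.s (C.κ.symm a)))
      rw [Pi.mul_apply, norm_mul]
      have h8 : 0 ≤ ‖a‖ ^ 2 := by positivity
      rcases h3 with h3 | h3
      · have h9 := h a h1 (lt_of_lt_of_le h2 (min_le_left _ _)) h3
        have h10 := mul_le_mul_of_nonneg_right (min_le_left c c') h8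
        nlinarith
      · have h9 := h' a h1 (lt_of_lt_of_le h2 (min_le_right _ _)) h3
        have h10 := mul_le_mul_of_nonneg_right (min_le_right c c') h8
        nlinarith
    · intro X hX
      have hX1 : ‖X‖ = 1 := by simpa using hX
      have hX0 : X ≠ 0 := by
        intro h
        rw [h, norm_zero] at hX1
        exact zero_ne_one hX1
      obtain ⟨φ, hφ, c, hc, hd⟩ := hDIR D C A hA hS X hX0
      obtain ⟨N, hN, hXN, c', hc', r, hr, h⟩ := cone hPE (fun a => φ (D.s (C.κ.symm a)))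
        hφ.2.2.2.2.2.2
        (by
          simp only [symm_zero]
          rw [s_one hVF D hφ.2.2.2.2.2.1]
          exact hφ.2.2.1) (fun a => hφ.2.2.2.1 _) hX1 hc hd
      exact ⟨N, mem_nhdsWithin_of_mem_nhds (hN.mem_nhds hXN), φ, hφ, c', hc', r, hr, h⟩
  obtain ⟨φ, hφ, c, hc, r, hr, h⟩ := key
  refine ⟨φ, hφ, c, hc, r, hr, fun a ha => ?_⟩
  by_cases ha0 : a = 0
  · rw [ha0, symm_zero, s_one hVF D hφ.2.2.2.2.2.1, hφ.2.2.1]
    simp
  · have h1 : 0 < ‖a‖ := norm_pos_iff.2 ha0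
    refine h a h1 ha ?_
    rw [mem_sphere_zero_iff_norm, norm_smul, norm_inv, norm_norm, inv_mul_cancel₀ h1.ne']

theorem far (hP1 : S3_P1 G μ Q E) (hOFF : S3_OFF G μ Q E) (D : QD G Q) (C : LieChart Q E)
    (A : Set (G → ℂ)) (hA : IsAlg μ A) (hS : Sep D A) (h0 : ∃ φ, InP3 D C A φ) (K : Set G)
    (hK : IsCompact K) (hK1 : ∀ x ∈ K, x ∉ D.N) :
    ∃ φ, InP3 D C A φ ∧ ∀ x ∈ K, ‖φ x‖ < 1 := by
  refine hK.induction_on (p := fun s : Set G => ∃ φ, InP3 D C A φ ∧ ∀ x ∈ s, ‖φ x‖ < 1)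
    ?_ ?_ ?_ ?_
  · obtain ⟨φ, hφ⟩ := h0
    exact ⟨φ, hφ, fun x h => absurd h (Set.notMem_empty _)⟩
  · rintro s t hst ⟨φ, hφ, h⟩
    exact ⟨φ, hφ, fun x hx => h x (hst hx)⟩
  · rintro s t ⟨φ, hφ, h⟩ ⟨φ', hφ', h'⟩
    refine ⟨φ * φ', (hP1 D C A hA).1 φ φ' hφ hφ', fun x hx => ?_⟩
    have h4 := hφ.2.2.2.1 x
    have h5 := hφ'.2.2.2.1 x
    have h6 := norm_nonneg (φ x)
    have h7 := norm_nonneg (φ' x)
    rw [Pi.mul_apply, norm_mul]
    rcases hx with hx | hx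
    · have h9 := h x hx
      nlinarith
    · have h9 := h' x hx
      nlinarith
  · intro x hx
    obtain ⟨φ, hφ, h⟩ := hOFF D C A hA hS x (hK1 x hx)
    refine ⟨{y | ‖φ y‖ < 1}, mem_nhdsWithin_of_mem_nhds ?_, φ, hφ, fun y hy => hy⟩
    exact (isOpen_lt hφ.2.1.1.norm continuous_const).mem_nhds h

end TST2

open TST2 in
/-- **existence of a strict function** -/
theorem t3_ST2 : S_PE1 → S3_VF G Q → S3_P1 G μ Q E → S3_ST1 G μ Q E → S3_NE G μ Q E →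
    S3_OFF G μ Q E → S3_DIR G μ Q E → S3_ST2 G μ Q E := by
  intro hPE hVF hP1 _ hNE hOFF hDIR D C A hA hS
  have h0 : ∃ φ, InP3 D C A φ := hNE D C A hA hS
  obtain ⟨ψ, hψ, c, hc, r, hr, hn⟩ := near hPE hVF hP1 hDIR D C A hA hS h0
  let W0 : Set Q := C.κ.source ∩ C.κ ⁻¹' Metric.ball 0 r
  have hW0 : IsOpen W0 := C.κ.isOpen_inter_preimage Metric.isOpen_ball
  have hW01 : (1 : Q) ∈ W0 := by
    refine ⟨C.one_mem, ?_⟩
    change C.κ 1 ∈ Metric.ball 0 r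
    rw [C.map_one]
    exact Metric.mem_ball_self hr
  let W : Set G := Subtype.val '' (D.π ⁻¹' W0 : Set D.H)
  have hW : IsOpen W := D.isOpen.isOpenMap_subtype_val _ (hW0.preimage D.cont)
  obtain ⟨φ, hφ, hf⟩ := far hP1 hOFF D C A hA hS h0 (tsupport ψ \ W)
    (hψ.2.1.2.isCompact.diff hW) (by
      intro x hx hxN
      obtain ⟨h, h1⟩ := (mem_N D x).1 hxN
      refine hx.2 ⟨⟨x, h⟩, ?_, rfl⟩
      change D.π ⟨x, h⟩ ∈ W0
      rw [h1]
      exact hW01)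
  refine ⟨ψ * φ, (hP1 D C A hA).1 ψ φ hψ hφ, fun x hx => ?_, c, hc, ?_⟩
  · have h4 := hψ.2.2.2.1 x
    have h5 := hφ.2.2.2.1 x
    have h6 := norm_nonneg (ψ x)
    have h7 := norm_nonneg (φ x)
    rw [Pi.mul_apply, norm_mul]
    by_cases hxW : x ∈ W
    · obtain ⟨⟨x', hx'⟩, hxw, rfl⟩ := hxW
      change D.π ⟨x', hx'⟩ ∈ W0 at hxw
      have h8 : ‖C.κ (D.π ⟨x', hx'⟩)‖ < r := by simpa using hxw.2
      have h9 := hn (C.κ (D.π ⟨x', hx'⟩)) h8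
      rw [C.κ.left_inv hxw.1, ← inv1 hVF D hψ.2.2.2.2.2.1 x' hx'] at h9
      have h10 : C.κ (D.π ⟨x', hx'⟩) ≠ 0 := by
        intro h
        rw [← C.map_one] at h
        exact hx ((mem_N D x').2 ⟨hx', C.κ.injOn hxw.1 C.one_mem h⟩)
      have h11 : 0 < c * ‖C.κ (D.π ⟨x', hx'⟩)‖ ^ 2 := by
        have := norm_pos_iff.2 h10
        positivity
      simp only at h4 h5 h6 h7 ⊢
      nlinarith
    · by_cases hxs : x ∈ tsupport ψ
      · have h8 := hf x ⟨hxs, hxW⟩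
        nlinarith
      · rw [image_eq_zero_of_notMem_tsupport hxs]
        simp
  · filter_upwards [Metric.ball_mem_nhds (0 : E) hr] with a ha
    have h1 := hn a (by simpa using ha)
    have h5 := hφ.2.2.2.1 (D.s (C.κ.symm a))
    have h6 := norm_nonneg (ψ (D.s (C.κ.symm a)))
    have h7 := norm_nonneg (φ (D.s (C.κ.symm a)))
    rw [Pi.mul_apply, norm_mul]
    nlinarith

end B

end

end Pool.Agent.W660.FG
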