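import Pool.Agent.W660.FG.Stm

/-!
Project FG, part SUPD: density of the compactly supported invariant elements.
-/

namespace Pool.Agent.W660.FG

open Pool.Agent.W660.FL
open MeasureTheory Complex Filter Topology
open scoped ComplexConjugate InnerProductSpace Manifold ContDiff

noncomputable section

variable (G : Type) [Group G] [TopologicalSpace G] [IsTopologicalGroup G] [T2Space G]
  [LocallyCompactSpace G] [MeasurableSpace G] [BorelSpace G]
  (μ : Measure G) [μ.IsHaarMeasure]

theorem t3_SUPD : S_SUPD G μ → S_DSA G μ → S3_HM G → S3_AV G μ → S3_AVF G → S3_AVA G μ →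
    S3_SUPD G μ := by
  intro hS hD hHM hAV hAVF hAVA A hA L hL u hu hinv ε hε
  obtain ⟨w, hwA, hwc, hw⟩ := hS A hA u hu ε hε
  obtain ⟨m, hm⟩ := hHM L hL
  have huc : Continuous u := (hD A hA u hu).1
  obtain ⟨hF1, hF2, hF3, hF4, hF5⟩ := hAVF L hL m hm
  refine ⟨av m w, hAVA A hA L hL m hm w hwA, ((hAV L hL m hm).2.2.2.1 w hwc).1,
    (hF1 w hwc.1).2.1, ?_⟩
  have h1 : av m (u + (-1 : ℂ) • w) = av m u + (-1 : ℂ) • av m w := by
    rw [hF2 u _ huc (hwc.1.const_smul _), hF3]
  have h2 := (hF1 (u + (-1 : ℂ) • w) (huc.add (hwc.1.const_smul _))).2.2 ε (by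
    intro x
    simpa [sub_eq_add_neg] using hw x)
  intro x
  have h3 := h2 x
  rw [h1, hF5 u hinv] at h3
  simpa [sub_eq_add_neg] using h3

end

end Pool.Agent.W660.FG
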