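import Pool.Agent.W660.FG.Stm

/-!
Project FG, part V: basic facts on the quotient.
-/

namespace Pool.Agent.W660.FG

open Pool.Agent.W660.FL
open MeasureTheory Complex Filter Topology
open scoped ComplexConjugate InnerProductSpace Manifold ContDiff

noncomputable section

namespace TV

section X

variable {G Q : Type} [Group G] [TopologicalSpace G] [Group Q] [TopologicalSpace Q] (D : QD G Q)

theorem memN (x : G) : x ∈ D.N ↔ ∃ h : x ∈ D.H, D.π ⟨x, h⟩ = 1 := by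
  unfold QD.N
  rw [Subgroup.mem_map]
  constructor
  · rintro ⟨y, hy, rfl⟩
    exact ⟨y.2, hy⟩
  · rintro ⟨h, h'⟩
    exact ⟨⟨x, h⟩, h', rfl⟩

theorem cnj (h : G) (hh : h ∈ D.H) (n : G) (hn : n ∈ D.N) : h * n * h⁻¹ ∈ D.N := by
  obtain ⟨h1, h2⟩ := (memN D n).1 hn
  refine (memN D _).2 ⟨D.H.mul_mem (D.H.mul_mem hh h1) (D.H.inv_mem hh), ?_⟩
  show D.π (⟨h, hh⟩ * ⟨n, h1⟩ * ⟨h, hh⟩⁻¹) = 1
  rw [map_mul, map_mul, h2, map_inv, mul_one, mul_inv_cancel]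

theorem s_mem (q : Q) : D.s q ∈ D.H := (Function.surjInv D.surj q).2

theorem π_s (q : Q) : D.π ⟨D.s q, s_mem D q⟩ = q := Function.surjInv_eq D.surj q

theorem dec (x : G) (h : x ∈ D.H) : ∃ n ∈ D.N, x = n * D.s (D.π ⟨x, h⟩) := by
  refine ⟨x * (D.s (D.π ⟨x, h⟩))⁻¹, ?_, by rw [inv_mul_cancel_right]⟩
  refine (memN D _).2 ⟨D.H.mul_mem h (D.H.inv_mem (s_mem D _)), ?_⟩
  show D.π (⟨x, h⟩ * ⟨D.s (D.π ⟨x, h⟩), s_mem D _⟩⁻¹) = 1
  rw [map_mul, map_inv, π_s, mul_inv_cancel]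

end X

section Y

variable {G : Type} [Group G] [TopologicalSpace G] [IsTopologicalGroup G]
  [MeasurableSpace G] [BorelSpace G] (μ : Measure G) [μ.IsMulLeftInvariant]
  {Q : Type} [Group Q] [TopologicalSpace Q] (D : QD G Q)

theorem U_s (hU : ∀ (x y : G) (ξ : HH μ), U μ (x * y) ξ = U μ y (U μ x ξ)) (ξ : HH μ)
    (hξ : ξ ∈ HN μ D.N) (x : G) (h : x ∈ D.H) : U μ x ξ = U μ (D.s (D.π ⟨x, h⟩)) ξ := by
  obtain ⟨n, hn, hx⟩ := dec D x h
  calc U μ x ξ = U μ (n * D.s (D.π ⟨x, h⟩)) ξ := by rw [← hx]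
    _ = U μ (D.s (D.π ⟨x, h⟩)) (U μ n ξ) := hU _ _ _
    _ = U μ (D.s (D.π ⟨x, h⟩)) ξ := by rw [hξ n hn]

end Y

end TV

section

variable (G : Type) [Group G] [TopologicalSpace G] [IsTopologicalGroup G] [T2Space G]
  [LocallyCompactSpace G] [MeasurableSpace G] [BorelSpace G]
  (μ : Measure G) [μ.IsHaarMeasure]
  (Q : Type) [Group Q] [TopologicalSpace Q] [IsTopologicalGroup Q] [T2Space Q]

theorem t3_V : S_UB G μ → S3_V G μ Q := by
  intro hUB D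
  obtain ⟨hU, hU1, hUc, -⟩ := hUB
  refine ⟨TV.memN D, fun h hh n hn => TV.cnj D h hh n hn, fun q => ⟨TV.s_mem D q, TV.π_s D q⟩,
    fun x h => TV.dec D x h, fun ξ hξ x h => TV.U_s μ D hU ξ hξ x h, ?_, ?_, ?_, ?_⟩
  · intro ξ hξ x hx n hn
    rw [← hU]
    have h1 : x * n = x * n * x⁻¹ * x := by rw [inv_mul_cancel_right]
    rw [h1, hU, hξ _ (TV.cnj D x hx n hn)]
  · intro ξ hξ
    have hq : IsQuotientMap D.π := D.opn.isQuotientMap D.cont D.surj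
    rw [hq.continuous_iff]
    have h1 : ((fun q => U μ (D.s q) ξ) ∘ D.π) = fun h : D.H => U μ (h : G) ξ := by
      funext h
      exact (TV.U_s μ D hU ξ hξ (h : G) h.2).symm
    rw [h1]
    exact (hUc ξ).comp continuous_subtype_val
  · intro ξ hξ q q'
    rw [← hU, TV.U_s μ D hU ξ hξ (D.s q * D.s q') (D.H.mul_mem (TV.s_mem D q) (TV.s_mem D q'))]
    have h1 : D.π ⟨D.s q * D.s q', D.H.mul_mem (TV.s_mem D q) (TV.s_mem D q')⟩ = q * q' := by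
      show D.π (⟨D.s q, TV.s_mem D q⟩ * ⟨D.s q', TV.s_mem D q'⟩) = q * q'
      rw [map_mul, TV.π_s, TV.π_s]
    rw [h1]
  · intro ξ hξ
    have h1 := TV.U_s μ D hU ξ hξ 1 D.H.one_mem
    have h2 : D.π ⟨1, D.H.one_mem⟩ = 1 := map_one D.π
    rw [h2, hU1] at h1
    exact h1.symm

end

end

end Pool.Agent.W660.FG
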