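import Pool.Agent.W660.FG.Stm

set_option autoImplicit false

namespace Pool.Agent.W660.FG

open Pool.Agent.W660.FL
open MeasureTheory Complex Filter Topology
open scoped ComplexConjugate InnerProductSpace Manifold ContDiff Pointwise

noncomputable section

namespace TVF

variable {G Q : Type} [Group G] [TopologicalSpace G] [Group Q] [TopologicalSpace Q]

theorem mem_N (D : QD G Q) (a : D.H) (h : D.π a = 1) : (a : G) ∈ D.N :=
  ⟨a, h, rfl⟩

theorem of_mem_N (D : QD G Q) (x : G) (hx : x ∈ D.N) : ∃ a : D.H, D.π a = 1 ∧ (a : G) = x := by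
  obtain ⟨a, ha, rfl⟩ := hx
  exact ⟨a, ha, rfl⟩

theorem sec (D : QD G Q) (q : Q) : D.π (Function.surjInv D.surj q) = q :=
  Function.surjInv_eq D.surj q

theorem L0 (D : QD G Q) (u : G → ℂ) (hu : InvL D.N u) (a b : D.H) (hab : D.π a = D.π b) (y : G) :
    u ((a : G) * y) = u ((b : G) * y) := by
  have h1 : ((a * b⁻¹ : D.H) : G) ∈ D.N := by
    apply mem_N
    rw [map_mul, map_inv, hab, mul_inv_cancel]
  have h2 := hu _ h1 ((b : G) * y)
  rw [← h2]
  congr 1
  push_cast
  group

end TVF

open TVF in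
theorem t3_VF (G : Type) [Group G] [TopologicalSpace G] [IsTopologicalGroup G] [T2Space G]
    [LocallyCompactSpace G] [MeasurableSpace G] [BorelSpace G]
    (Q : Type) [Group Q] [TopologicalSpace Q] [IsTopologicalGroup Q] [T2Space Q] :
    S3_VF G Q := by
  intro D
  have hkc : IsCompact (D.π.ker : Set D.H) := by
    have h1 := D.cpt
    rw [Subgroup.coe_map] at h1
    exact (Topology.IsEmbedding.subtypeVal.isCompact_iff).mpr h1
  have : LocallyCompactSpace D.H := D.isOpen.locallyCompactSpace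
  refine ⟨?_, ?_, ?_, ?_, ?_, ?_, ?_⟩
  · intro u hu hinv
    have hq : IsOpenQuotientMap (Prod.map D.π (id : G → G)) := by
      refine ⟨?_, ?_, ?_⟩
      · exact D.surj.prodMap Function.surjective_id
      · exact D.cont.prodMap continuous_id
      · exact D.opn.prodMap IsOpenMap.id
    rw [hq.isQuotientMap.continuous_iff]
    have h1 : ((fun p : Q × G => u (D.s p.1 * p.2)) ∘ Prod.map D.π (id : G → G)) =
        fun p : D.H × G => u ((p.1 : G) * p.2) := by
      funext p
      exact L0 D u hinv _ _ (sec D (D.π p.1)) p.2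
    rw [h1]
    exact hu.comp ((continuous_subtype_val.comp continuous_fst).mul continuous_snd)
  · intro u hinv q q' y
    have h1 := L0 D u hinv (Function.surjInv D.surj (q * q'))
      (Function.surjInv D.surj q * Function.surjInv D.surj q') (by
        rw [map_mul, sec, sec, sec]) y
    show u (((Function.surjInv D.surj (q * q') : D.H) : G) * y) = _
    rw [h1, Subgroup.coe_mul, mul_assoc]
    rfl
  · intro u hinv x h y
    exact L0 D u hinv ⟨x, h⟩ _ (sec D (D.π ⟨x, h⟩)).symm y
  · intro u hinv x hx l hl y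
    obtain ⟨a, ha, rfl⟩ := of_mem_N D l hl
    have h1 := L0 D u hinv (⟨x, hx⟩ * a) ⟨x, hx⟩ (by rw [map_mul, ha, mul_one]) y
    show u (x * ((a : G) * y)) = u (x * y)
    rw [← mul_assoc]
    exact h1
  · intro u hinv y
    refine ⟨?_, ?_⟩
    · intro l hl x
      show u (l * x * y) = u (x * y)
      rw [mul_assoc]
      exact hinv l hl (x * y)
    · have h1 := L0 D u hinv (Function.surjInv D.surj 1) 1 (by rw [sec, map_one]) y
      rw [Subgroup.coe_one, one_mul] at h1
      exact h1
  · intro K hK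
    have hpre : IsCompact (D.π ⁻¹' K) := by
      have hC : ∀ q : Q, ∃ C : Set D.H, IsCompact C ∧ C ∈ 𝓝 (Function.surjInv D.surj q) :=
        fun q => exists_compact_mem_nhds _
      choose C hCc hCn using hC
      obtain ⟨t, _, ht⟩ := hK.elim_nhds_subcover (fun q => D.π '' C q) (fun q _ => by
        have h2 := D.opn.image_mem_nhds (hCn q)
        rwa [sec] at h2)
      have hcomp : IsCompact (⋃ q ∈ t, C q * (D.π.ker : Set D.H)) :=
        t.isCompact_biUnion (fun q _ => (hCc q).mul hkc)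
      refine hcomp.of_isClosed_subset (hK.isClosed.preimage D.cont) ?_
      intro x hx
      obtain ⟨q, hq, hxq⟩ := Set.mem_iUnion₂.mp (ht hx)
      obtain ⟨c, hc, hcx⟩ := hxq
      refine Set.mem_iUnion₂.mpr ⟨q, hq, Set.mem_mul.mpr ⟨c, hc, c⁻¹ * x, ?_, ?_⟩⟩
      · show D.π (c⁻¹ * x) = 1
        rw [map_mul, map_inv, hcx, inv_mul_cancel]
      · group
    have h3 : {x : G | ∃ h : x ∈ D.H, D.π ⟨x, h⟩ ∈ K} = Subtype.val '' (D.π ⁻¹' K) := by
      ext x
      constructor
      · rintro ⟨h, hx⟩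
        exact ⟨⟨x, h⟩, hx, rfl⟩
      · rintro ⟨⟨z, hz⟩, hzK, rfl⟩
        exact ⟨hz, hzK⟩
    rw [h3]
    exact hpre.image continuous_subtype_val
  · intro V hV hNV
    have hV' : IsOpen ((Subtype.val : D.H → G) ⁻¹' V) := hV.preimage continuous_subtype_val
    have hsub : (D.π.ker : Set D.H) ⊆ (Subtype.val : D.H → G) ⁻¹' V := by
      intro a ha
      exact hNV (mem_N D a ha)
    obtain ⟨W0, hW0, hW⟩ := compact_open_separated_mul_left hkc hV' hsub
    refine ⟨D.π '' W0, ?_, ?_⟩
    · have h2 := D.opn.image_mem_nhds hW0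
      rwa [map_one] at h2
    · intro x h hx
      obtain ⟨w, hw, hwx⟩ := hx
      have h4 : (⟨x, h⟩ : D.H) ∈ W0 * (D.π.ker : Set D.H) := by
        refine Set.mem_mul.mpr ⟨w, hw, w⁻¹ * ⟨x, h⟩, ?_, ?_⟩
        · show D.π (w⁻¹ * ⟨x, h⟩) = 1
          rw [map_mul, map_inv, hwx, inv_mul_cancel]
        · group
      exact hW h4

end

end Pool.Agent.W660.FG
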