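import Pool.Agent.W660.FG.R_CC
import Pool.Agent.W660.FG.R_CONVA
import Pool.Agent.W660.FG.R_CONVL
import Pool.Agent.W660.FG.R_DSA
import Pool.Agent.W660.FG.R_FAC
import Pool.Agent.W660.FG.R_INTA
import Pool.Agent.W660.FG.R_PHI
import Pool.Agent.W660.FG.R_SA
import Pool.Agent.W660.FG.R_SUPD
import Pool.Agent.W660.FG.R_UB
import Pool.Agent.W660.FG.T3_APPR
import Pool.Agent.W660.FG.T3_AV
import Pool.Agent.W660.FG.T3_AVA
import Pool.Agent.W660.FG.T3_AVF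
import Pool.Agent.W660.FG.T3_AVS
import Pool.Agent.W660.FG.T3_CHI
import Pool.Agent.W660.FG.T3_DBL
import Pool.Agent.W660.FG.T3_DIR
import Pool.Agent.W660.FG.T3_FIN
import Pool.Agent.W660.FG.T3_HM
import Pool.Agent.W660.FG.T3_IDENT
import Pool.Agent.W660.FG.T3_LAP
import Pool.Agent.W660.FG.T3_NE
import Pool.Agent.W660.FG.T3_NOPOS
import Pool.Agent.W660.FG.T3_OFF
import Pool.Agent.W660.FG.T3_P1
import Pool.Agent.W660.FG.T3_P2
import Pool.Agent.W660.FG.T3_POS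
import Pool.Agent.W660.FG.T3_REAL
import Pool.Agent.W660.FG.T3_SM1
import Pool.Agent.W660.FG.T3_SM2
import Pool.Agent.W660.FG.T3_SM3
import Pool.Agent.W660.FG.T3_SMALL
import Pool.Agent.W660.FG.T3_SPX
import Pool.Agent.W660.FG.T3_ST1
import Pool.Agent.W660.FG.T3_ST2
import Pool.Agent.W660.FG.T3_SUPD
import Pool.Agent.W660.FG.T3_V
import Pool.Agent.W660.FG.T3_VF
import Pool.Agent.W660.FG.CENx
import Pool.Agent.W660.FG.Core
import Pool.Agent.W660.FL.T_EXT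
import Pool.Agent.W660.FL.T_OPS
import Pool.Agent.W660.FL.T_ODE
import Pool.Agent.W660.FL.T_LG
import Pool.Agent.W660.FL.T_BDY
import Pool.Agent.W660.FL.T_HOL
import Pool.Agent.W660.FL.T_POI
import Pool.Agent.W660.FL.T_MULT
import Pool.Agent.W660.FL.T_STRC
import Pool.Agent.W660.FL.T_MONO
import Pool.Agent.W660.FL.T_PE1
import Pool.Agent.W660.FL.T_PE2
import Pool.Agent.W660.FL.T_SEP
import Pool.Agent.W660.FL.T_MEAS
import Pool.Agent.W660.FG.R_REAL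

/-!
Assembly of project FG: the statement for one quotient.
-/

namespace Pool.Agent.W660.FG

open Pool.Agent.W660.FL
open MeasureTheory Complex Filter Topology
open scoped ComplexConjugate InnerProductSpace Manifold ContDiff

section

variable (G : Type) [Group G] [TopologicalSpace G] [IsTopologicalGroup G] [T2Space G]
  [LocallyCompactSpace G] [MeasurableSpace G] [BorelSpace G]
  (μ : Measure G) [μ.IsHaarMeasure] [μ.Regular]

/-- the statement for one quotient -/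
theorem main_one : S3_ONE G μ := by
  intro Q _ _ _ _ E _ _ _ D C A hA hSp
  have hUB : S_UB G μ := r_UB G μ
  have hCC : S_CC G μ := r_CC G μ
  have hFAC : S_FAC G μ := r_FAC G μ
  have hSA : S_SA G μ := r_SA G μ hUB hFAC
  have hINTA : S_INTA G μ := r_INTA G μ hUB hFAC
  have hDSA : S_DSA G μ := r_DSA G μ hUB hCC hFAC hSA hINTA
  have hSUPD : S_SUPD G μ := r_SUPD G μ hUB hFAC hDSA
  have hPHI : S_PHI G μ := r_PHI G μ hUB hCC hDSA
  have hCONVA : S_CONVA G μ := r_CONVA G μ hUB hFAC hINTA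
  have hCONVL : S_CONVL G μ := r_CONVL G μ hUB hCC
  have hHM : S3_HM G := t3_HM G
  have hAV : S3_AV G μ := t3_AV μ hUB hCC
  have hAVF : S3_AVF G := t3_AVF G
  have hAVA : S3_AVA G μ := t3_AVA G μ hUB hFAC
  have hSUP3 : S3_SUPD G μ := t3_SUPD G μ hSUPD hDSA hHM hAV hAVF hAVA
  have hSPX : S3_SPX G μ := t3_SPX G μ hDSA hHM hAVF hAVA
  have hV : S3_V G μ Q := t3_V G μ Q hUB
  have hVF : S3_VF G Q := t3_VF G Q
  have hIDENT : S3_IDENT G μ Q := t3_IDENT G μ Q hCC hHM hAV hV hVF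
  have hCHI : S3_CHI G μ Q := t3_CHI G μ Q hCC hDSA hHM hAV hV hVF hSUP3 hSPX hIDENT t_BDY
    (t_MULT t_HOL t_BDY (t_POI t_BDY)) t_STRC
  have hAPPR : S3_APPR G μ Q := t3_APPR G μ Q hUB hCC hCONVL hHM hAV hV
  have hFIN : S3_FIN G μ Q := t3_FIN G μ Q hUB hCC hSA hDSA hCONVA hCONVL hHM hAV
  have hOPS : S_OPS Q E := t_OPS Q E t_ODE (t_EXT Q)
  have hSM1 : S3_SM1 G μ Q E := t3_SM1 G μ Q E hUB t_PE1 t_PE2 hV
  have hSM2 : S3_SM2 G μ Q E := t3_SM2 G μ Q E hUB hCC hCONVL t_PE2 hHM hAV hV hVF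
  have hSM3 : S3_SM3 G μ Q E := t3_SM3 G μ Q E hCONVA hCONVL hHM hAV hAPPR hSM2
  have hP1 : S3_P1 G μ Q E := t3_P1 G μ Q E t_PE1
  have hP2 : S3_P2 G μ Q E := t3_P2 G μ Q E hUB hPHI t_PE1 hSM1
  have hST1 : S3_ST1 G μ Q E := t3_ST1 G μ Q E
  have hNE : S3_NE G μ Q E := t3_NE G μ Q E hCC hSUP3 hSM3 hP2
  have hOFF : S3_OFF G μ Q E := t3_OFF G μ Q E hCC hSUP3 hSM3 hP1 hP2
  have hDIR : S3_DIR G μ Q E := t3_DIR G μ Q E hCC t_PE1 hV hSUP3 hSM3 hP1 hP2 hOPS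
  have hST2 : S3_ST2 G μ Q E := t3_ST2 G μ Q E t_PE1 hVF hP1 hST1 hNE hOFF hDIR
  have hPOS : S3_POS G μ Q E := t3_POS G μ Q E hCC t_PE1 hV hSM1 hP1 hP2
  have hNOPOS : S3_NOPOS G μ Q E :=
    t3_NOPOS G μ Q E hV t_MONO hSUP3 hSM3 hIDENT hPOS hCHI hOPS
  have hCEN : S3_CEN G μ Q E := t3x_CEN G μ Q E hP1 hST1 hST2 t_SEP hNOPOS
  have hDBL : S3_DBL G μ Q E := t3_DBL G μ Q E hVF
  have hREAL : S3_REAL G Q E := t3_REAL (r_REAL Q E t_PE1 t_PE2) hVF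
  have hLAP : S3_LAP G μ Q E := t3_LAP G μ Q E hVF hDBL t_MEAS hREAL
  obtain ⟨φ, h1, h2, h3⟩ := hCEN D C A hA hSp
  obtain ⟨g, k1, k2, k3, k4⟩ := hLAP D C A hA φ h1 h2 h3
  exact hFIN D A hA g k1 k2 k3 k4

/-- the general theorem, quotient charts assumed -/
theorem main_gen (hQ : S3_QUO) (hG : GYam G) (A : Set (G → ℂ)) (hA : IsAlg μ A) : A = FA μ := by
  have hUB : S_UB G μ := r_UB G μ
  have hCC : S_CC G μ := r_CC G μ
  have hFAC : S_FAC G μ := r_FAC G μ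
  have hSA : S_SA G μ := r_SA G μ hUB hFAC
  have hINTA : S_INTA G μ := r_INTA G μ hUB hFAC
  have hDSA : S_DSA G μ := r_DSA G μ hUB hCC hFAC hSA hINTA
  have hSUPD : S_SUPD G μ := r_SUPD G μ hUB hFAC hDSA
  have hHM : S3_HM G := t3_HM G
  have hAV : S3_AV G μ := t3_AV μ hUB hCC
  have hAVF : S3_AVF G := t3_AVF G
  have hAVA : S3_AVA G μ := t3_AVA G μ hUB hFAC
  have hAVS : S3_AVS G μ := t3_AVS G μ hUB
  have hSM : S3_SMALL G μ := t3_SMALL G μ hDSA hSUPD hHM hAVF hAVA hAVS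
  exact gen_core G μ hSA hHM hAV hAVS hSM (main_one G μ) hQ hG A hA

end

end Pool.Agent.W660.FG
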