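import Pool.Agent.W660.FL.Stm

/-!
Part CC of project FG: continuous functions with compact support in `L²(G)`, no countability.
-/

namespace Pool.Agent.W660.FG

open Pool.Agent.W660.FL
open MeasureTheory Complex Filter Topology
open scoped ComplexConjugate InnerProductSpace Manifold ContDiff

noncomputable section

namespace RCC

section Alg

variable {G : Type} [TopologicalSpace G]

lemma add {u v : G → ℂ} (hu : Cc u) (hv : Cc v) : Cc (u + v) := ⟨hu.1.add hv.1, hu.2.add hv.2⟩

lemma smul (c : ℂ) {u : G → ℂ} (hu : Cc u) : Cc (c • u) :=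
  ⟨hu.1.const_smul c, hu.2.smul_left (f := fun _ => c)⟩

variable [Group G] [IsTopologicalGroup G]

lemma left (x : G) {u : G → ℂ} (hu : Cc u) : Cc (fun y => u (x * y)) :=
  ⟨hu.1.comp (continuous_const_mul x), hu.2.comp_homeomorph (Homeomorph.mulLeft x)⟩

lemma right (x : G) {u : G → ℂ} (hu : Cc u) : Cc (fun y => u (y * x)) :=
  ⟨hu.1.comp (continuous_mul_const x), hu.2.comp_homeomorph (Homeomorph.mulRight x)⟩

end Alg

lemma cl_eq {G : Type} [MeasurableSpace G] {μ : Measure G} {u : G → ℂ} (hu : MemLp u 2 μ) :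
    cl μ u = hu.toLp u := by
  unfold cl
  rw [dif_pos hu]

lemma memLp {G : Type} [Group G] [TopologicalSpace G] [MeasurableSpace G] [BorelSpace G]
    {μ : Measure G} [μ.IsHaarMeasure] {u : G → ℂ} (hu : Cc u) : MemLp u 2 μ :=
  hu.1.memLp_of_hasCompactSupport hu.2

section Dense

open scoped ENNReal NNReal
open Set

variable {X : Type*} [TopologicalSpace X] [T2Space X] [LocallyCompactSpace X]
  [MeasurableSpace X] [BorelSpace X] {E : Type*} [NormedAddCommGroup E] {μ : Measure X}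
  {p : ℝ≥0∞} [NormedSpace ℝ E]

/-- Urysohn for compact sets in locally compact spaces, `L^p` version -/
theorem urys [μ.OuterRegular] (hp : p ≠ ⊤) {s u : Set X}
    (s_compact : IsCompact s) (u_open : IsOpen u) (hsu : s ⊆ u) (hs : μ s ≠ ⊤) (c : E) {ε : ℝ≥0∞}
    (hε : ε ≠ 0) :
    ∃ f : X → E,
      Continuous f ∧
        eLpNorm (fun x => f x - s.indicator (fun _y => c) x) p μ ≤ ε ∧
          Function.support f ⊆ u ∧ MemLp f p μ := by
  obtain ⟨η, η_pos, hη⟩ :
      ∃ η : ℝ≥0, 0 < η ∧ ∀ s : Set X, μ s ≤ η → eLpNorm (s.indicator fun _x => c) p μ ≤ ε :=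
    exists_eLpNorm_indicator_le hp c hε
  have ηpos : (0 : ℝ≥0∞) < η := ENNReal.coe_lt_coe.2 η_pos
  obtain ⟨V, sV, V_open, h'V, hV⟩ : ∃ (V : Set X), V ⊇ s ∧ IsOpen V ∧ μ V < (⊤ : ENNReal) ∧ μ (V \ s) < η :=
    s_compact.measurableSet.exists_isOpen_sdiff_lt hs ηpos.ne'
  let v := u ∩ V
  have hsv : s ⊆ v := subset_inter hsu sV
  have hμv : μ v < (⊤ : ENNReal) := (measure_mono inter_subset_right).trans_lt h'V
  obtain ⟨g, hgs, hgv, _, hg_range⟩ :=
    exists_continuous_one_zero_of_isCompact s_compact (u_open.inter V_open).isClosed_compl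
      (disjoint_compl_right_iff_subset.2 hsv)
  have g_norm : ∀ x, ‖g x‖ = g x := fun x => by rw [Real.norm_eq_abs, abs_of_nonneg (hg_range x).1]
  have gc_bd0 : ∀ x, ‖g x • c‖ ≤ ‖c‖ := by
    intro x
    simp only [norm_smul, g_norm x]
    apply mul_le_of_le_one_left (norm_nonneg _)
    exact (hg_range x).2
  have gc_bd :
      ∀ x, ‖g x • c - s.indicator (fun _x => c) x‖ ≤ ‖(v \ s).indicator (fun _x => c) x‖ := by
    intro x
    by_cases hv : x ∈ v
    · rw [← Set.sdiff_union_of_subset hsv] at hv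
      rcases hv with hsv | hs
      · simpa only [hsv.2, Set.indicator_of_notMem, not_false_iff, sub_zero, hsv,
          Set.indicator_of_mem] using gc_bd0 x
      · simp [hgs hs, hs]
    · simp [hgv hv, show x ∉ s from fun h => hv (hsv h)]
  have gc_support : (Function.support fun x : X => g x • c) ⊆ v := by
    refine Function.support_subset_iff'.2 fun x hx => ?_
    simp only [hgv hx, Pi.zero_apply, zero_smul]
  have gc_mem : MemLp (fun x => g x • c) p μ := by
    refine MemLp.smul (memLp_top_const _) ?_ (p := p) (q := ⊤)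
    refine ⟨g.continuous.aestronglyMeasurable, ?_⟩
    have : eLpNorm (v.indicator fun _x => (1 : ℝ)) p μ < ⊤ :=
      (eLpNorm_indicator_const_le _ _).trans_lt <| by simp [lt_top_iff_ne_top, hμv.ne]
    refine (eLpNorm_mono fun x => ?_).trans_lt this
    by_cases hx : x ∈ v
    · simp only [hx, abs_of_nonneg (hg_range x).1, (hg_range x).2, Real.norm_eq_abs,
        indicator_of_mem, CStarRing.norm_one]
    · simp only [hgv hx, Pi.zero_apply, Real.norm_eq_abs, abs_zero, abs_nonneg]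
  refine ⟨fun x ↦ g x • c, by fun_prop, (eLpNorm_mono gc_bd).trans ?_,
      gc_support.trans inter_subset_left, gc_mem⟩
  exact hη _ ((measure_mono (sdiff_subset_sdiff inter_subset_right Subset.rfl)).trans hV.le)

/-- density of continuous functions with compact support -/
theorem dens [μ.Regular] (hp : p ≠ ⊤) {f : X → E} (hf : MemLp f p μ) {ε : ℝ≥0∞} (hε : ε ≠ 0) :
    ∃ g : X → E, HasCompactSupport g ∧ eLpNorm (f - g) p μ ≤ ε ∧ Continuous g ∧ MemLp g p μ := by
  suffices H :
      ∃ g : X → E, eLpNorm (f - g) p μ ≤ ε ∧ Continuous g ∧ MemLp g p μ ∧ HasCompactSupport g by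
    rcases H with ⟨g, hg, g_cont, g_mem, g_support⟩
    exact ⟨g, g_support, hg, g_cont, g_mem⟩
  apply hf.induction_dense hp _ _ _ _ hε
  rotate_left
  · rintro f g ⟨f_cont, f_mem, hf⟩ ⟨g_cont, g_mem, hg⟩
    exact ⟨f_cont.add g_cont, f_mem.add g_mem, hf.add hg⟩
  · rintro f ⟨_f_cont, f_mem, _hf⟩
    exact f_mem.aestronglyMeasurable
  intro c t ht htμ ε hε
  rcases exists_Lp_half E μ p hε with ⟨δ, δpos, hδ⟩
  obtain ⟨η, ηpos, hη⟩ :
      ∃ η : ℝ≥0, 0 < η ∧ ∀ s : Set X, μ s ≤ η → eLpNorm (s.indicator fun _x => c) p μ ≤ δ :=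
    exists_eLpNorm_indicator_le hp c δpos.ne'
  have hη_pos' : (0 : ℝ≥0∞) < η := ENNReal.coe_pos.2 ηpos
  obtain ⟨s, st, s_compact, s_closed, μs⟩ :
      ∃ s, s ⊆ t ∧ IsCompact s ∧ IsClosed s ∧ μ (t \ s) < η :=
    ht.exists_isCompact_isClosed_sdiff_lt htμ.ne hη_pos'.ne'
  have hsμ : μ s < (⊤ : ENNReal) := (measure_mono st).trans_lt htμ
  have I1 : eLpNorm ((s.indicator fun _y => c) - t.indicator fun _y => c) p μ ≤ δ := by
    rw [← eLpNorm_neg, neg_sub, ← indicator_sdiff st]
    exact hη _ μs.le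
  obtain ⟨k, k_compact, sk⟩ : ∃ k : Set X, IsCompact k ∧ s ⊆ interior k :=
    exists_compact_superset s_compact
  rcases urys hp s_compact isOpen_interior sk hsμ.ne c δpos.ne'
    with ⟨f, f_cont, I2, f_support, f_mem⟩
  have I3 : eLpNorm (f - t.indicator fun _y => c) p μ ≤ ε := by
    have h := (hδ _ _
          (f_mem.aestronglyMeasurable.sub
            (aestronglyMeasurable_const.indicator s_closed.measurableSet))
          ((aestronglyMeasurable_const.indicator s_closed.measurableSet).sub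
            (aestronglyMeasurable_const.indicator ht))
          I2 I1).le
    refine le_trans (le_of_eq ?_) h
    congr 1
    funext x
    simp only [Pi.sub_apply, Pi.add_apply]
    abel
  refine ⟨f, I3, f_cont, f_mem, HasCompactSupport.intro k_compact fun x hx => ?_⟩
  rw [← Function.notMem_support]
  contrapose hx
  exact interior_subset (f_support hx)

end Dense

end RCC

section A

variable (G : Type) [Group G] [TopologicalSpace G] [IsTopologicalGroup G] [T2Space G]
  [LocallyCompactSpace G] [MeasurableSpace G] [BorelSpace G]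
  (μ : Measure G) [μ.IsHaarMeasure] [μ.Regular]

theorem r_CC : S_CC G μ := by
  refine ⟨?_, ?_, ?_, ?_, ?_, ?_, ?_⟩
  · intro u hu
    exact ⟨RCC.memLp hu, hu.1.integrable_of_hasCompactSupport hu.2⟩
  · intro u v hu hv
    refine ⟨RCC.add hu hv, ?_⟩
    rw [RCC.cl_eq (RCC.memLp (RCC.add hu hv)), RCC.cl_eq (RCC.memLp hu),
      RCC.cl_eq (RCC.memLp hv), ← MemLp.toLp_add]
  · intro c u hu
    refine ⟨RCC.smul c hu, ?_⟩
    rw [RCC.cl_eq (RCC.memLp (RCC.smul c hu)), RCC.cl_eq (RCC.memLp hu),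
      ← MemLp.toLp_const_smul]
  · intro u hu x
    refine ⟨RCC.left x hu, RCC.right x hu, ?_⟩
    rw [RCC.cl_eq (RCC.memLp (RCC.left x hu)), RCC.cl_eq (RCC.memLp hu)]
    rfl
  · intro u v hu hv
    rw [RCC.cl_eq (RCC.memLp hv), RCC.cl_eq (RCC.memLp hu), L2.inner_def]
    apply integral_congr_ae
    filter_upwards [(RCC.memLp hv (μ := μ)).coeFn_toLp, (RCC.memLp hu (μ := μ)).coeFn_toLp]
      with y hy1 hy2
    rw [hy1, hy2]
    simp [mul_comm]
  · intro u v hu hv h
    rw [RCC.cl_eq (RCC.memLp hu), RCC.cl_eq (RCC.memLp hv), MemLp.toLp_eq_toLp_iff] at h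
    exact (hu.1.ae_eq_iff_eq μ hv.1).1 h
  · intro ξ ε hε
    obtain ⟨u, hu1, hu2, hu3, hu4⟩ := RCC.dens (by norm_num)
      (Lp.memLp ξ) (ε := ENNReal.ofReal ε) (by simpa using hε)
    refine ⟨u, ⟨hu3, hu1⟩, ?_⟩
    rw [RCC.cl_eq hu4]
    have h1 : ξ - hu4.toLp u = ((Lp.memLp ξ).sub hu4).toLp ((ξ : G → ℂ) - u) := by
      rw [MemLp.toLp_sub (Lp.memLp ξ) hu4, Lp.toLp_coeFn]
    rw [h1, Lp.norm_toLp]
    exact ENNReal.toReal_le_of_le_ofReal hε.le hu2

end A

end

end Pool.Agent.W660.FG
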