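import Pool.Agent.W660.FL.Stm

/-!
Statements of the parts of project FG (problem MP_2da52b_an): the general locally compact group.
`H` is an open subgroup of `G`, `N` a compact normal subgroup of `H`, `Q = H / N` a Lie group.
-/

namespace Pool.Agent.W660.FG

open Pool.Agent.W660.FL
open MeasureTheory Complex Filter Topology
open scoped ComplexConjugate InnerProductSpace Manifold ContDiff

noncomputable section

/-! ### Definitions -/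

/-- an open subgroup `H` of `G` with a continuous open surjective homomorphism onto `Q`
with compact kernel -/
structure QD (G Q : Type) [Group G] [TopologicalSpace G] [Group Q] [TopologicalSpace Q] where
  H : Subgroup G
  isOpen : IsOpen (H : Set G)
  π : H →* Q
  cont : Continuous π
  opn : IsOpenMap π
  surj : Function.Surjective π
  cpt : IsCompact ((π.ker.map H.subtype : Subgroup G) : Set G)

section D

variable {G Q : Type} [Group G] [TopologicalSpace G] [Group Q] [TopologicalSpace Q]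

/-- the kernel, as a subgroup of `G` -/
def QD.N (D : QD G Q) : Subgroup G := D.π.ker.map D.H.subtype

/-- a section -/
def QD.s (D : QD G Q) (q : Q) : G := (Function.surjInv D.surj q : D.H)

/-- left invariant functions -/
def InvL (L : Subgroup G) (u : G → ℂ) : Prop := ∀ l ∈ L, ∀ x, u (l * x) = u x

/-- `A` separates the cosets of the kernel -/
def Sep (D : QD G Q) (A : Set (G → ℂ)) : Prop :=
  (∀ x, x ∉ D.N → ∃ u ∈ A, InvL D.N u ∧ ∃ y, u (x * y) ≠ u y) ∧ ∃ u ∈ A, InvL D.N u ∧ u ≠ 0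

end D

section M

variable {G : Type} [Group G] [TopologicalSpace G] [IsTopologicalGroup G]
  [MeasurableSpace G] [BorelSpace G]

/-- `L`-invariant vectors -/
def HN (μ : Measure G) [μ.IsMulLeftInvariant] (L : Subgroup G) : Set (HH μ) :=
  {ξ | ∀ l ∈ L, U μ l ξ = ξ}

/-- normalised Haar measure of a compact subgroup `L` of `G`, as a measure on `G` -/
structure IsAv (L : Subgroup G) (m : Measure G) : Prop where
  prob : IsProbabilityMeasure m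
  supp : m (L : Set G)ᶜ = 0
  left : ∀ l ∈ L, m.map (fun x => l * x) = m
  right : ∀ l ∈ L, m.map (fun x => x * l) = m
  inv : m.map (fun x => x⁻¹) = m

/-- average of a function -/
def av (m : Measure G) (u : G → ℂ) (x : G) : ℂ := ∫ l, u (l * x) ∂m

/-- average of a vector -/
def avH (μ : Measure G) [μ.IsMulLeftInvariant] (m : Measure G) (ξ : HH μ) : HH μ :=
  ∫ l, U μ l ξ ∂m

variable {Q : Type} [Group Q] [TopologicalSpace Q] {E : Type} [NormedAddCommGroup E]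
  [NormedSpace ℝ E]

/-- smooth invariant vectors -/
def Sm3 (μ : Measure G) [μ.IsMulLeftInvariant] (D : QD G Q) (C : LieChart Q E) (ξ : HH μ) :
    Prop := ξ ∈ HN μ D.N ∧ Pe2 fun a : E => U μ (D.s (C.κ.symm a)) ξ

end M

section C

variable {G Q : Type} [Group G] [TopologicalSpace G] [Group Q] [TopologicalSpace Q] {E : Type}
  [NormedAddCommGroup E] [NormedSpace ℝ E]

/-- the class of normalised functions -/
def InP3 (D : QD G Q) (C : LieChart Q E) (A : Set (G → ℂ)) (φ : G → ℂ) : Prop :=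
  φ ∈ A ∧ Cc φ ∧ φ 1 = 1 ∧ (∀ x, ‖φ x‖ ≤ 1) ∧ (∀ x, φ x⁻¹ = conj (φ x)) ∧ InvL D.N φ ∧
    Pe2 fun a : E => φ (D.s (C.κ.symm a))

/-- linear term -/
def HasAl3 (D : QD G Q) (C : LieChart Q E) (φ : G → ℂ) (α : E →L[ℝ] ℝ) : Prop :=
  HasFDerivAt (fun a : E => φ (D.s (C.κ.symm a))) ((Complex.I : ℂ) • (Complex.ofRealCLM.comp α)) 0

/-- `|φ| < 1` off the kernel, nondegenerate maximum -/
def Strict3 (D : QD G Q) (C : LieChart Q E) (φ : G → ℂ) : Prop :=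
  (∀ x, x ∉ D.N → ‖φ x‖ < 1) ∧
    ∃ c > 0, ∀ᶠ a in 𝓝 (0 : E), ‖φ (D.s (C.κ.symm a))‖ ≤ 1 - c * ‖a‖ ^ 2

open Classical in
/-- the function which is `F ∘ κ ∘ π` on `π⁻¹ (source)` and `0` outside -/
def lift3 (D : QD G Q) (C : LieChart Q E) (F : E → ℂ) (z : G) : ℂ :=
  if h : z ∈ D.H then lift C F (D.π ⟨z, h⟩) else 0

/-- preimages of small balls -/
def Bk3 (D : QD G Q) (C : LieChart Q E) (r : ℝ) : Set G :=
  {x | ∃ h : x ∈ D.H, D.π ⟨x, h⟩ ∈ Bk C r}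

end C

/-- `Q` is a Lie group -/
def IsLie (Q : Type) [Group Q] [TopologicalSpace Q] : Prop :=
  ∃ (E : Type) (_ : NormedAddCommGroup E) (_ : NormedSpace ℝ E) (_ : FiniteDimensional ℝ E)
    (_ : ChartedSpace E Q), LieGroup 𝓘(ℝ, E) ∞ Q

/-- arbitrarily small compact normal subgroups `N` such that all quotients by compact normal
subgroups `L ≥ N` are Lie groups -/
def ProLie (H : Type) [Group H] [TopologicalSpace H] : Prop :=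
  ∀ V ∈ 𝓝 (1 : H), ∃ N : Subgroup H, N.Normal ∧ IsCompact (N : Set H) ∧ (N : Set H) ⊆ V ∧
    ∀ (L : Subgroup H) [L.Normal], IsCompact (L : Set H) → N ≤ L → IsLie (H ⧸ L)

/-- there is an open pro-Lie subgroup -/
def GY (G : Type) [Group G] [TopologicalSpace G] : Prop :=
  ∃ H : Subgroup G, IsOpen (H : Set G) ∧ ProLie H

section A

variable (G : Type) [Group G] [TopologicalSpace G] [IsTopologicalGroup G] [T2Space G]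
  [LocallyCompactSpace G] [MeasurableSpace G] [BorelSpace G]
  (μ : Measure G) [μ.IsHaarMeasure]

/-! ### Part I: averages over compact subgroups -/

/-- existence of the normalised Haar measure of a compact subgroup -/
def S3_HM : Prop := ∀ L : Subgroup G, IsCompact (L : Set G) → ∃ m : Measure G, IsAv L m

/-- averages -/
def S3_AV : Prop := ∀ L : Subgroup G, IsCompact (L : Set G) → ∀ m : Measure G, IsAv L m →
  (∀ ξ : HH μ, Integrable (fun l => U μ l ξ) m ∧ avH μ m ξ ∈ HN μ L ∧ ‖avH μ m ξ‖ ≤ ‖ξ‖) ∧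
  (∀ ξ ∈ HN μ L, avH μ m ξ = ξ) ∧
  (∀ (ξ η : HH μ) (x : G), av m (mc μ ξ η) x = mc μ (avH μ m ξ) η x) ∧
  (∀ u : G → ℂ, Cc u → Cc (av m u) ∧ cl μ (av m u) = avH μ m (cl μ u)) ∧
  (∀ u : G → ℂ, Cc u → (InvL L u ↔ cl μ u ∈ HN μ L))

/-- averages of continuous functions -/
def S3_AVF : Prop := ∀ L : Subgroup G, IsCompact (L : Set G) → ∀ m : Measure G, IsAv L m →
  (∀ u : G → ℂ, Continuous u → Continuous (av m u) ∧ InvL L (av m u) ∧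
    ∀ c, (∀ x, ‖u x‖ ≤ c) → ∀ x, ‖av m u x‖ ≤ c) ∧
  (∀ u v : G → ℂ, Continuous u → Continuous v → av m (u + v) = av m u + av m v) ∧
  (∀ (c : ℂ) (u : G → ℂ), av m (c • u) = c • av m u) ∧
  (∀ u v : G → ℂ, Continuous u → InvL L v → av m (u * v) = av m u * v) ∧
  (∀ u : G → ℂ, InvL L u → av m u = u)

/-- averages over small subgroups -/
def S3_AVS : Prop :=
  (∀ (ξ : HH μ) (ε : ℝ), 0 < ε → ∃ V ∈ 𝓝 (1 : G), ∀ (L : Subgroup G) (m : Measure G),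
    IsCompact (L : Set G) → IsAv L m → (L : Set G) ⊆ V → ‖avH μ m ξ - ξ‖ ≤ ε) ∧
  (∀ (u : G → ℂ) (ε : ℝ), Continuous u → (∀ ε' > 0, ∃ v : G → ℂ, Cc v ∧ ∀ x, ‖u x - v x‖ ≤ ε') →
    0 < ε → ∃ V ∈ 𝓝 (1 : G), ∀ (L : Subgroup G) (m : Measure G),
    IsCompact (L : Set G) → IsAv L m → (L : Set G) ⊆ V → ∀ x, ‖av m u x - u x‖ ≤ ε)

/-- averages of elements of `A` -/
def S3_AVA : Prop := ∀ A : Set (G → ℂ), IsAlg μ A → ∀ L : Subgroup G, IsCompact (L : Set G) →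
  ∀ m : Measure G, IsAv L m → ∀ u ∈ A, av m u ∈ A

/-- density of the compactly supported invariant elements -/
def S3_SUPD : Prop := ∀ A : Set (G → ℂ), IsAlg μ A → ∀ L : Subgroup G, IsCompact (L : Set G) →
  ∀ u ∈ A, InvL L u → ∀ ε > 0, ∃ v ∈ A, Cc v ∧ InvL L v ∧ ∀ x, ‖u x - v x‖ ≤ ε

/-- extension of characters of the algebra of invariant elements -/
def S3_SPX : Prop := ∀ A : Set (G → ℂ), IsAlg μ A → ∀ L : Subgroup G, IsCompact (L : Set G) →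
  ∀ χ : (G → ℂ) → ℂ,
  (∀ u ∈ A, InvL L u → ∀ v ∈ A, InvL L v → χ (u + v) = χ u + χ v) →
  (∀ (c : ℂ), ∀ u ∈ A, InvL L u → χ (c • u) = c * χ u) →
  (∀ u ∈ A, InvL L u → ∀ v ∈ A, InvL L v → χ (u * v) = χ u * χ v) →
  (∃ u ∈ A, InvL L u ∧ χ u ≠ 0) →
  (∀ u ∈ A, InvL L u → ∀ c : ℝ, (∀ x, ‖u x‖ ≤ c) → ‖χ u‖ ≤ c) →
  ∃ g : G, ∀ u ∈ A, InvL L u → χ u = u g

/-- small subgroups adapted to `A` -/
def S3_SMALL : Prop := ∀ A : Set (G → ℂ), IsAlg μ A → ∀ V ∈ 𝓝 (1 : G), ∃ V' ∈ 𝓝 (1 : G),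
  ∀ N : Subgroup G, IsCompact (N : Set G) → (N : Set G) ⊆ V' → ∃ L : Subgroup G, N ≤ L ∧
  IsCompact (L : Set G) ∧ (L : Set G) ⊆ V ∧
  (∀ h : G, (∀ n ∈ N, h * n * h⁻¹ ∈ N) → (∀ n ∈ N, h⁻¹ * n * h ∈ N) → ∀ l ∈ L, h * l * h⁻¹ ∈ L) ∧
  (∀ x, x ∉ L → ∃ u ∈ A, InvL L u ∧ ∃ y, u (x * y) ≠ u y) ∧ ∃ u ∈ A, InvL L u ∧ u ≠ 0

end A

section B

variable (G : Type) [Group G] [TopologicalSpace G] [IsTopologicalGroup G] [T2Space G]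
  [LocallyCompactSpace G] [MeasurableSpace G] [BorelSpace G]
  (μ : Measure G) [μ.IsHaarMeasure]
  (Q : Type) [Group Q] [TopologicalSpace Q] [IsTopologicalGroup Q] [T2Space Q]

/-! ### Part II: the quotient -/

/-- basic facts -/
def S3_V : Prop := ∀ D : QD G Q,
  (∀ x : G, x ∈ D.N ↔ ∃ h : x ∈ D.H, D.π ⟨x, h⟩ = 1) ∧
  (∀ h ∈ D.H, ∀ n ∈ D.N, h * n * h⁻¹ ∈ D.N) ∧
  (∀ q, ∃ h : D.s q ∈ D.H, D.π ⟨D.s q, h⟩ = q) ∧
  (∀ (x : G) (h : x ∈ D.H), ∃ n ∈ D.N, x = n * D.s (D.π ⟨x, h⟩)) ∧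
  (∀ ξ ∈ HN μ D.N, ∀ (x : G) (h : x ∈ D.H), U μ x ξ = U μ (D.s (D.π ⟨x, h⟩)) ξ) ∧
  (∀ ξ ∈ HN μ D.N, ∀ x ∈ D.H, U μ x ξ ∈ HN μ D.N) ∧
  (∀ ξ ∈ HN μ D.N, Continuous fun q => U μ (D.s q) ξ) ∧
  (∀ ξ ∈ HN μ D.N, ∀ q q', U μ (D.s (q * q')) ξ = U μ (D.s q') (U μ (D.s q) ξ)) ∧
  (∀ ξ ∈ HN μ D.N, U μ (D.s 1) ξ = ξ)

/-- basic facts on functions -/
def S3_VF : Prop := ∀ D : QD G Q,
  (∀ u : G → ℂ, Continuous u → InvL D.N u → Continuous fun p : Q × G => u (D.s p.1 * p.2)) ∧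
  (∀ u : G → ℂ, InvL D.N u → ∀ q q' y, u (D.s (q * q') * y) = u (D.s q * (D.s q' * y))) ∧
  (∀ u : G → ℂ, InvL D.N u → ∀ (x : G) (h : x ∈ D.H) (y : G),
    u (x * y) = u (D.s (D.π ⟨x, h⟩) * y)) ∧
  (∀ u : G → ℂ, InvL D.N u → ∀ x ∈ D.H, InvL D.N (fun y => u (x * y))) ∧
  (∀ u : G → ℂ, InvL D.N u → ∀ y, InvL D.N (fun x => u (x * y)) ∧ u (D.s 1 * y) = u y) ∧
  (∀ K : Set Q, IsCompact K → IsCompact {x : G | ∃ h : x ∈ D.H, D.π ⟨x, h⟩ ∈ K}) ∧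
  (∀ V : Set G, IsOpen V → (D.N : Set G) ⊆ V → ∃ W ∈ 𝓝 (1 : Q),
    ∀ (x : G) (h : x ∈ D.H), D.π ⟨x, h⟩ ∈ W → x ∈ V)

/-- averages along a one-parameter subgroup -/
def S3_IDENT : Prop := ∀ D : QD G Q, ∀ u : G → ℂ, Cc u → InvL D.N u → ∀ γ : ℝ → Q, IsOne γ →
  ∀ f : ℝ → ℂ, Integrable f →
  Integrable (fun r : ℝ => f r • U μ (D.s (γ r)) (cl μ u)) ∧
  ((∫ r : ℝ, f r • U μ (D.s (γ r)) (cl μ u)) = 0 → ∀ y, ∫ r : ℝ, f r * u (D.s (γ r) * y) = 0) ∧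
  ∀ g : G, (∀ y, ∫ r : ℝ, f r * u (D.s (γ r) * y) = u (g * y)) →
    (∫ r : ℝ, f r • U μ (D.s (γ r)) (cl μ u)) = U μ g (cl μ u)

/-- a one-parameter subgroup along which `A` is analytic is trivial -/
def S3_CHI : Prop := ∀ (D : QD G Q) (A : Set (G → ℂ)), IsAlg μ A → Sep D A →
  ∀ γ : ℝ → Q, IsOne γ →
  (∀ u ∈ A, InvL D.N u → ∀ ε > 0, ∃ v ∈ A, Cc v ∧ InvL D.N v ∧ (∀ x, ‖u x - v x‖ ≤ ε) ∧
    ∀ y, Ana (fun r => v (D.s (γ r) * y))) → ∀ t, γ t = 1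

/-- approximate identity -/
def S3_APPR : Prop := ∀ (D : QD G Q) (w : G → ℂ), Cc w → InvL D.N w → ∀ ε > 0,
  ∃ V ∈ 𝓝 (1 : Q), ∀ f : G → ℂ, Cc f → (∀ x, (f x).im = 0 ∧ 0 ≤ (f x).re) → ∫ x, f x ∂μ = 1 →
  (∀ x, f x ≠ 0 → ∃ h : x ∈ D.H, D.π ⟨x, h⟩ ∈ V) →
  (∀ x, ‖conv μ f w x - w x‖ ≤ ε) ∧ ‖cl μ (conv μ f w) - cl μ w‖ ≤ ε

/-- the conclusion for one quotient -/
def S3_FIN : Prop := ∀ (D : QD G Q) (A : Set (G → ℂ)), IsAlg μ A → ∀ g : ℕ → G → ℂ,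
  (∀ n, g n ∈ A ∧ Cc (g n) ∧ InvL D.N (g n)) → (∃ c, ∀ n, ∫ x, ‖g n x‖ ∂μ ≤ c) →
  (∀ n, ∫ x, g n x ∂μ = 1) →
  (∀ V : Set G, IsOpen V → (D.N : Set G) ⊆ V →
    Tendsto (fun n => ∫ x in Vᶜ, ‖g n x‖ ∂μ) atTop (𝓝 0)) → ∀ ζ ∈ HN μ D.N, ζ ∈ SA G μ A

variable (E : Type) [NormedAddCommGroup E] [NormedSpace ℝ E] [FiniteDimensional ℝ E]

/-! ### Part III: smooth vectors -/

/-- smooth vectors: linear combinations, translates, coefficients -/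
def S3_SM1 : Prop := ∀ (D : QD G Q) (C : LieChart Q E),
  (∀ ξ η : HH μ, Sm3 μ D C ξ → Sm3 μ D C η → Sm3 μ D C (ξ + η)) ∧
  (∀ (c : ℂ) (ξ : HH μ), Sm3 μ D C ξ → Sm3 μ D C (c • ξ)) ∧
  (∀ g ∈ D.H, ∀ ξ : HH μ, Sm3 μ D C ξ → Sm3 μ D C (U μ g ξ)) ∧
  (∀ ξ η : HH μ, Sm3 μ D C ξ → Pe2 fun a : E => mc μ ξ η (D.s (C.κ.symm a)))

/-- convolutions with smooth functions are smooth vectors -/
def S3_SM2 : Prop := ∀ (D : QD G Q) (C : LieChart Q E), ∃ r₁ : ℝ, 0 < r₁ ∧ ∀ F : E → ℂ,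
  ContDiff ℝ ∞ F → tsupport F ⊆ Metric.ball 0 r₁ → Cc (lift3 D C F) ∧
  ∀ w : G → ℂ, Cc w → Sm3 μ D C (cl μ (conv μ (lift3 D C F) w))

/-- density of smooth vectors -/
def S3_SM3 : Prop := ∀ (D : QD G Q) (C : LieChart Q E), ∀ A : Set (G → ℂ), IsAlg μ A →
  ∀ w ∈ A, Cc w → InvL D.N w → ∀ ε > 0, ∃ v ∈ A, Cc v ∧ InvL D.N v ∧ Sm3 μ D C (cl μ v) ∧
  (∀ x, ‖w x - v x‖ ≤ ε) ∧ ‖cl μ w - cl μ v‖ ≤ ε

/-! ### Part IV: the class of normalised functions -/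

def S3_P1 : Prop := ∀ (D : QD G Q) (C : LieChart Q E) (A : Set (G → ℂ)), IsAlg μ A →
  (∀ φ ψ, InP3 D C A φ → InP3 D C A ψ → InP3 D C A (φ * ψ)) ∧
  (∀ φ ψ (t : ℝ), InP3 D C A φ → InP3 D C A ψ → 0 ≤ t → t ≤ 1 →
    InP3 D C A ((t : ℂ) • φ + ((1 - t : ℝ) : ℂ) • ψ)) ∧
  (∀ φ, InP3 D C A φ → ∃ α, HasAl3 D C φ α) ∧
  (∀ φ α β, HasAl3 D C φ α → HasAl3 D C φ β → α = β) ∧
  (∀ φ ψ α β, InP3 D C A φ → InP3 D C A ψ → HasAl3 D C φ α → HasAl3 D C ψ β →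
    HasAl3 D C (φ * ψ) (α + β)) ∧
  (∀ φ ψ α β (t : ℝ), HasAl3 D C φ α → HasAl3 D C ψ β →
    HasAl3 D C ((t : ℂ) • φ + ((1 - t : ℝ) : ℂ) • ψ) (t • α + (1 - t) • β))

def S3_P2 : Prop := ∀ (D : QD G Q) (C : LieChart Q E) (A : Set (G → ℂ)), IsAlg μ A →
  ∀ u ∈ A, Cc u → Sm3 μ D C (cl μ u) → cl μ u ≠ 0 →
  InP3 D C A ((((‖cl μ u‖ ^ 2 : ℝ) : ℂ)⁻¹) • mc μ (cl μ u) (cl μ u))

/-- strictness -/
def S3_ST1 : Prop := ∀ (D : QD G Q) (C : LieChart Q E) (A : Set (G → ℂ)), IsAlg μ A →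
  (∀ φ ψ, InP3 D C A φ → InP3 D C A ψ → Strict3 D C φ → Strict3 D C (φ * ψ)) ∧
  (∀ φ ψ (t : ℝ), InP3 D C A φ → InP3 D C A ψ → Strict3 D C φ → Strict3 D C ψ → 0 ≤ t → t ≤ 1 →
    Strict3 D C ((t : ℂ) • φ + ((1 - t : ℝ) : ℂ) • ψ))

/-- existence of normalised functions -/
def S3_NE : Prop := ∀ (D : QD G Q) (C : LieChart Q E) (A : Set (G → ℂ)), IsAlg μ A → Sep D A →
  ∃ φ, InP3 D C A φ

/-- separation of a point from the kernel -/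
def S3_OFF : Prop := ∀ (D : QD G Q) (C : LieChart Q E) (A : Set (G → ℂ)), IsAlg μ A → Sep D A →
  ∀ x : G, x ∉ D.N → ∃ φ, InP3 D C A φ ∧ ‖φ x‖ < 1

/-- nondegeneracy in a direction -/
def S3_DIR : Prop := ∀ (D : QD G Q) (C : LieChart Q E) (A : Set (G → ℂ)), IsAlg μ A → Sep D A →
  ∀ X : E, X ≠ 0 →
  ∃ φ, InP3 D C A φ ∧ ∃ c > 0, ∀ᶠ t in 𝓝 (0 : ℝ), ‖φ (D.s (C.κ.symm (t • X)))‖ ≤ 1 - c * t ^ 2

/-- existence of a strict function -/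
def S3_ST2 : Prop := ∀ (D : QD G Q) (C : LieChart Q E) (A : Set (G → ℂ)), IsAlg μ A → Sep D A →
  ∃ φ, InP3 D C A φ ∧ Strict3 D C φ

/-- positivity -/
def S3_POS : Prop := ∀ (D : QD G Q) (C : LieChart Q E) (A : Set (G → ℂ)), IsAlg μ A →
  ∀ (X : E) (γ : ℝ → Q), IsOne γ → HasDerivAt (fun t => C.κ (γ t)) X 0 →
  (∀ φ α, InP3 D C A φ → HasAl3 D C φ α → 0 ≤ α X) → ∀ v ∈ A, Cc v → Sm3 μ D C (cl μ v) →
  ∃ u' ∈ HN μ D.N, HasDerivAt (fun t : ℝ => U μ (D.s (γ t)) (cl μ v)) u' 0 ∧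
    ∀ (n : ℕ) (c : Fin n → ℂ) (r : Fin n → ℝ),
      0 ≤ (-Complex.I * ⟪∑ j, c j • U μ (D.s (γ (r j))) (cl μ v),
        ∑ j, c j • U μ (D.s (γ (r j))) u'⟫_ℂ).re

/-- no direction is positive -/
def S3_NOPOS : Prop := ∀ (D : QD G Q) (C : LieChart Q E) (A : Set (G → ℂ)), IsAlg μ A →
  Sep D A → ∀ X : E, X ≠ 0 → ¬ ∀ φ α, InP3 D C A φ → HasAl3 D C φ α → 0 ≤ α X

/-- a strict function without linear term -/
def S3_CEN : Prop := ∀ (D : QD G Q) (C : LieChart Q E) (A : Set (G → ℂ)), IsAlg μ A →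
  Sep D A → ∃ φ, InP3 D C A φ ∧ Strict3 D C φ ∧ HasAl3 D C φ 0

/-! ### Part V: Laplace method -/

/-- doubling -/
def S3_DBL : Prop := ∀ (D : QD G Q) (C : LieChart Q E), ∃ L r₀ : ℝ, 0 < r₀ ∧
  Metric.closedBall 0 r₀ ⊆ C.κ.target ∧ IsCompact (Bk3 D C r₀) ∧
  (∀ r, 0 < r → r ≤ r₀ → 0 < μ.real (Bk3 D C r)) ∧
  ∀ r, 0 < r → 2 * r ≤ r₀ → μ.real (Bk3 D C (2 * r)) ≤ L * μ.real (Bk3 D C r)

/-- behaviour at the identity -/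
def S3_REAL : Prop := ∀ (D : QD G Q) (C : LieChart Q E) (A : Set (G → ℂ)) (φ : G → ℂ),
  InP3 D C A φ → HasAl3 D C φ 0 →
  (∃ K r : ℝ, 0 < r ∧ ∀ a : E, ‖a‖ < r → ‖φ (D.s (C.κ.symm a)) - 1‖ ≤ K * ‖a‖ ^ 2) ∧
  ∀ ε > 0, ∃ r > 0, ∀ a : E, ‖a‖ < r → |(φ (D.s (C.κ.symm a))).im| ≤ ε * ‖a‖ ^ 2

/-- the approximate identity -/
def S3_LAP : Prop := ∀ (D : QD G Q) (C : LieChart Q E) (A : Set (G → ℂ)), IsAlg μ A →
  ∀ φ, InP3 D C A φ → Strict3 D C φ → HasAl3 D C φ 0 →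
  ∃ g : ℕ → G → ℂ, (∀ n, g n ∈ A ∧ Cc (g n) ∧ InvL D.N (g n)) ∧
  (∃ c, ∀ n, ∫ x, ‖g n x‖ ∂μ ≤ c) ∧ (∀ n, ∫ x, g n x ∂μ = 1) ∧
  ∀ V : Set G, IsOpen V → (D.N : Set G) ⊆ V →
    Tendsto (fun n => ∫ x in Vᶜ, ‖g n x‖ ∂μ) atTop (𝓝 0)

end B

/-- the theorem -/
def S3_GEN : Prop := ∀ (G : Type) [Group G] [TopologicalSpace G] [IsTopologicalGroup G]
  [T2Space G] [LocallyCompactSpace G] [SecondCountableTopology G] [MeasurableSpace G]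
  [BorelSpace G] (μ : Measure G) [μ.IsHaarMeasure], GY G → ∀ A : Set (G → ℂ), IsAlg μ A → A = FA μ

end

end Pool.Agent.W660.FG
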