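import Pool.Agent.W660.FG.Stm

/-!
Project FG, part AVF: averages of continuous functions over a compact subgroup.
-/

namespace Pool.Agent.W660.FG

open Pool.Agent.W660.FL
open MeasureTheory Complex Filter Topology
open scoped ComplexConjugate InnerProductSpace Manifold ContDiff

noncomputable section

namespace TAVF

variable {G : Type} [Group G] [TopologicalSpace G] [IsTopologicalGroup G] [T2Space G]
  [MeasurableSpace G] [BorelSpace G] {L : Subgroup G} {m : Measure G}

theorem ae_mem (hm : IsAv L m) : ∀ᵐ l ∂m, l ∈ L := by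
  have h : m {l | ¬ l ∈ L} = 0 := hm.supp
  exact h

theorem integ (hL : IsCompact (L : Set G)) (hm : IsAv L m) {u : G → ℂ} (hu : Continuous u)
    (x : G) : Integrable (fun l => u (l * x)) m := by
  have := hm.prob
  have h1 : IntegrableOn (fun l => u (l * x)) (L : Set G) m :=
    ContinuousOn.integrableOn_compact hL (by fun_prop)
  have h2 : m.restrict (L : Set G) = m := Measure.restrict_eq_self_of_ae_mem (ae_mem hm)
  rw [IntegrableOn, h2] at h1
  exact h1

theorem bound (hm : IsAv L m) {f : G → ℂ} {c : ℝ} (h : ∀ l ∈ L, ‖f l‖ ≤ c) :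
    ‖∫ l, f l ∂m‖ ≤ c := by
  have := hm.prob
  have h1 := norm_integral_le_of_norm_le_const (μ := m) (f := f) (C := c)
    ((ae_mem hm).mono fun l hl => h l hl)
  simpa using h1

theorem cont (hL : IsCompact (L : Set G)) (hm : IsAv L m) {u : G → ℂ} (hu : Continuous u) :
    Continuous (av m u) := by
  rw [continuous_iff_continuousAt]
  intro x₀
  rw [ContinuousAt, Metric.tendsto_nhds]
  intro ε hε
  have h1 : ∀ᶠ x in 𝓝 x₀, ∀ l ∈ (L : Set G), ‖u (l * x) - u (l * x₀)‖ < ε / 2 := by
    refine hL.eventually_forall_of_forall_eventually fun l _ => ?_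
    have hc : Continuous fun z : G × G => ‖u (z.2 * z.1) - u (z.2 * x₀)‖ := by fun_prop
    refine hc.continuousAt.eventually_lt continuousAt_const ?_
    simpa using half_pos hε
  filter_upwards [h1] with x hx
  rw [dist_eq_norm]
  have h2 : av m u x - av m u x₀ = ∫ l, (u (l * x) - u (l * x₀)) ∂m := by
    rw [integral_sub (integ hL hm hu x) (integ hL hm hu x₀)]
    rfl
  rw [h2]
  exact (bound hm fun l hl => (hx l hl).le).trans_lt (half_lt_self hε)

theorem inv (hm : IsAv L m) (u : G → ℂ) : InvL L (av m u) := by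
  intro l₀ hl₀ x
  have h1 := hm.right l₀ hl₀
  have h2 : ∫ l, u (l * x) ∂(m.map fun l => l * l₀) = ∫ l, u (l * l₀ * x) ∂m :=
    (Homeomorph.mulRight l₀).measurableEmbedding.integral_map fun l => u (l * x)
  rw [h1] at h2
  simp only [av]
  rw [h2]
  simp only [mul_assoc]

end TAVF

variable (G : Type) [Group G] [TopologicalSpace G] [IsTopologicalGroup G] [T2Space G]
  [LocallyCompactSpace G] [MeasurableSpace G] [BorelSpace G]

theorem t3_AVF : S3_AVF G := by
  intro L hL m hm
  have := hm.prob
  refine ⟨fun u hu => ⟨TAVF.cont hL hm hu, TAVF.inv hm u, fun c hc x =>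
    TAVF.bound hm fun l _ => hc _⟩, fun u v hu hv => ?_, fun c u => ?_, fun u v _ hv => ?_,
    fun u hu => ?_⟩
  · funext x
    exact integral_add (TAVF.integ hL hm hu x) (TAVF.integ hL hm hv x)
  · funext x
    exact integral_const_mul c fun l => u (l * x)
  · funext x
    have h1 : ∫ l, (u * v) (l * x) ∂m = ∫ l, u (l * x) * v x ∂m :=
      integral_congr_ae ((TAVF.ae_mem hm).mono fun l hl => by
        simp only [Pi.mul_apply, hv l hl x])
    have h2 : ∫ l, u (l * x) * v x ∂m = (∫ l, u (l * x) ∂m) * v x := integral_mul_const _ _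
    simp only [av, Pi.mul_apply]
    simp only [Pi.mul_apply] at h1
    rw [h1, h2]
  · funext x
    have h1 : ∫ l, u (l * x) ∂m = ∫ _, u x ∂m :=
      integral_congr_ae ((TAVF.ae_mem hm).mono fun l hl => hu l hl x)
    simp only [av]
    rw [h1]
    simp

end

end Pool.Agent.W660.FG
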