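import Pool.Agent.W660.FG.Stm

/-!
Part POS of project FG.
-/

namespace Pool.Agent.W660.FG

open Pool.Agent.W660.FL
open MeasureTheory Complex Filter Topology
open scoped ComplexConjugate InnerProductSpace Manifold ContDiff

noncomputable section

section B

namespace TPOS

theorem one_zero {Q : Type} [Group Q] [TopologicalSpace Q] {γ : ℝ → Q} (h : IsOne γ) :
    γ 0 = 1 := by
  have := h.2 0 0
  rw [add_zero] at this
  exact left_eq_mul.mp this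

/-- The chain rule along a one-parameter subgroup. -/
theorem chain {Q : Type} [Group Q] [TopologicalSpace Q] {E : Type} [NormedAddCommGroup E]
    [NormedSpace ℝ E] {C : LieChart Q E} {γ : ℝ → Q} (h : IsOne γ) {X : E}
    (hX : HasDerivAt (fun t => C.κ (γ t)) X 0) {F : Type} [NormedAddCommGroup F]
    [NormedSpace ℝ F] (f : Q → F) (L : E →L[ℝ] F)
    (hf : HasFDerivAt (fun a : E => f (C.κ.symm a)) L 0) :
    HasDerivAt (fun t : ℝ => f (γ t)) (L X) 0 := by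
  have h0 : C.κ (γ 0) = 0 := by rw [one_zero h, C.map_one]
  have h1 : HasFDerivAt (fun a : E => f (C.κ.symm a)) L ((fun t => C.κ (γ t)) 0) := by
    show HasFDerivAt (fun a : E => f (C.κ.symm a)) L (C.κ (γ 0))
    rw [h0]
    exact hf
  have h2 := h1.comp_hasDerivAt (0 : ℝ) hX
  refine h2.congr_of_eventuallyEq ?_
  have h3 : ∀ᶠ t in 𝓝 (0 : ℝ), γ t ∈ C.κ.source := by
    apply h.1.continuousAt
    rw [one_zero h]
    exact C.κ.open_source.mem_nhds C.one_mem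
  filter_upwards [h3] with t ht
  show f (γ t) = f (C.κ.symm (C.κ (γ t)))
  rw [C.κ.left_inv ht]

end TPOS

variable (G : Type) [Group G] [TopologicalSpace G] [IsTopologicalGroup G]
  [MeasurableSpace G] [BorelSpace G] (μ : Measure G) [μ.IsHaarMeasure]
  (Q : Type) [Group Q] [TopologicalSpace Q]
  (E : Type) [NormedAddCommGroup E] [NormedSpace ℝ E]

namespace TPOS

/-- Linear combinations of translates. -/
theorem comb (hCC : S_CC G μ) (hS : S3_SM1 G μ Q E) (D : QD G Q)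
    (hmem : ∀ q, D.s q ∈ D.H) (C : LieChart Q E) (A : Set (G → ℂ))
    (hA : IsAlg μ A) (γ : ℝ → Q) (v : G → ℂ) (hv : v ∈ A) (hvc : Cc v)
    (hvs : Sm3 μ D C (cl μ v))
    {n : ℕ} (c : Fin n → ℂ) (r : Fin n → ℝ) (s : Finset (Fin n)) :
    ∃ w ∈ A, Cc w ∧ Sm3 μ D C (cl μ w) ∧
      cl μ w = ∑ j ∈ s, c j • U μ (D.s (γ (r j))) (cl μ v) := by
  classical
  induction s using Finset.induction_on with
  | empty =>
    refine ⟨(0 : ℂ) • v, hA.smul 0 v hv, (hCC.2.2.1 0 v hvc).1, ?_, ?_⟩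
    · rw [(hCC.2.2.1 0 v hvc).2]
      exact (hS D C).2.1 0 _ hvs
    · rw [(hCC.2.2.1 0 v hvc).2, Finset.sum_empty, zero_smul]
  | insert j s hj ih =>
    obtain ⟨w, hw, hwc, hws, hwe⟩ := ih
    have h1 := hCC.2.2.2.1 v hvc (D.s (γ (r j)))
    have h2 := hCC.2.2.1 (c j) (fun y => v (D.s (γ (r j)) * y)) h1.1
    have h3 := hCC.2.1 (c j • fun y => v (D.s (γ (r j)) * y)) w h2.1 hwc
    refine ⟨(c j • fun y => v (D.s (γ (r j)) * y)) + w,
      hA.add _ (hA.smul _ _ (hA.left _ _ hv)) _ hw, h3.1, ?_, ?_⟩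
    · rw [h3.2, h2.2, ← h1.2.2]
      exact (hS D C).1 _ _ ((hS D C).2.1 _ _ ((hS D C).2.2.1 _ (hmem _) _ hvs)) hws
    · rw [h3.2, h2.2, ← h1.2.2, hwe, Finset.sum_insert hj]

end TPOS

theorem t3_POS : S_CC G μ → S_PE1 → S3_V G μ Q → S3_SM1 G μ Q E → S3_P1 G μ Q E →
    S3_P2 G μ Q E → S3_POS G μ Q E := by
  intro hCC hPE hV hS hP1 hP2 D C A hA X γ hγ hX hpos v hv hvc hvs
  obtain ⟨-, -, hVs, -, -, hVm, -, hVq, -⟩ := hV D
  have hmem : ∀ q, D.s q ∈ D.H := fun q => (hVs q).1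
  have hvN : cl μ v ∈ HN μ D.N := hvs.1
  obtain ⟨L, B, hLB⟩ := id hvs.2
  have hL := hPE.2.2.2 E (HH μ) (fun a : E => U μ (D.s (C.κ.symm a)) (cl μ v)) L B hLB
  have hd : HasDerivAt (fun t : ℝ => U μ (D.s (γ t)) (cl μ v)) (L X) 0 :=
    TPOS.chain hγ hX (fun q => U μ (D.s q) (cl μ v)) L hL
  have hLN : L X ∈ HN μ D.N := by
    intro l hl
    have h1 := (((U μ l).toContinuousLinearMap.restrictScalars ℝ).hasFDerivAt
      (x := U μ (D.s (γ 0)) (cl μ v))).comp_hasDerivAt (0 : ℝ) hd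
    have h2 : HasDerivAt (fun t : ℝ => U μ l (U μ (D.s (γ t)) (cl μ v))) (U μ l (L X)) 0 := h1
    have h3 : (fun t : ℝ => U μ l (U μ (D.s (γ t)) (cl μ v))) =
        fun t : ℝ => U μ (D.s (γ t)) (cl μ v) := by
      funext t
      exact hVm _ hvN _ (hmem _) l hl
    rw [h3] at h2
    exact h2.unique hd
  refine ⟨L X, hLN, hd, fun n c r => ?_⟩
  obtain ⟨w, hw, hwc, hws, hwe⟩ :=
    TPOS.comb G μ Q E hCC hS D hmem C A hA γ v hv hvc hvs c r Finset.univ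
  set W : HH μ := ∑ j, c j • U μ (D.s (γ (r j))) (cl μ v) with hW
  set W' : HH μ := ∑ j, c j • U μ (D.s (γ (r j))) (L X) with hW'
  have hcomm : ∀ (t s : ℝ), U μ (D.s (γ t)) (U μ (D.s (γ s)) (cl μ v)) =
      U μ (D.s (γ s)) (U μ (D.s (γ t)) (cl μ v)) := by
    intro t s
    rw [← hVq _ hvN, ← hVq _ hvN, ← hγ.2, ← hγ.2, add_comm]
  have hdW : HasDerivAt (fun t : ℝ => U μ (D.s (γ t)) W) W' 0 := by
    have e : (fun t : ℝ => U μ (D.s (γ t)) W) =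
        fun t : ℝ => ∑ j, c j • U μ (D.s (γ (r j))) (U μ (D.s (γ t)) (cl μ v)) := by
      funext t
      rw [hW, map_sum]
      refine Finset.sum_congr rfl fun j _ => ?_
      rw [map_smul, hcomm]
    rw [e]
    refine HasDerivAt.fun_sum fun j _ => ?_
    have h1 := (((U μ (D.s (γ (r j)))).toContinuousLinearMap.restrictScalars ℝ).hasFDerivAt
      (x := U μ (D.s (γ 0)) (cl μ v))).comp_hasDerivAt (0 : ℝ) hd
    exact h1.const_smul (c j)
  by_cases hW0 : W = 0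
  · rw [hW0, inner_zero_left, mul_zero, Complex.zero_re]
  have hφ := hP2 D C A hA w hw hwc hws (by rw [hwe]; exact hW0)
  rw [hwe] at hφ
  set φ : G → ℂ := (((‖W‖ ^ 2 : ℝ) : ℂ)⁻¹) • mc μ W W with hφdef
  obtain ⟨α, hα⟩ := (hP1 D C A hA).2.2.1 φ hφ
  have hαX := hpos φ α hφ hα
  have h1 : HasDerivAt (fun t : ℝ => φ (D.s (γ t))) (((Complex.I : ℂ) •
      (Complex.ofRealCLM.comp α)) X) 0 := TPOS.chain hγ hX (fun q => φ (D.s q)) _ hα
  have h2 : HasDerivAt (fun t : ℝ => φ (D.s (γ t))) (((‖W‖ ^ 2 : ℝ) : ℂ)⁻¹ • ⟪W, W'⟫_ℂ) 0 := by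
    have h3 : HasDerivAt (fun t : ℝ => ⟪W, U μ (D.s (γ t)) W⟫_ℂ) ⟪W, W'⟫_ℂ 0 := by
      have := (((innerSL ℂ W).restrictScalars ℝ).hasFDerivAt
        (x := U μ (D.s (γ 0)) W)).comp_hasDerivAt (0 : ℝ) hdW
      exact this
    exact h3.const_smul ((((‖W‖ ^ 2 : ℝ) : ℂ)⁻¹))
  have h3 := h1.unique h2
  have hn : (0 : ℝ) < ‖W‖ ^ 2 := by
    have := norm_pos_iff.mpr hW0
    positivity
  have hnc : ((‖W‖ ^ 2 : ℝ) : ℂ) ≠ 0 := by
    exact_mod_cast hn.ne'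
  have h4 : ⟪W, W'⟫_ℂ = ((‖W‖ ^ 2 : ℝ) : ℂ) * (Complex.I * ((α X : ℝ) : ℂ)) := by
    have h5 : ((Complex.I : ℂ) • (Complex.ofRealCLM.comp α)) X = Complex.I * ((α X : ℝ) : ℂ) := rfl
    rw [h5, smul_eq_mul] at h3
    rw [h3, mul_inv_cancel_left₀ hnc]
  rw [h4]
  have h6 : -Complex.I * (((‖W‖ ^ 2 : ℝ) : ℂ) * (Complex.I * ((α X : ℝ) : ℂ))) =
      ((‖W‖ ^ 2 * α X : ℝ) : ℂ) := by
    have hI : Complex.I * Complex.I = -1 := Complex.I_mul_I
    push_cast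
    linear_combination (-((‖W‖ : ℂ) ^ 2 * (α X : ℂ))) * hI
  rw [h6, Complex.ofReal_re]
  exact mul_nonneg hn.le hαX

end B

end

end Pool.Agent.W660.FG
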